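import Pool.Agent.N976.TL.Asm

/-!
Backward cylinders: one window of the moving frame (after Pool.Agent.N976.TL.A2a).
-/

set_option autoImplicit false

open MeasureTheory Set Metric Filter
open scoped ContDiff ENNReal

namespace Pool.Agent.H45.NS

open H459R3.NS W221.NS Pool.Agent.Y8 Pool.Agent.N977.H Pool.Agent.N976.TL

/-- The backward time interval of the level `i`. -/
def Wb (t₀ : ℝ) (i : ℕ) : Set ℝ := Ioo (t₀ - rr i ^ 2) t₀

/-! ### The function of the gradient on a line -/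

section

variable {T E D : ℝ} {G : Set ℝ} {u : ℝ → V → V} {p : ℝ → V → ℝ}

/-- The real valued function of the gradient on a line. -/
noncomputable def phB (R₀ : ℝ) (G : Set ℝ) (u : ℝ → V → V) (y : V) (τ : ℝ) : ℝ :=
  (Y7.FtG R₀ G u (τ, y)).toReal

lemma phB_nn (R₀ : ℝ) (y : V) (τ : ℝ) : 0 ≤ phB R₀ G u y τ := ENNReal.toReal_nonneg

lemma phB_int (R₀ : ℝ) (hN : Turb 1 T E D G u p) {y : V} {J : Set ℝ} {M : ℝ}
    (h : ∫⁻ τ in J, Y7.FtG R₀ G u (τ, y) ≤ ENNReal.ofReal M) (hM : 0 ≤ M) :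
    IntegrableOn (phB R₀ G u y) J ∧ (∫ τ in J, phB R₀ G u y τ ≤ M) ∧
      ∀ᵐ τ ∂(volume.restrict J), Y7.FtG R₀ G u (τ, y) = ENNReal.ofReal (phB R₀ G u y τ) := by
  have hm0 : Measurable fun τ => Y7.FtG R₀ G u (τ, y) :=
    (Y7.FtG_meas R₀ hN).comp (measurable_id.prodMk measurable_const)
  have hm := hm0.aemeasurable (μ := volume.restrict J)
  have hfin : ∫⁻ τ in J, Y7.FtG R₀ G u (τ, y) ≠ ⊤ := (h.trans_lt ENNReal.ofReal_lt_top).ne
  have hlt : ∀ᵐ τ ∂(volume.restrict J), Y7.FtG R₀ G u (τ, y) < ⊤ := ae_lt_top' hm hfin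
  refine ⟨integrable_toReal_of_lintegral_ne_top hm hfin, ?_, ?_⟩
  · unfold phB
    rw [integral_toReal hm hlt]
    exact ENNReal.toReal_le_of_le_ofReal hM h
  · filter_upwards [hlt] with τ hτ
    unfold phB
    rw [ENNReal.ofReal_toReal hτ.ne]

end

/-- The scales. -/
lemma scR (i j : ℕ) : Y7.sc (16 * rr i) j = rr (i + j) := by
  unfold Y7.sc Y7.Hl.Rr rr
  rw [pow_add, one_div, inv_pow, inv_pow]
  field_simp

lemma rr16 (i : ℕ) : 0 < 16 * rr i := by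
  have := rr0 i
  positivity

/-- The mean and the value at a point, in terms of the function of the gradient at small scales. -/
theorem moL : ∃ K : ℝ, 0 < K ∧ ∀ u : V → V, ContDiff ℝ ∞ u → ∀ (i j : ℕ) (x y : V) (φ : ℝ), 0 ≤ φ →
    ‖x - y‖ ≤ rr (i + j) → Y7.Fx (16 * rr i) u y ≤ ENNReal.ofReal φ →
      ‖mo (rr (i + j)) u x - u y‖ ≤ K * (rr (i + j) * √φ) := by
  obtain ⟨K, hK, h⟩ := Y7.mlb
  refine ⟨K, hK, fun u hu i j x y φ hφ hxy hF => ?_⟩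
  have h1 := h (16 * rr i) (rr16 i) u hu j y x (by rw [scR]; exact hxy)
  rw [scR] at h1
  have h2 : Y7.Fx (16 * rr i) u y ^ (1 / 2 : ℝ) ≤ ENNReal.ofReal (√φ) := by
    refine (ENNReal.rpow_le_rpow hF (by norm_num)).trans ?_
    rw [ENNReal.ofReal_rpow_of_nonneg hφ (by norm_num), ← Real.sqrt_eq_rpow]
  have hr := rr0 (i + j)
  have h3 := h1.trans (mul_le_mul_right h2 _)
  rw [← ENNReal.ofReal_mul (by positivity)] at h3
  have h4 := (ENNReal.ofReal_le_ofReal_iff (by positivity)).1 h3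
  rw [mul_assoc] at h4
  exact h4

theorem moL0 : ∃ K : ℝ, 0 < K ∧ ∀ u : V → V, ContDiff ℝ ∞ u → ∀ (i : ℕ) (x y : V) (φ : ℝ), 0 ≤ φ →
    ‖x - y‖ ≤ rr i → Y7.Fx (16 * rr i) u y ≤ ENNReal.ofReal φ →
      ‖mo (rr i) u x - u y‖ ≤ K * (rr i * √φ) := by
  obtain ⟨K, hK, h⟩ := moL
  exact ⟨K, hK, fun u hu i x y φ hφ hxy hF => h u hu i 0 x y φ hφ hxy hF⟩

/-- The hypotheses at the level `i`. -/
structure LvB (T : ℝ) (G : Set ℝ) (u : ℝ → V → V) (t₀ : ℝ) (x₀ y : V) (i : ℕ) (e : ℝ) : Prop where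
  lo : 2 * rr i ^ 2 < t₀
  hi : t₀ < T
  dy : ‖x₀ - y‖ ≤ rr (i + 6)
  e0 : 0 < e
  hF : ∫⁻ τ in Wb t₀ i, Y7.FtG (16 * rr i) G u (τ, y) ≤ ENNReal.ofReal (e / rr i ^ 2)

/-- The path stays close to its starting point. -/
theorem stayB : ∃ c : ℝ, 0 < c ∧ c ≤ 1 / 2 ∧
    ∀ (T E D : ℝ) (G : Set ℝ) (u : ℝ → V → V) (p : ℝ → V → ℝ), Turb 1 T E D G u p →
    ∀ (t₀ : ℝ) (x₀ y : V) (i : ℕ) (a e : ℝ), LvB T G u t₀ x₀ y i e → 0 ≤ a →
    (∀ t ∈ Wb t₀ i ∩ G, rr i * ‖mo (rr i) (u t) x₀‖ ≤ a) →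
    ∀ h : ℝ, 0 < h → h * (1 + a + e) ≤ c → ∀ s t₁ : ℝ, t₀ - rr i ^ 2 ≤ s - h * rr i ^ 2 →
    s ≤ t₀ → t₁ ∈ Icc (s - h * rr i ^ 2) s →
    ∀ (X Y : ℝ → V) (B C : ℝ), FPath T (rr i) B C G u p X Y → X t₁ = x₀ →
    ∀ τ ∈ Ioo (s - h * rr i ^ 2) s, ‖X τ - x₀‖ ≤ rr i / 16 := by
  obtain ⟨K, hK, hmo⟩ := moL0
  obtain ⟨c, hc, hc1, hc2⟩ : ∃ c : ℝ, 0 < c ∧ c ≤ 1 / 64 ∧ 2 * K * √c ≤ 1 / 64 := by
    refine ⟨min (1 / 64) ((1 / (128 * K)) ^ 2), by positivity, min_le_left _ _, ?_⟩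
    have h1 : √(min (1 / 64) ((1 / (128 * K)) ^ 2)) ≤ 1 / (128 * K) := by
      refine (Real.sqrt_le_sqrt (min_le_right _ _)).trans (le_of_eq ?_)
      exact Real.sqrt_sq (by positivity)
    calc 2 * K * √(min (1 / 64) ((1 / (128 * K)) ^ 2)) ≤ 2 * K * (1 / (128 * K)) := by gcongr
      _ = 1 / 64 := by field_simp; norm_num
  refine ⟨c, hc, by linarith, ?_⟩
  intro T E D G u p hN t₀ x₀ y i a e hL ha hA h hh hhc s t₁ hs1 hs2 ht₁ X Y B C hX hX1 τ hτ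
  by_contra hcon
  rw [not_le] at hcon
  have hr := rr0 i
  have hr2 : 0 < rr i ^ 2 := by positivity
  have hlo := hL.lo
  have hhi := hL.hi
  have he := hL.e0
  have hhr : 0 < h * rr i ^ 2 := by positivity
  have hsub1 : Icc (s - h * rr i ^ 2) s ⊆ Ioo 0 T := fun x hx =>
    ⟨by linarith [hx.1], by linarith [hx.2]⟩
  have hsubW : Ioo (s - h * rr i ^ 2) s ⊆ Wb t₀ i := fun x hx =>
    ⟨by linarith [hx.1], by linarith [hx.2]⟩
  have hsubc : uIcc t₁ τ ⊆ Icc (s - h * rr i ^ 2) s := uIcc_subset_Icc ht₁ ⟨hτ.1.le, hτ.2.le⟩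
  have hsubo : uIoc t₁ τ ⊆ Ioc (s - h * rr i ^ 2) s := by
    intro x hx
    rw [mem_uIoc] at hx
    rcases hx with h1 | h1
    · exact ⟨ht₁.1.trans_lt h1.1, h1.2.trans hτ.2.le⟩
    · exact ⟨hτ.1.trans h1.1, h1.2.trans ht₁.2⟩
  have hF0 := (lintegral_mono_set hsubW).trans hL.hF
  obtain ⟨p1, p2, p3⟩ := phB_int (16 * rr i) hN hF0 (by positivity)
  obtain ⟨q1, q2⟩ := cs_int (a := s - h * rr i ^ 2) (b := s) (by linarith) (phB_nn (16 * rr i) y) p1 p2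
  have q3 : √(s - (s - h * rr i ^ 2)) * √(e / rr i ^ 2) = √(h * e) := by
    rw [← Real.sqrt_mul (by linarith)]
    congr 1
    field_simp
    ring
  rw [q3] at q2
  have g1 : IntegrableOn (fun t => √(phB (16 * rr i) G u y t)) (Ioc (s - h * rr i ^ 2) s) := by
    rw [integrableOn_Ioc_iff_integrableOn_Ioo]
    exact q1
  have g2 : ∫ t in Ioc (s - h * rr i ^ 2) s, √(phB (16 * rr i) G u y t) ≤ √(h * e) := by
    rw [integral_Ioc_eq_integral_Ioo]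
    exact q2
  have p4 : ∀ᵐ x ∂(volume.restrict (Ioc (s - h * rr i ^ 2) s)),
      Y7.FtG (16 * rr i) G u (x, y) = ENNReal.ofReal (phB (16 * rr i) G u y x) ∧ x ∈ Ioo (s - h * rr i ^ 2) s := by
    rw [← restrict_Ioo_eq_restrict_Ioc]
    filter_upwards [p3, ae_restrict_mem measurableSet_Ioo] with x h1 h2
    exact ⟨h1, h2⟩
  have hae : ∀ᵐ x ∂(volume.restrict (uIoc t₁ τ)),
      x ∈ {x | x ∈ G ∧ Y7.FtG (16 * rr i) G u (x, y) = ENNReal.ofReal (phB (16 * rr i) G u y x) ∧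
        x ∈ Ioo (s - h * rr i ^ 2) s} := by
    have h1 : ∀ᵐ x ∂(volume.restrict (uIoc t₁ τ)), x ∈ G := by
      rw [ae_restrict_iff' measurableSet_uIoc]
      exact Pool.Agent.Y458.NS.sub_ae hN
        (hsubo.trans (Ioc_subset_Icc_self.trans hsub1))
    filter_upwards [h1, ae_restrict_of_ae_restrict_of_subset hsubo p4] with x h2 h3
    exact ⟨h2, h3⟩
  have h16 : rr (i + 6) = rr i / 64 := by
    unfold rr
    rw [pow_add]
    ring
  have hdy := hL.dy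
  rw [h16] at hdy
  have hft := Pool.Agent.Y458.NS.first_time (X := X) (Y := Y)
    (N := fun x => √(phB (16 * rr i) G u y x))
    (G := {x | x ∈ G ∧ Y7.FtG (16 * rr i) G u (x, y) = ENNReal.ofReal (phB (16 * rr i) G u y x) ∧
        x ∈ Ioo (s - h * rr i ^ 2) s})
    (t₀ := t₁) (t := τ) (r := rr i / 16) (L := h * rr i ^ 2) (a := a / rr i)
    (b := 2 * K * rr i)
    (by positivity) (by positivity) (by positivity)
    (fun x hx => hX.hd x (hsub1 (hsubc hx)))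
    (intervalIntegrable_iff.2 ((Pool.Agent.Y458.NS.FPath_Y_int hN hX).mono_set
      (hsubo.trans (Ioc_subset_Icc_self.trans hsub1))))
    (by
      rw [abs_le]
      constructor
      · linarith [hτ.1, ht₁.2]
      · linarith [hτ.2, ht₁.1])
    (by rw [hX1]; exact hcon) hae (g1.mono_set hsubo) (fun x => Real.sqrt_nonneg _) (by
      intro x hx hxI hle
      obtain ⟨hxG, hxF, hxW⟩ := hx
      rw [hX.ev x hxG]
      rw [hX1] at hle
      have hu := (hN.spv hxG).1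
      have hFx : Y7.Fx (16 * rr i) (u x) y ≤ ENNReal.ofReal (phB (16 * rr i) G u y x) := by
        rw [← Y7.FtG_eq (16 * rr i) u hxG y]
        exact hxF.le
      have m1 := hmo (u x) hu i (X x) y (phB (16 * rr i) G u y x) (phB_nn (16 * rr i) y x) (by
        have e1 : X x - y = (X x - x₀) + (x₀ - y) := by abel
        rw [e1]
        refine (norm_add_le _ _).trans ?_
        linarith) hFx
      have m2 := hmo (u x) hu i x₀ y (phB (16 * rr i) G u y x) (phB_nn (16 * rr i) y x) (by linarith) hFx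
      have m3 : ‖mo (rr i) (u x) x₀‖ ≤ a / rr i := by
        rw [le_div_iff₀ hr, mul_comm]
        exact hA x ⟨hsubW hxW, hxG⟩
      have e2 : mo (rr i) (u x) (X x) = (mo (rr i) (u x) (X x) - u x y)
          - (mo (rr i) (u x) x₀ - u x y) + mo (rr i) (u x) x₀ := by abel
      rw [e2]
      refine (norm_add_le _ _).trans ?_
      have m4 := norm_sub_le (mo (rr i) (u x) (X x) - u x y) (mo (rr i) (u x) x₀ - u x y)
      linarith)
  have h8 : ∫ x in uIoc t₁ τ, √(phB (16 * rr i) G u y x) ≤ √(h * e) :=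
    (setIntegral_mono_set g1 (Filter.Eventually.of_forall fun x => Real.sqrt_nonneg _)
      hsubo.eventuallyLE).trans g2
  have h9 : a / rr i * (h * rr i ^ 2) = rr i * (a * h) := by
    field_simp
  have h10 : 2 * K * rr i * ∫ x in uIoc t₁ τ, √(phB (16 * rr i) G u y x)
      ≤ rr i * (2 * K * √(h * e)) := by
    calc 2 * K * rr i * ∫ x in uIoc t₁ τ, √(phB (16 * rr i) G u y x) ≤ 2 * K * rr i * √(h * e) := by
          gcongr
      _ = rr i * (2 * K * √(h * e)) := by ring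
  have h11 : a * h ≤ 1 / 64 := by nlinarith
  have h12 : h * e ≤ c := by nlinarith
  have h13 : 2 * K * √(h * e) ≤ 1 / 64 := by
    refine (mul_le_mul_of_nonneg_left (Real.sqrt_le_sqrt h12) (by positivity)).trans hc2
  have h14 : rr i * (a * h) ≤ rr i * (1 / 64) := mul_le_mul_of_nonneg_left h11 hr.le
  have h15 : rr i * (2 * K * √(h * e)) ≤ rr i * (1 / 64) := mul_le_mul_of_nonneg_left h13 hr.le
  rw [h9] at hft
  linarith

section

variable {T E D : ℝ} {G : Set ℝ} {u : ℝ → V → V} {p : ℝ → V → ℝ}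

/-- The integral in the frame. -/
lemma frame_intB {k : ℝ} (hk0 : 0 ≤ k)
    (hosc : ∀ w : V → V, ContDiff ℝ ∞ w → ∀ m : ℕ, ∀ x y : V, ‖y - x‖ ≤ rr m →
      ENNReal.ofReal (√(L4 0 4 (Y7.fr (rr m) w y)))
        ≤ ENNReal.ofReal (k * rr m ^ 4) * Y7.Fx (16 * rr m) w x)
    (hN : Turb 1 T E D G u p) {i : ℕ} {s h e₁ : ℝ} {y : V} {X Y : ℝ → V} {B C : ℝ}
    (hrs : rr i ^ 2 < s) (hsT : s < T) (hh : 0 < h) (hh1 : h ≤ 1)
    (hX : FPath T (rr i) B C G u p X Y)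
    (hcl : ∀ τ ∈ Ioo (s - h * rr i ^ 2) s, ‖X τ - y‖ ≤ rr i) (he₁ : 0 < e₁)
    (hF : ∫⁻ τ in Ioo (s - h * rr i ^ 2) s, Y7.FtG (16 * rr i) G u (τ, y)
      ≤ ENNReal.ofReal (e₁ / rr i ^ 2)) {q : ℝ → V → ℝ} {kf : ℝ → ℝ}
    (hL : WL2 {t | t ∈ Ioo (-1 : ℝ) 0 ∧ s + rr i ^ 2 * t ∈ G} (frv (rr i) s X u) q kf) :
    IntegrableOn (fun t => √(L4 0 4 (frv (rr i) s X u t))) (Ioo (-h) 0) ∧
      ∫ t in Ioo (-h) 0, √(L4 0 4 (frv (rr i) s X u t)) ≤ (k + 1) * e₁ := by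
  have hr := rr0 i
  have hr2 : 0 < rr i ^ 2 := by positivity
  have hsub : Ioo (-h) 0 ⊆ Ioo (-1 : ℝ) 0 := Ioo_subset_Ioo_left (by linarith)
  have hpt : ∀ t ∈ {t | t ∈ Ioo (-1 : ℝ) 0 ∧ s + rr i ^ 2 * t ∈ G}, t ∈ Ioo (-h) 0 →
      ENNReal.ofReal (√(L4 0 4 (frv (rr i) s X u t)))
      ≤ ENNReal.ofReal (k * rr i ^ 4) * Y7.FtG (16 * rr i) G u (s + rr i ^ 2 * t, y) := by
    intro t ht hth
    have h1 := hosc (u (s + rr i ^ 2 * t)) (hN.spv ht.2).1 i y (X (s + rr i ^ 2 * t))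
      (hcl _ ⟨by nlinarith [hth.1], by nlinarith [hth.2]⟩)
    rw [Y7.turb_frv hN hX ht.2, Y7.FtG_eq (16 * rr i) u ht.2 y]
    exact h1
  have hlint : ∫⁻ t in Ioo (-h) 0, ENNReal.ofReal (√(L4 0 4 (frv (rr i) s X u t)))
      ≤ ENNReal.ofReal (k * e₁) := by
    have hae : ∫⁻ t in Ioo (-h) 0, ENNReal.ofReal (√(L4 0 4 (frv (rr i) s X u t)))
        ≤ ∫⁻ t in Ioo (-h) 0, ENNReal.ofReal (k * rr i ^ 4)
          * Y7.FtG (16 * rr i) G u (s + rr i ^ 2 * t, y) := by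
      apply lintegral_mono_ae
      filter_upwards [Y7.WD.ae_mem hL.fullH hsub measurableSet_Ioo] with t ht
      exact hpt t ht.2 ht.1
    refine hae.trans ?_
    rw [lintegral_const_mul' _ _ ENNReal.ofReal_ne_top,
      Y7.aff (fun τ => Y7.FtG (16 * rr i) G u (τ, y)) hr2]
    have e1 : s + rr i ^ 2 * (-h) = s - h * rr i ^ 2 := by ring
    have e2 : s + rr i ^ 2 * 0 = s := by ring
    rw [e1, e2]
    refine (mul_le_mul_right (mul_le_mul_right hF _) _).trans ?_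
    rw [← ENNReal.ofReal_mul (by positivity), ← ENNReal.ofReal_mul (by positivity)]
    apply ENNReal.ofReal_le_ofReal
    apply le_of_eq
    field_simp
  have hcont : ContinuousOn (fun t => √(L4 0 4 (frv (rr i) s X u t)))
      {t | t ∈ Ioo (-1 : ℝ) 0 ∧ s + rr i ^ 2 * t ∈ G} := by
    apply Real.continuous_sqrt.comp_continuousOn
    unfold L4
    have h2 := nsq_joint hL.smooth_v
    exact pint_cont (F := fun t z => nsq (frv (rr i) s X u t) z ^ 2) hL.openH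
      (h2.continuousOn.pow 2) 0 4
  have hint : IntegrableOn (fun t => √(L4 0 4 (frv (rr i) s X u t))) (Ioo (-h) 0) := by
    refine ⟨Y7.WD.aesm hL.openH hL.fullH hsub hcont, ?_⟩
    rw [hasFiniteIntegral_iff_ofReal (Eventually.of_forall fun t => Real.sqrt_nonneg _)]
    exact hlint.trans_lt ENNReal.ofReal_lt_top
  refine ⟨hint, ?_⟩
  have h1 : ∫ t in Ioo (-h) 0, √(L4 0 4 (frv (rr i) s X u t)) ≤ k * e₁ := by
    rw [← ENNReal.ofReal_le_ofReal_iff (by positivity),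
      ofReal_integral_eq_lintegral_ofReal hint (Eventually.of_forall fun t => Real.sqrt_nonneg _)]
    exact hlint
  linarith

end

/-- One window. -/
theorem winB : ∃ C c : ℝ, 0 < C ∧ 0 < c ∧ c ≤ 1 / 2 ∧
  ∀ (T E D : ℝ) (G : Set ℝ) (u : ℝ → V → V) (p : ℝ → V → ℝ), Turb 1 T E D G u p →
  ∀ (t₀ : ℝ) (x₀ y : V) (i : ℕ) (a e : ℝ), LvB T G u t₀ x₀ y i e → 0 ≤ a →
  (∀ t ∈ Wb t₀ i ∩ G, rr i * ‖mo (rr i) (u t) x₀‖ ≤ a) →
  ∀ h : ℝ, 0 < h → h * (1 + a + e) ≤ c → ∀ s t₁ e₁ : ℝ, t₀ - rr i ^ 2 ≤ s - h * rr i ^ 2 →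
  s ≤ t₀ → t₁ ∈ Icc (s - h * rr i ^ 2) s → 0 < e₁ →
  ∫⁻ τ in Ioo (s - h * rr i ^ 2) s, Y7.FtG (16 * rr i) G u (τ, y) ≤ ENNReal.ofReal (e₁ / rr i ^ 2) →
    (∫⁻ t in Ioo (s - 9 / 16 * h * rr i ^ 2) s, ENNReal.ofReal (B2 x₀ (rr (i + 1)) (u t))
      ≤ ENNReal.ofReal (C * rr i * (e₁ / h + e₁ ^ 2))) ∧
    (t₁ ∈ G → s - 9 / 16 * h * rr i ^ 2 < t₁ → t₁ < s →
      Dc C (C * (e₁ / h + e₁ ^ 2)) (A2 0 4 (Y7.fr (rr i) (u t₁) x₀))
        (Y7.fr (rr i) (u t₁) x₀)) := by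
  obtain ⟨C₁, hC₁, hen⟩ := p_A1
  obtain ⟨c, hc, hc1, hstay⟩ := stayB
  obtain ⟨K, hK, hosc⟩ := Y7.osc
  obtain ⟨k, hk⟩ : ∃ k, k = K.toReal := ⟨_, rfl⟩
  have hk0 : 0 ≤ k := by rw [hk]; exact ENNReal.toReal_nonneg
  have hKk : K = ENNReal.ofReal k := by rw [hk, ENNReal.ofReal_toReal hK]
  have hosc' : ∀ w : V → V, ContDiff ℝ ∞ w → ∀ m : ℕ, ∀ x y : V, ‖y - x‖ ≤ rr m →
      ENNReal.ofReal (√(L4 0 4 (Y7.fr (rr m) w y)))
        ≤ ENNReal.ofReal (k * rr m ^ 4) * Y7.Fx (16 * rr m) w x := by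
    intro w hw m x y hxy
    have h1 := hosc (16 * rr m) (rr16 m) w hw 0 x y (by rw [scR]; exact hxy)
    rw [scR, hKk, ← mul_assoc, ← ENNReal.ofReal_mul hk0] at h1
    exact h1
  obtain ⟨Kp, hKp, hpath⟩ := path_ex Pool.Agent.Y8.B.p_tcut Pool.Agent.Y8.B.p_acx
  refine ⟨C₁ * (k + 1) ^ 2, c, by positivity, hc, hc1, ?_⟩
  intro T E D G u p hN t₀ x₀ y i a e hL ha hA h hh hhc s t₁ e₁ hs1 hs2 ht₁ he₁ hF
  have hr := rr0 i
  have hr1 := rr1 i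
  have hr2 : 0 < rr i ^ 2 := by positivity
  have hlo := hL.lo
  have hhi := hL.hi
  have he := hL.e0
  have hhr : 0 < h * rr i ^ 2 := by positivity
  have hh1 : h ≤ 1 := by
    have h0 : h ≤ h * (1 + a + e) := le_mul_of_one_le_right hh.le (by linarith)
    linarith
  have hrs : rr i ^ 2 < s := by linarith
  have hsT : s < T := by linarith
  have ht₁T : t₁ ∈ Ioo 0 T := ⟨by linarith [ht₁.1], by linarith [ht₁.2]⟩
  obtain ⟨CX, hCX, hpX⟩ := hpath E (rr i) hr hr1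
  obtain ⟨X, Y, hX1, hX⟩ := hpX T D G u p hN t₁ ht₁T x₀
  have hst := hstay T E D G u p hN t₀ x₀ y i a e hL ha hA h hh hhc s t₁ hs1 hs2 ht₁ X Y _ _ hX hX1
  obtain ⟨kf, hW⟩ := Pool.Agent.Y8.B.p_wfr2 T E D G u p hN (rr i) s hr hrs hsT X Y _ _ hX
  have h16 : rr (i + 6) = rr i / 64 := by
    unfold rr
    rw [pow_add]
    ring
  have hdy := hL.dy
  rw [h16] at hdy
  have hcl : ∀ τ ∈ Ioo (s - h * rr i ^ 2) s, ‖X τ - y‖ ≤ rr i := by
    intro τ hτ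
    have e1 : X τ - y = (X τ - x₀) + (x₀ - y) := by abel
    rw [e1]
    refine (norm_add_le _ _).trans ?_
    linarith [hst τ hτ]
  obtain ⟨i1, i2⟩ := frame_intB hk0 hosc' hN hrs hsT hh hh1 hX hcl he₁ hF hW
  obtain ⟨⟨g1, g2⟩, g3⟩ := hen _ _ _ _ hW h ((k + 1) * e₁) hh hh1 (by positivity) i1 i2
  have hbd : C₁ * ((k + 1) * e₁ / h + ((k + 1) * e₁) ^ 2)
      ≤ C₁ * (k + 1) ^ 2 * (e₁ / h + e₁ ^ 2) := by
    have h1 : (k + 1) * (e₁ / h) ≤ (k + 1) ^ 2 * (e₁ / h) := by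
      apply mul_le_mul_of_nonneg_right _ (by positivity)
      nlinarith
    have h2 : (k + 1) * e₁ / h + ((k + 1) * e₁) ^ 2 ≤ (k + 1) ^ 2 * (e₁ / h + e₁ ^ 2) := by
      have e1 : (k + 1) * e₁ / h = (k + 1) * (e₁ / h) := by ring
      rw [e1]
      nlinarith
    calc C₁ * ((k + 1) * e₁ / h + ((k + 1) * e₁) ^ 2)
        ≤ C₁ * ((k + 1) ^ 2 * (e₁ / h + e₁ ^ 2)) := mul_le_mul_of_nonneg_left h2 hC₁.le
      _ = _ := by ring
  have hCC : C₁ ≤ C₁ * (k + 1) ^ 2 := by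
    apply le_mul_of_one_le_right hC₁.le
    nlinarith
  refine ⟨?_, ?_⟩
  · obtain ⟨w1, w2⟩ := Y7.wmass hN hr hrs hsT X (3 / 4) (p₁ := -(9 / 16 * h)) (q₁ := 0)
      (by linarith) le_rfl
    have e1 : s + rr i ^ 2 * (-(9 / 16 * h)) = s - 9 / 16 * h * rr i ^ 2 := by ring
    have e2 : s + rr i ^ 2 * 0 = s := by ring
    rw [e1, e2] at w1 w2
    have w3 := w1.1 g1
    rw [w2, inv_mul_le_iff₀ hr] at g2
    have hss : Ioo (s - 9 / 16 * h * rr i ^ 2) s ⊆ Ioo (s - h * rr i ^ 2) s :=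
      Ioo_subset_Ioo_left (by nlinarith)
    have hae : ∀ᵐ τ ∂(volume.restrict (Ioo (s - 9 / 16 * h * rr i ^ 2) s)), τ ∈ G := by
      rw [ae_restrict_iff' measurableSet_Ioo]
      exact Pool.Agent.Y458.NS.sub_ae hN fun x hx =>
        ⟨by linarith [(hss hx).1], by linarith [hx.2]⟩
    have hB0 : ∀ τ, 0 ≤ B2 (X τ) (rr i * (3 / 4)) (u τ) := fun τ => integral_nonneg fun x =>
      Finset.sum_nonneg fun i _ => Finset.sum_nonneg fun j _ => sq_nonneg _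
    have f1 : ∫⁻ t in Ioo (s - 9 / 16 * h * rr i ^ 2) s,
        ENNReal.ofReal (B2 x₀ (rr (i + 1)) (u t))
        ≤ ∫⁻ t in Ioo (s - 9 / 16 * h * rr i ^ 2) s,
          ENNReal.ofReal (B2 (X t) (rr i * (3 / 4)) (u t)) := by
      apply lintegral_mono_ae
      filter_upwards [hae, ae_restrict_mem measurableSet_Ioo] with τ h1 h2
      apply ENNReal.ofReal_le_ofReal
      apply Pool.Agent.Y458.NS.B2_mono (hN.spv h1).1
      apply ball_subset_ball'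
      rw [dist_eq_norm, rrS, norm_sub_rev]
      linarith [hst τ (hss h2)]
    refine f1.trans ?_
    rw [← ofReal_integral_eq_lintegral_ofReal w3 (Eventually.of_forall hB0)]
    apply ENNReal.ofReal_le_ofReal
    refine g2.trans ?_
    calc rr i * (C₁ * ((k + 1) * e₁ / h + ((k + 1) * e₁) ^ 2))
        ≤ rr i * (C₁ * (k + 1) ^ 2 * (e₁ / h + e₁ ^ 2)) := mul_le_mul_of_nonneg_left hbd hr.le
      _ = _ := by ring
  · intro ht₁G ht₁1 ht₁2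
    obtain ⟨θ, hθ⟩ : ∃ θ, θ = (t₁ - s) / rr i ^ 2 := ⟨_, rfl⟩
    have e1 : s + rr i ^ 2 * θ = t₁ := by
      rw [hθ]
      field_simp
      ring
    have hθ0 : θ < 0 := by
      rw [hθ]
      exact div_neg_of_neg_of_pos (by linarith) hr2
    have hθ1 : -(9 / 16 * h) < θ := by
      rw [hθ, lt_div_iff₀ hr2]
      nlinarith
    have hmem : θ ∈ {t | t ∈ Ioo (-1 : ℝ) 0 ∧ s + rr i ^ 2 * t ∈ G} :=
      ⟨⟨by linarith, hθ0⟩, by rw [e1]; exact ht₁G⟩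
    have h1 := g3 θ hmem hθ1
    rw [Y7.turb_frv hN hX hmem.2, e1, hX1] at h1
    exact A2a.Dc_mono h1 hCC hbd

end Pool.Agent.H45.NS
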