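import Pool.Agent.H45.NS.B9

/-!
The number of the bad scales, in terms of the local energy.
-/

set_option autoImplicit false

open MeasureTheory Set Metric
open scoped ContDiff ENNReal

namespace Pool.Agent.H45.NS

open H459R3.NS W221.NS Pool.Agent.Y8 Pool.Agent.N977.H Pool.Agent.N976.TL

/-- The number of the bad scales, viscosity one, local energy. -/
theorem qsrL (l : ℝ) (hl3 : 1 / 3 < l) (hl1 : l < 1) : ∃ ε K C : ℝ, 0 < ε ∧ 0 < K ∧ 0 < C ∧
    ∀ (T E D : ℝ) (G : Set ℝ) (u : ℝ → V → V) (p : ℝ → V → ℝ), Turb 1 T E D G u p →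
    ∀ (t₀ : ℝ) (x₀ : V) (k n : ℕ), t₀ ∈ Ioo 0 T → k ≤ n → 2 * rr k ^ 2 < t₀ →
      ∀ A : ℝ, 1 ≤ A → (∀ t ∈ Wb t₀ k ∩ G, EE (u t) x₀ k ≤ A) →
      (¬ SingPt G u t₀ x₀ ∧
        ∀ t ∈ Wb t₀ (n + 13) ∩ G, ∀ x ∈ ball x₀ (rr (n + 14)), ‖u t x‖ ≤ C * 2 ^ n) ∨
      (1 - l) * ((n : ℝ) - k)
        ≤ (((Finset.Ico k n).filter (fun i => ε < Th G u (t₀, x₀) i)).card : ℝ)
          + l * (Real.log A / Real.log 2) + K := by
  have hl : 0 < l := by linarith
  have hlog2 : 0 < Real.log 2 := Real.log_pos (by norm_num)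
  obtain ⟨P, hP, hrec0⟩ := recB
  -- the rates
  obtain ⟨q', hq'⟩ : ∃ q', q' = Real.exp (-(Real.log 2 * (1 - l) / l)) := ⟨_, rfl⟩
  have hlq : -Real.log q' = Real.log 2 * (1 - l) / l := by
    rw [hq', Real.log_exp, neg_neg]
  have hq'4 : 1 / 4 < q' := by
    have h1 : (1 / 4 : ℝ) = Real.exp (-(2 * Real.log 2)) := by
      rw [Real.exp_neg, mul_comm, Real.exp_mul, Real.exp_log (by norm_num)]
      norm_num
    rw [h1, hq']
    apply Real.exp_lt_exp.2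
    apply neg_lt_neg
    rw [div_lt_iff₀ hl]
    nlinarith
  have hq'1 : q' < 1 := by
    have h0 : 0 < Real.log 2 * (1 - l) / l := div_pos (mul_pos hlog2 (by linarith)) hl
    have h1 := Real.exp_lt_exp.2 (show -(Real.log 2 * (1 - l) / l) < 0 by linarith)
    rwa [Real.exp_zero, ← hq'] at h1
  obtain ⟨q, hq⟩ : ∃ q, q = (1 / 4 + q') / 2 := ⟨_, rfl⟩
  have hq4 : 1 < 4 * q := by linarith
  have hq0 : 0 < q := by linarith
  obtain ⟨m0, hm0⟩ := pow_unbounded_of_one_lt P hq4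
  obtain ⟨m, hmm⟩ : ∃ m, m = max m0 3 := ⟨_, rfl⟩
  have hm3 : 3 ≤ m := hmm ▸ le_max_right _ _
  have hPm : P / 4 ^ m ≤ q ^ m := by
    have e1 : (4 * q) ^ m0 ≤ (4 * q) ^ m := pow_le_pow_right₀ hq4.le (hmm ▸ le_max_left _ _)
    rw [div_le_iff₀ (by positivity), ← mul_pow, mul_comm q 4]
    linarith
  obtain ⟨C₁, hC₁, hrec⟩ := hrec0 m hm3
  obtain ⟨θ, C, hθ, hC, hcrit⟩ := critE
  obtain ⟨Cs, hCs, heS⟩ := eL
  obtain ⟨C₇, hC₇, h7⟩ := EE_bd
  obtain ⟨ε, K, hε, hK, hcount⟩ := count_bad (m := m) (q := q) (q' := q') (C := C₁) (Cs := Cs)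
    (θ := θ / 2) (l := l) (by omega) hq0 (by linarith) hq'1 hC₁ hCs (by positivity) hl hl1 hlq
  refine ⟨ε, K + 5, C * 2 ^ 5, hε, by positivity, by positivity, ?_⟩
  intro T E D G u p hN t₀ x₀ k n ht₀ hkn hkt A hA1 hA
  -- the sequences
  have h8' := fun i => essB T E D G u p hN t₀ x₀ i
  choose e he0 helow heup using h8'
  have hspv : ∀ t ∈ G, SPV (u t) := fun t ht => hN.spv ht
  have hbd : ∀ i, 2 ≤ i → ∀ t ∈ Wb t₀ i ∩ G, EE (u t) x₀ i ≤ C₇ * E ^ 2 * 2 ^ i :=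
    fun i hi t ht => h7 (u t) E (hspv t ht.2) (hN.energy_le t ht.2) i x₀ hi
  obtain ⟨X, hX⟩ : ∃ X : ℕ → ℝ, X = fun i => XsB G u t₀ x₀ i := ⟨_, rfl⟩
  have hX0 : ∀ i, 0 ≤ X i := fun i => by rw [hX]; exact XsB_nonneg G u t₀ x₀ i
  have hXle : ∀ i, 2 ≤ i → ∀ t ∈ Wb t₀ i ∩ G, EE (u t) x₀ i ≤ X i :=
    fun i hi => by rw [hX]; exact le_XsB (hbd i hi)
  have hXmk : ∀ i (M : ℝ), 0 ≤ M → (∀ t ∈ Wb t₀ i ∩ G, EE (u t) x₀ i ≤ M) → X i ≤ M :=
    fun i M hM h => by rw [hX]; exact XsB_le hM h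
  have hLv : ∀ i, k ≤ i → ∀ e' > e i, ∃ y, LvB T G u t₀ x₀ y i e' := by
    intro i hi e' he'
    obtain ⟨y, hy1, hy2⟩ := heup i e' he'
    have h1 : rr i ^ 2 ≤ rr k ^ 2 := pow_le_pow_left₀ (rr0 i).le (rr_anti hi) 2
    exact ⟨y, ⟨by linarith, ht₀.2, hy1, lt_of_le_of_lt (he0 i) he', hy2⟩⟩
  have hrcs : ∀ i, k ≤ i → 2 ≤ i → X (i + m) ≤ q ^ m * X i + C₁ * (e i + e i ^ 2) := by
    intro i hi hi2
    apply hXmk _ _ (by have := hX0 i; have := he0 i; positivity)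
    intro t ht
    refine A9.lim_le (g := fun e' : ℝ => q ^ m * X i + C₁ * (e' + e' ^ 2)) (by fun_prop) ?_
    intro e' he'
    obtain ⟨y, hy⟩ := hLv i hi e' he'
    refine (hrec T E D G u p hN t₀ x₀ y i e' (X i) hy (hX0 i) (hXle i hi2) t ht).trans ?_
    have := mul_le_mul_of_nonneg_right hPm (hX0 i)
    linarith
  have hgr : ∀ i, 2 ≤ i → X (i + 1) ≤ 2 * X i := by
    intro i hi2
    apply hXmk _ _ (by have := hX0 i; positivity)
    intro t ht
    refine (EE_succ (hspv t ht.2).1 x₀ i).trans ?_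
    have := hXle i hi2 t ⟨Wb_mono (Nat.le_succ i) ht.1, ht.2⟩
    linarith
  by_cases hex : ∃ i, k + 5 ≤ i ∧ i ≤ n + 5 ∧ X i ≤ θ / 2 ∧ e i ≤ θ / 2
  · left
    obtain ⟨i, hki, hin, hXi, hei⟩ := hex
    obtain ⟨y, hy⟩ := hLv i (by omega) θ (by linarith)
    obtain ⟨h1, h2⟩ := hcrit T E D G u p hN t₀ x₀ y i hy
      (fun t ht => (hXle i (by omega) t ht).trans (by linarith))
    refine ⟨h1, fun t ht x hx => ?_⟩
    refine (h2 t ⟨Wb_mono (by omega) ht.1, ht.2⟩ x (ball_subset_ball (rr_anti (by omega)) hx)).trans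
      ?_
    have h3 : (2 : ℝ) ^ i ≤ 2 ^ (n + 5) := pow_le_pow_right₀ (by norm_num) hin
    calc C * 2 ^ i ≤ C * 2 ^ (n + 5) := mul_le_mul_of_nonneg_left h3 hC.le
      _ = C * 2 ^ 5 * 2 ^ n := by ring
  · right
    push Not at hex
    obtain ⟨B, hB⟩ : ∃ B : ℝ, B = 32 * A := ⟨_, rfl⟩
    have hB1 : 1 ≤ B := by linarith
    have hXA : X (k + 5) ≤ B := by
      apply hXmk _ _ (by linarith)
      intro t ht
      have hs := (hspv t ht.2).1
      have h0 := hA t ⟨Wb_mono (by omega) ht.1, ht.2⟩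
      have h1 := EE_succ hs x₀ k
      have h2 := EE_succ hs x₀ (k + 1)
      have h3 := EE_succ hs x₀ (k + 2)
      have h4 := EE_succ hs x₀ (k + 3)
      have h5 := EE_succ hs x₀ (k + 4)
      linarith
    have key := hcount (fun j => e (j + 5)) (fun j => X (j + 5)) (Th G u (t₀, x₀)) k n
      (fun j => he0 _) (fun j => hX0 _) (fun j hj => by
        have := hrcs (j + 5) (by omega) (by omega)
        rwa [show j + 5 + m = j + m + 5 by ring] at this)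
      (fun j hj => by
        have := hgr (j + 5) (by omega)
        rwa [show j + 5 + 1 = j + 1 + 5 by ring] at this)
      (fun j hj hjn => by
        by_contra hcon
        push Not at hcon
        exact absurd (hex (j + 5) (by omega) (by omega) hcon.1) (not_lt.2 hcon.2))
      (fun j _ => heS T E D G u p hN (t₀, x₀) j (e (j + 5)) (he0 _) (helow (j + 5)))
      B hB1 hXA hkn
    have hlB : Real.log B / Real.log 2 = 5 + Real.log A / Real.log 2 := by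
      have h32 : Real.log 32 = 5 * Real.log 2 := by
        rw [show (32 : ℝ) = 2 ^ 5 by norm_num, Real.log_pow]
        norm_num
      rw [hB, Real.log_mul (by norm_num) (by linarith), h32]
      field_simp
    rw [hlB] at key
    refine key.trans ?_
    nlinarith

end Pool.Agent.H45.NS
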