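import Pool.Agent.Y8.En
import Pool.Agent.H459R3.NS.High2

/-!
Smooth periodic solutions are suitable weak solutions on smaller intervals of time.
-/

set_option autoImplicit false

open MeasureTheory Set Metric Filter Topology
open scoped ContDiff

namespace Pool.Agent.H45.NS

open H459R3.NS W221.NS Pool.Agent.Y8

/-- The identity for the momentum at a regular time. -/
theorem mom_id {H : Set ℝ} (hH : IsOpen H) {v : ℝ → V → V} {q : ℝ → V → ℝ}
    (hv : ContDiffOn ℝ ∞ (fun z : ℝ × V => v z.1 z.2) (H ×ˢ univ))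
    (hq : ContDiffOn ℝ ∞ (fun z : ℝ × V => q z.1 z.2) (H ×ˢ univ))
    (hdiv : ∀ t ∈ H, ∀ x, ∑ i, pd i (fun y => v t y i) x = 0)
    (hmom : ∀ t ∈ H, ∀ x i,
      deriv (fun s => v s x i) t + ∑ j, v t x j * pd j (fun y => v t y i) x
        = ∑ j, pd j (pd j (fun y => v t y i)) x - pd i (q t) x)
    {Φ : ℝ → V → ℝ} (hΦ : ContDiffOn ℝ ∞ (fun z : ℝ × V => Φ z.1 z.2) (H ×ˢ univ))
    {a : V} {R : ℝ} (hR : 0 < R) (hs : ∀ t ∈ H, ∀ z ∉ ball a R, Φ t z = 0) {t : ℝ} (ht : t ∈ H)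
    (i : Fin 3) :
    HasDerivAt (fun s => ∫ z, v s z i * Φ s z) (DM 1 v q Φ i t) t := by
  have hvi := fun i => comp_joint hv i
  have hw : ∀ i, ContDiff ℝ ∞ (fun y => v t y i) := fun i =>
    sl_sm (F := fun t y => v t y i) (hvi i) ht
  have hφ : ContDiff ℝ ∞ (Φ t) := sl_sm hΦ ht
  have hqs : ContDiff ℝ ∞ (q t) := sl_sm hq ht
  have hc : HasCompactSupport (Φ t) := hcsR (hs t ht)
  have hF : ContDiffOn ℝ ∞ (fun z : ℝ × V => v z.1 z.2 i * Φ z.1 z.2) (H ×ˢ univ) :=
    (hvi i).mul hΦ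
  have hFs : ∀ t ∈ H, ∀ z ∉ ball a R, v t z i * Φ t z = 0 := fun s hs' z hz => by
    rw [hs s hs' z hz, mul_zero]
  have h1 := Pool.Agent.Y8.hd_int (F := fun s z => v s z i * Φ s z) hH hF hFs ht
  refine h1.congr_deriv ?_
  -- the integrand
  have hD : ∀ x, deriv (fun s => v s x i * Φ s x) t =
      (∑ j, pd j (pd j (fun y => v t y i)) x - pd i (q t) x -
        ∑ j, v t x j * pd j (fun y => v t y i) x) * Φ t x +
        v t x i * deriv (fun s => Φ s x) t := by
    intro x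
    have d1 : HasDerivAt (fun s => v s x i) (∑ j, pd j (pd j (fun y => v t y i)) x -
        pd i (q t) x - ∑ j, v t x j * pd j (fun y => v t y i) x) t := by
      have d := dt_hd' (F := fun t y => v t y i) hH (hvi i) ht x
      have m := hmom t ht x i
      have e : ∑ j, pd j (pd j (fun y => v t y i)) x - pd i (q t) x -
          ∑ j, v t x j * pd j (fun y => v t y i) x = deriv (fun s => v s x i) t := by
        linarith
      rw [e]
      exact d
    have d2 : HasDerivAt (fun s => Φ s x) (deriv (fun s => Φ s x) t) t := dt_hd' hH hΦ ht x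
    exact (d1.mul d2).deriv
  have hZ : Pool.Agent.W583.MD.Z (fun x => (∑ j, (pd j (fun y => pd j (fun y => v t y i) y * Φ t y) x
      - pd j (fun y => v t y i * pd j (Φ t) y) x
      - pd j (fun y => v t y j * v t y i * Φ t y) x)) - pd i (fun y => q t y * Φ t y) x) := by
    open Pool.Agent.W583.MD in
    refine Z.sub (Z.sum fun j => Z.sub (Z.sub (Z_pd ?_ ?_ j) (Z_pd ?_ ?_ j)) (Z_pd ?_ ?_ j))
      (Z_pd ?_ ?_ i)
    · exact (sm_pd (hw i) j).mul hφ
    · exact hc.mul_left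
    · exact (hw i).mul (sm_pd hφ j)
    · exact (cs_pd hc j).mul_left
    · exact ((hw j).mul (hw i)).mul hφ
    · exact hc.mul_left
    · exact hqs.mul hφ
    · exact hc.mul_left
  have hZ' : Pool.Agent.W583.MD.Z (fun x => deriv (fun s => v s x i * Φ s x) t -
      md 1 v q Φ i t x) := by
    have e : ∀ x, deriv (fun s => v s x i * Φ s x) t - md 1 v q Φ i t x
        = (∑ j, (pd j (fun y => pd j (fun y => v t y i) y * Φ t y) x
      - pd j (fun y => v t y i * pd j (Φ t) y) x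
      - pd j (fun y => v t y j * v t y i * Φ t y) x)) - pd i (fun y => q t y * Φ t y) x := by
      intro x
      have e1 : ∀ j, pd j (fun y => pd j (fun y => v t y i) y * Φ t y) x
          = pd j (fun y => v t y i) x * pd j (Φ t) x
            + pd j (pd j (fun y => v t y i)) x * Φ t x := fun j =>
        Pool.Agent.W583.MD.pd_mul' (Pool.Agent.W583.MD.sm_pd (hw i) j) hφ j x
      have e2 : ∀ j, pd j (fun y => v t y i * pd j (Φ t) y) x
          = v t x i * pd j (pd j (Φ t)) x + pd j (fun y => v t y i) x * pd j (Φ t) x := fun j =>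
        Pool.Agent.W583.MD.pd_mul' (hw i) (Pool.Agent.W583.MD.sm_pd hφ j) j x
      have e3 : ∀ j, pd j (fun y => v t y j * v t y i * Φ t y) x
          = v t x j * v t x i * pd j (Φ t) x + (v t x j * pd j (fun y => v t y i) x
            + pd j (fun y => v t y j) x * v t x i) * Φ t x := fun j => by
        rw [Pool.Agent.W583.MD.pd_mul' ((hw j).mul (hw i)) hφ j x,
          Pool.Agent.W583.MD.pd_mul' (hw j) (hw i) j x]
      have e4 : pd i (fun y => q t y * Φ t y) x
          = q t x * pd i (Φ t) x + pd i (q t) x * Φ t x :=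
        Pool.Agent.W583.MD.pd_mul' hqs hφ i x
      have hd := hdiv t ht x
      rw [hD x]
      simp only [e1, e2, e3, e4, md, adv, lap]
      simp only [Fin.sum_univ_three] at hd ⊢
      linear_combination (v t x i * Φ t x) * hd
    have e' := funext e
    rw [e']
    exact hZ
  have i2 : Integrable fun x => md 1 v q Φ i t x :=
    int_csR (sl_ct (md_joint 1 i hH hv hq hΦ).continuousOn ht) (a := a) (R := R)
      fun z hz => md_zero 1 i hH hΦ hR hs ht hz
  have h2 := integral_add hZ'.1 i2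
  simp only [sub_add_cancel] at h2
  rw [hZ'.2, zero_add] at h2
  exact h2

/-- The integral of a derivative with compact support. -/
theorem int_zero {T a b : ℝ} (ha : 0 < a) (hab : a ≤ b) (hb : b < T) {F F' : ℝ → ℝ}
    (hd : ∀ t ∈ Ioo 0 T, HasDerivAt F (F' t) t) (hc : ContinuousOn F' (Ioo 0 T))
    (h0 : ∀ t ∈ Ioo 0 T, t ∉ Icc a b → F t = 0) (h0' : ∀ t ∈ Ioo 0 T, t ∉ Icc a b → F' t = 0) :
    ∫ t in Ioo 0 T, F' t = 0 := by
  obtain ⟨a', ha1, ha2⟩ := exists_between ha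
  obtain ⟨b', hb1, hb2⟩ := exists_between hb
  have hsub : Ioc a' b' ⊆ Ioo 0 T := fun t ht => ⟨ha1.trans ht.1, ht.2.trans_lt hb2⟩
  have h1 : ∫ t in Ioo 0 T, F' t = ∫ t in Ioc a' b', F' t := by
    refine (setIntegral_eq_of_subset_of_forall_sdiff_eq_zero measurableSet_Ioo hsub ?_)
    intro t ht
    refine h0' t ht.1 fun hI => ht.2 ⟨ha2.trans_le hI.1, hI.2.trans hb1.le⟩
  have hab' : a' ≤ b' := (ha2.le.trans hab).trans hb1.le
  have hsub2 : uIcc a' b' ⊆ Ioo 0 T := by
    rw [uIcc_of_le hab']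
    exact fun t ht => ⟨ha1.trans_le ht.1, ht.2.trans_lt hb2⟩
  rw [h1, ← intervalIntegral.integral_of_le hab',
    intervalIntegral.integral_eq_sub_of_hasDerivAt (f := F) (fun t ht => hd t (hsub2 ht))
      ((hc.mono hsub2).intervalIntegrable), h0 b' (hsub2 right_mem_uIcc), h0 a' (hsub2 left_mem_uIcc),
    sub_zero]
  · exact fun h => absurd h.1 (not_le.2 ha2)
  · exact fun h => absurd h.2 (not_le.2 hb1)

/-- The support of a test function. -/
theorem test_supp {T : ℝ} {φ : ℝ → V → ℝ} (hφ : Test T φ) (hT : 0 < T) : ∃ a b R : ℝ, 0 < a ∧ a ≤ b ∧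
    b < T ∧ 0 < R ∧ (∀ t ∉ Icc a b, ∀ x, φ t x = 0) ∧ ∀ t, ∀ x ∉ ball (0 : V) R, φ t x = 0 := by
  have hK : IsCompact (tsupport fun z : ℝ × V => φ z.1 z.2) := hφ.cpt
  have hn : ∀ z : ℝ × V, z ∉ tsupport (fun z : ℝ × V => φ z.1 z.2) → φ z.1 z.2 = 0 :=
    fun z hz => image_eq_zero_of_notMem_tsupport (f := fun z : ℝ × V => φ z.1 z.2) hz
  obtain ⟨R, hR⟩ := (hK.image continuous_snd).isBounded.subset_ball (0 : V)
  have hR' : ∀ t, ∀ x ∉ ball (0 : V) (max R 1), φ t x = 0 := by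
    intro t x hx
    refine hn (t, x) fun h => hx ?_
    exact ball_subset_ball (le_max_left _ _) (hR ⟨(t, x), h, rfl⟩)
  rcases (tsupport fun z : ℝ × V => φ z.1 z.2).eq_empty_or_nonempty with he | hne
  · refine ⟨T / 2, T / 2, max R 1, by positivity, le_rfl, by linarith, by positivity, ?_, hR'⟩
    intro t _ x
    exact hn (t, x) (by rw [he]; exact notMem_empty _)
  · have hK1 : IsCompact (Prod.fst '' tsupport fun z : ℝ × V => φ z.1 z.2) :=
      hK.image continuous_fst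
    have hn1 : (Prod.fst '' tsupport fun z : ℝ × V => φ z.1 z.2).Nonempty := hne.image _
    have hsub : ∀ t ∈ Prod.fst '' tsupport (fun z : ℝ × V => φ z.1 z.2), t ∈ Ioo 0 T := by
      rintro _ ⟨z, hz, rfl⟩
      exact (hφ.supp hz).1
    obtain ⟨a, ha⟩ := hK1.exists_isLeast hn1
    obtain ⟨b, hb⟩ := hK1.exists_isGreatest hn1
    refine ⟨a, b, max R 1, (hsub a ha.1).1, ha.2 hb.1, (hsub b hb.1).2, by positivity, ?_, hR'⟩
    intro t ht x
    refine hn (t, x) fun h => ht ?_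
    have h1 : t ∈ Prod.fst '' tsupport (fun z : ℝ × V => φ z.1 z.2) := ⟨(t, x), h, rfl⟩
    exact ⟨ha.2 h1, hb.2 h1⟩

/-- Smooth solutions are suitable weak solutions on smaller intervals of time. -/
theorem turb_of_sol {T T' : ℝ} {u : ℝ → V → V} {p : ℝ → V → ℝ} (h : IsSol 1 T u p)
    (hT' : 0 < T') (hTT : T' < T) :
    Turb 1 T' (√(energy (u 0))) (∫ t in Ioo 0 T', enstrophy (u t)) (Ioo 0 T') u p := by
  have hI : ∀ {t : ℝ}, t ∈ Ioo 0 T' → t ∈ Ico 0 T := fun ht => ⟨ht.1.le, ht.2.trans hTT⟩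
  have hI' : ∀ {t : ℝ}, t ∈ Ioo 0 T' → t ∈ Ioo 0 T := fun ht => ⟨ht.1, ht.2.trans hTT⟩
  have hsu : ContDiffOn ℝ ∞ (fun z : ℝ × V => u z.1 z.2) (Ioo 0 T' ×ˢ univ) :=
    h.smooth_u.mono (prod_mono (fun t ht => hI ht) subset_rfl)
  have hsp : ContDiffOn ℝ ∞ (fun z : ℝ × V => p z.1 z.2) (Ioo 0 T' ×ˢ univ) :=
    h.smooth_p.mono (prod_mono (fun t ht => hI ht) subset_rfl)
  have hdv : ∀ t ∈ Ioo 0 T', ∀ x, ∑ i, pd i (fun y => u t y i) x = 0 :=
    fun t ht => h.divfree t (hI ht)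
  have hmo : ∀ t ∈ Ioo 0 T', ∀ x i,
      deriv (fun s => u s x i) t + ∑ j, u t x j * pd j (fun y => u t y i) x
        = ∑ j, pd j (pd j (fun y => u t y i)) x - pd i (p t) x := fun t ht x i => by
    have h2 := h.momentum t (hI' ht) x i
    rwa [one_mul] at h2
  have hE0 : 0 ≤ energy (u 0) := by
    unfold energy
    exact Finset.sum_nonneg fun i _ => integral_nonneg fun x => sq_nonneg _
  have hzero : ∀ (φ : ℝ → V → ℝ) {a b : ℝ}, (∀ t ∉ Icc a b, ∀ x, φ t x = 0) → ∀ t ∉ Icc a b,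
      (∀ x, deriv (fun s => φ s x) t = 0) ∧ φ t = fun _ => 0 := by
    intro φ a b hab t ht
    refine ⟨fun x => ?_, funext fun x => hab t ht x⟩
    have h1 : (fun s => φ s x) =ᶠ[𝓝 t] fun _ => 0 := by
      filter_upwards [isClosed_Icc.isOpen_compl.mem_nhds ht] with s hs
      exact hab s hs x
    rw [h1.deriv_eq]
    exact deriv_const t 0
  have hpz : ∀ (j : Fin 3), pd j (fun _ : V => (0 : ℝ)) = fun _ => 0 := by
    intro j
    funext x
    unfold pd
    simp
  refine ⟨isOpen_Ioo, subset_rfl, by simp, hsu, hsp, fun t ht => h.per_u t (hI ht),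
    fun t ht => h.per_p t (hI ht), hdv, fun t ht => h.momentum t (hI' ht), ?_, ?_, le_rfl, ?_,
    ?_, ?_⟩
  · intro t ht
    rw [Real.sq_sqrt hE0]
    exact h.energy_le one_pos (hI ht)
  · have h1 : ContinuousOn (fun t => enstrophy (u t)) (Icc 0 T') :=
      h.enstrophy_continuousOn.mono fun t ht => ⟨ht.1, ht.2.trans_lt hTT⟩
    exact (h1.integrableOn_compact isCompact_Icc).mono_set Ioo_subset_Icc_self
  · have h1 : ContinuousOn (fun t => ∫ x in cube, |p t x| ^ (3 / 2 : ℝ)) (Icc 0 T') := by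
      refine (continuousOn_int (T := T) (F := fun t x => |p t x| ^ (3 / 2 : ℝ)) ?_).mono
        fun t ht => ⟨ht.1, ht.2.trans_lt hTT⟩
      exact (h.smooth_p.continuousOn.abs).rpow_const fun x _ => Or.inr (by norm_num)
    exact (h1.integrableOn_compact isCompact_Icc).mono_set Ioo_subset_Icc_self
  · intro φ hφ i
    obtain ⟨a, b, R, ha, hab, hb, hR, h0, h1⟩ := test_supp hφ hT'
    have hφs : ContDiffOn ℝ ∞ (fun z : ℝ × V => φ z.1 z.2) (Ioo 0 T' ×ˢ univ) :=
      hφ.smooth.contDiffOn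
    refine int_zero ha hab hb (F := fun s => ∫ z, u s z i * φ s z)
      (fun t ht => mom_id isOpen_Ioo hsu hsp hdv hmo hφs hR (fun t _ => h1 t) ht i) ?_ ?_ ?_
    · refine pint_cont_c isOpen_Ioo (F := fun t x => md 1 u p φ i t x)
        (md_joint 1 i isOpen_Ioo hsu hsp hφs).continuousOn 0 R fun t ht z hz =>
        md_zero 1 i isOpen_Ioo hφs hR (fun t _ => h1 t) ht hz
    · intro t _ ht
      simp [h0 t ht]
    · intro t _ ht
      obtain ⟨e1, e2⟩ := hzero φ h0 t ht
      unfold DM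
      simp only [e1, e2, lap, adv, hpz]
      simp
  · intro φ hφ _
    obtain ⟨a, b, R, ha, hab, hb, hR, h0, h1⟩ := test_supp hφ hT'
    have hφs : ContDiffOn ℝ ∞ (fun z : ℝ × V => φ z.1 z.2) (Ioo 0 T' ×ˢ univ) :=
      hφ.smooth.contDiffOn
    refine (int_zero ha hab hb (F := fun s => ∫ z, nsq (u s) z * φ s z)
      (fun t ht => en_id isOpen_Ioo hsu hsp hdv hmo hφs hR (fun t _ => h1 t) ht) ?_ ?_ ?_).ge
    · refine ContinuousOn.congr (f := fun t => ∫ x, ed 1 u p φ t x) ?_ fun t ht =>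
        DD_eq 1 isOpen_Ioo hsu hsp hφs hR (fun t _ => h1 t) ht
      exact pint_cont_c isOpen_Ioo (F := fun t x => ed 1 u p φ t x)
        (ed_joint 1 isOpen_Ioo hsu hsp hφs).continuousOn 0 R fun t ht z hz =>
        ed_zero 1 isOpen_Ioo hφs hR (fun t _ => h1 t) ht hz
    · intro t _ ht
      simp [h0 t ht]
    · intro t _ ht
      obtain ⟨e1, e2⟩ := hzero φ h0 t ht
      unfold DD
      simp only [e1, e2, lap, adv, hpz]
      simp

end Pool.Agent.H45.NS
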