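import Pool.Agent.Y8.Stm

/-!
Definitions for the theorem on the number of the bad scales.
-/

set_option autoImplicit false

open MeasureTheory Set Metric
open scoped ContDiff ENNReal

namespace Pool.Agent.H45.NS

open H459R3.NS W221.NS Pool.Agent.Y8

/-- The dissipation `∫∫ |∇u|²` in the backward cylinder `{ν (t - s) < r², s < t, |y - x| < r}`
(over the regular times `s ∈ G`). -/
noncomputable def Diss (ν : ℝ) (G : Set ℝ) (u : ℝ → V → V) (t : ℝ) (x : V) (r : ℝ) : ℝ≥0∞ :=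
  ∫⁻ q in {q : ℝ × V | q.1 ∈ G ∧ q.1 < t ∧ ν * (t - q.1) < r ^ 2 ∧ ‖q.2 - x‖ < r},
    ENNReal.ofReal (gsq (u q.1) q.2)

/-- The bad scales in the window from `k` to `n`: the `i`, `k ≤ i < n`, such that the dissipation in
the backward cylinder of the size `2⁻ⁱ` is more than `ε ν 2⁻ⁱ`. -/
def BadSc (ε ν : ℝ) (G : Set ℝ) (u : ℝ → V → V) (t : ℝ) (x : V) (k n : ℕ) : Set ℕ :=
  {i | k ≤ i ∧ i < n ∧ ENNReal.ofReal (ε * ν * (1 / 2) ^ i) < Diss ν G u t x ((1 / 2) ^ i)}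

/-- Either a suitable weak solution on `(0, T)`, or a smooth solution on `[0, T)` (with
`G = (0, T)`). -/
def WeakOrSmooth (ν T : ℝ) (G : Set ℝ) (u : ℝ → V → V) (p : ℝ → V → ℝ) : Prop :=
  (∃ E D, Turb ν T E D G u p) ∨ (IsSol ν T u p ∧ G = Ioo 0 T)

end Pool.Agent.H45.NS
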