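import Pool.Agent.H45.NS.B10
import Pool.Agent.H45.NS.Stm
import Pool.Agent.N976.TL.Fin2
import Pool.Agent.H45.NS.SolT

/-!
The number of the bad scales for a general viscosity.
-/

set_option autoImplicit false

open MeasureTheory Set Metric
open scoped ContDiff ENNReal

namespace Pool.Agent.H45.NS

open H459R3.NS W221.NS Pool.Agent.Y8 Pool.Agent.N977.H Pool.Agent.N976.TL

theorem BadSc_fin (ε ν : ℝ) (G : Set ℝ) (u : ℝ → V → V) (t : ℝ) (x : V) (k n : ℕ) :
    (BadSc ε ν G u t x k n).Finite :=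
  (Set.finite_Iio n).subset fun _ hi => hi.2.1

theorem diss_set_meas (ν : ℝ) {G : Set ℝ} (hG : IsOpen G) (t : ℝ) (x : V) (r : ℝ) :
    MeasurableSet {q : ℝ × V | q.1 ∈ G ∧ q.1 < t ∧ ν * (t - q.1) < r ^ 2 ∧ ‖q.2 - x‖ < r} := by
  refine (hG.measurableSet.preimage measurable_fst).inter (MeasurableSet.inter ?_
    (MeasurableSet.inter ?_ ?_))
  · exact measurableSet_lt measurable_fst measurable_const
  · exact measurableSet_lt (Continuous.measurable (f := fun q : ℝ × V => ν * (t - q.1))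
      (by fun_prop)) measurable_const
  · exact measurableSet_lt (Continuous.measurable (f := fun q : ℝ × V => ‖q.2 - x‖)
      (by fun_prop)) measurable_const

/-- The dissipation of the rescaled solution. -/
theorem diss_scale {ν T E D : ℝ} {G : Set ℝ} {u : ℝ → V → V} {q : ℝ → V → ℝ} (hν : 0 < ν)
    (hG : IsOpen G) (h1 : Turb 1 T E D {t | t / ν ∈ G} (fun t x => ν⁻¹ • u (t / ν) x) q)
    (i : ℕ) (t : ℝ) (x : V) :
    ∫⁻ q in Cb i (ν * t, x), gG {t | t / ν ∈ G} (fun t x => ν⁻¹ • u (t / ν) x) q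
      = ENNReal.ofReal ν⁻¹ * Diss ν G u t x (rr i) := by
  have hm := gG_meas (u := fun t x => ν⁻¹ • u (t / ν) x) h1.openG h1.smooth_u
  have hCm : MeasurableSet (Cb i (ν * t, x)) := measurableSet_Ioo.prod measurableSet_ball
  have hSm := diss_set_meas ν hG t x (rr i)
  unfold Diss
  rw [← lintegral_indicator hCm, lint_scale hν (hm.indicator hCm), ← lintegral_indicator hSm]
  have e : ∀ q : ℝ × V, (Cb i (ν * t, x)).indicator
      (gG {t | t / ν ∈ G} (fun t x => ν⁻¹ • u (t / ν) x)) (ν * q.1, q.2)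
      = ENNReal.ofReal ((ν⁻¹) ^ 2) * {q : ℝ × V | q.1 ∈ G ∧ q.1 < t ∧ ν * (t - q.1) < rr i ^ 2 ∧
        ‖q.2 - x‖ < rr i}.indicator (fun q => ENNReal.ofReal (gsq (u q.1) q.2)) q := by
    intro q
    have e1 : ν * q.1 / ν = q.1 := by field_simp
    by_cases hq : q ∈ {q : ℝ × V | q.1 ∈ G ∧ q.1 < t ∧ ν * (t - q.1) < rr i ^ 2 ∧
        ‖q.2 - x‖ < rr i}
    · rw [indicator_of_mem hq, indicator_of_mem]
      · unfold gG
        rw [indicator_of_mem]
        · simp only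
          rw [Pool.Agent.Y96.NS.gsq_sm, e1, ENNReal.ofReal_mul (by positivity)]
        · refine ⟨?_, mem_univ _⟩
          show ν * q.1 / ν ∈ G
          rw [e1]
          exact hq.1
      · refine ⟨⟨?_, ?_⟩, ?_⟩
        · have h3 := hq.2.2.1
          simp only
          linarith
        · have h3 := hq.2.1
          simp only
          nlinarith
        · rw [mem_ball, dist_eq_norm]
          exact hq.2.2.2
    · rw [indicator_of_notMem hq, mul_zero]
      by_cases hc : (ν * q.1, q.2) ∈ Cb i (ν * t, x)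
      · rw [indicator_of_mem hc]
        unfold gG
        rw [indicator_of_notMem]
        intro h4
        have h5 : ν * q.1 / ν ∈ G := h4.1
        rw [e1] at h5
        apply hq
        have h6 : ν * q.1 ∈ Ioo (ν * t - rr i ^ 2) (ν * t) := hc.1
        refine ⟨h5, ?_, ?_, ?_⟩
        · exact lt_of_mul_lt_mul_left h6.2 hν.le
        · have := h6.1
          linarith
        · have h6 : q.2 ∈ ball x (rr i) := hc.2
          rwa [mem_ball, dist_eq_norm] at h6
      · rw [indicator_of_notMem hc]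
  simp_rw [e]
  rw [lintegral_const_mul' _ _ ENNReal.ofReal_ne_top, ← mul_assoc,
    ← ENNReal.ofReal_mul hν.le]
  congr 2
  field_simp

theorem sing_sc {ν : ℝ} (hν : 0 < ν) {G : Set ℝ} {u : ℝ → V → V} {t : ℝ} {x : V}
    (hs : SingPt G u t x) : SingPt {t | t / ν ∈ G} (fun t x => ν⁻¹ • u (t / ν) x) (ν * t) x := by
  intro δ hδ B
  obtain ⟨s, hsG, hst, y, hy, hB⟩ := hs (min (δ / ν) δ) (by positivity) (ν * B)
  refine ⟨ν * s, ?_, ?_, y, ?_, ?_⟩
  · show ν * s / ν ∈ G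
    rwa [mul_div_cancel_left₀ s hν.ne']
  · rw [← mul_sub, abs_mul, abs_of_pos hν]
    have h1 := lt_of_lt_of_le hst (min_le_left _ _)
    rw [lt_div_iff₀ hν] at h1
    linarith
  · exact ball_subset_ball (min_le_right _ _) hy
  · show B < ‖ν⁻¹ • u (ν * s / ν) y‖
    rw [mul_div_cancel_left₀ s hν.ne', norm_smul, Real.norm_of_nonneg (inv_pos.2 hν).le,
      ← div_eq_inv_mul, lt_div_iff₀ hν, mul_comm B ν]
    exact hB

/-- The number of the bad scales for a general viscosity. -/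
theorem qsrN (l : ℝ) (hl3 : 1 / 3 < l) (hl1 : l < 1) : ∃ ε K C : ℝ, 0 < ε ∧ 0 < K ∧ 0 < C ∧
    ∀ (ν T E D : ℝ) (G : Set ℝ) (u : ℝ → V → V) (q : ℝ → V → ℝ), 0 < ν → IsOpen G →
    Turb 1 T E D {t | t / ν ∈ G} (fun t x => ν⁻¹ • u (t / ν) x) q →
    ∀ (t₀ : ℝ) (x₀ : V) (k n : ℕ), ν * t₀ ∈ Ioo 0 T → k ≤ n → 2 * rr k ^ 2 < ν * t₀ →
      ∀ A : ℝ, 1 ≤ A → (∀ s ∈ G, s < t₀ → ν * (t₀ - s) < rr k ^ 2 →
        A2 x₀ (rr k * 4) (u s) ≤ A * ν ^ 2 * rr k) →
      (¬ SingPt G u t₀ x₀ ∧ ∀ s ∈ G, s < t₀ → ν * (t₀ - s) < rr (n + 13) ^ 2 →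
        ∀ y ∈ ball x₀ (rr (n + 14)), ‖u s y‖ ≤ C * ν * 2 ^ n) ∨
      (1 - l) * ((n : ℝ) - k) ≤ ((BadSc ε ν G u t₀ x₀ k n).ncard : ℝ)
        + l * (Real.log A / Real.log 2) + K := by
  obtain ⟨ε, K, C, hε, hK, hC, h⟩ := qsrL l hl3 hl1
  refine ⟨ε, K, C, hε, hK, hC, ?_⟩
  intro ν T E D G u q hν hG h1 t₀ x₀ k n ht₀ hkn hkt A hA1 hA
  have hloc : ∀ t ∈ Wb (ν * t₀) k ∩ {t | t / ν ∈ G},
      EE (fun x => ν⁻¹ • u (t / ν) x) x₀ k ≤ A := by
    rintro t ⟨ht, htG⟩
    have e1 : ν * (t / ν) = t := by field_simp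
    have h3 := hA (t / ν) htG (by
      rw [div_lt_iff₀ hν, mul_comm]
      exact ht.2) (by
      rw [mul_sub, e1]
      have := ht.1
      linarith)
    have e2 : A2 x₀ (rr k * 4) (fun x => ν⁻¹ • u (t / ν) x)
        = ν⁻¹ ^ 2 * A2 x₀ (rr k * 4) (u (t / ν)) := by
      unfold A2
      rw [← integral_const_mul]
      exact integral_congr_ae (Filter.Eventually.of_forall fun x =>
        Pool.Agent.Y96.NS.nsq_sm ν⁻¹ (u (t / ν)) x)
    have hr := rr0 k
    unfold EE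
    rw [e2]
    calc (rr k)⁻¹ * (ν⁻¹ ^ 2 * A2 x₀ (rr k * 4) (u (t / ν)))
        ≤ (rr k)⁻¹ * (ν⁻¹ ^ 2 * (A * ν ^ 2 * rr k)) := by gcongr
      _ = A := by field_simp
  rcases h _ _ _ _ _ _ h1 (ν * t₀) x₀ k n ht₀ hkn hkt A hA1 hloc with ⟨h3, h4⟩ | h3
  · left
    refine ⟨fun hs => h3 (sing_sc hν hs), ?_⟩
    intro s hs hst hs2 y hy
    have e1 : ν * s / ν = s := by field_simp
    have h5 := h4 (ν * s) ⟨⟨by linarith, mul_lt_mul_of_pos_left hst hν⟩, by
      show ν * s / ν ∈ G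
      rw [e1]
      exact hs⟩ y hy
    simp only [e1] at h5
    rw [norm_smul, Real.norm_eq_abs, abs_of_pos (inv_pos.2 hν), inv_mul_le_iff₀ hν] at h5
    linarith
  · right
    refine h3.trans ?_
    have h5 : ((Finset.Ico k n).filter (fun i => ε < Th {t | t / ν ∈ G}
        (fun t x => ν⁻¹ • u (t / ν) x) (ν * t₀, x₀) i)).card ≤ (BadSc ε ν G u t₀ x₀ k n).ncard := by
      rw [← Set.ncard_coe_finset]
      apply Set.ncard_le_ncard _ (BadSc_fin _ _ _ _ _ _ _ _)
      intro i hi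
      rw [Finset.mem_coe, Finset.mem_filter, Finset.mem_Ico] at hi
      refine ⟨hi.1.1, hi.1.2, ?_⟩
      have h6 := hi.2
      unfold Th mb at h6
      rw [diss_scale hν hG h1] at h6
      have hr : rr i = (1 / 2) ^ i := rfl
      rw [hr] at h6
      by_contra hcon
      push Not at hcon
      have h7 : ENNReal.ofReal ν⁻¹ * Diss ν G u t₀ x₀ ((1 / 2) ^ i)
          ≤ ENNReal.ofReal (ε * (1 / 2) ^ i) := by
        calc ENNReal.ofReal ν⁻¹ * Diss ν G u t₀ x₀ ((1 / 2) ^ i)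
            ≤ ENNReal.ofReal ν⁻¹ * ENNReal.ofReal (ε * ν * (1 / 2) ^ i) :=
              mul_le_mul_right hcon _
          _ = _ := by
              rw [← ENNReal.ofReal_mul (by positivity)]
              congr 1
              field_simp
      have h8 := ENNReal.toReal_mono ENNReal.ofReal_ne_top h7
      rw [ENNReal.toReal_ofReal (by positivity)] at h8
      have h9 := mul_le_mul_of_nonneg_left h8 (show (0 : ℝ) ≤ 2 ^ i by positivity)
      have e3 : (2 : ℝ) ^ i * (ε * (1 / 2) ^ i) = ε := by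
        have : (2 : ℝ) ^ i * (1 / 2) ^ i = 1 := by
          rw [← mul_pow]
          norm_num
        calc (2 : ℝ) ^ i * (ε * (1 / 2) ^ i) = ε * (2 ^ i * (1 / 2) ^ i) := by ring
          _ = ε := by rw [this, mul_one]
      rw [e3] at h9
      linarith
    have h6 : (((Finset.Ico k n).filter (fun i => ε < Th {t | t / ν ∈ G}
        (fun t x => ν⁻¹ • u (t / ν) x) (ν * t₀, x₀) i)).card : ℝ)
        ≤ ((BadSc ε ν G u t₀ x₀ k n).ncard : ℝ) := by
      exact_mod_cast h5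
    linarith

end Pool.Agent.H45.NS
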