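import Pool.Agent.H45.NS.B11
import Pool.Agent.W930.MD.Scale

/-!
The number of the bad scales up to the end of the interval of time, for weak and smooth solutions.
-/

set_option autoImplicit false

open MeasureTheory Set Metric
open scoped ContDiff ENNReal

namespace Pool.Agent.H45.NS

open H459R3.NS W221.NS Pool.Agent.Y8 Pool.Agent.N977.H Pool.Agent.N976.TL

theorem Diss_congr {ν : ℝ} {G G' : Set ℝ} {u : ℝ → V → V} {t : ℝ}
    (h : ∀ s, s < t → (s ∈ G ↔ s ∈ G')) (x : V) (r : ℝ) :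
    Diss ν G u t x r = Diss ν G' u t x r := by
  have e : {q : ℝ × V | q.1 ∈ G ∧ q.1 < t ∧ ν * (t - q.1) < r ^ 2 ∧ ‖q.2 - x‖ < r}
      = {q : ℝ × V | q.1 ∈ G' ∧ q.1 < t ∧ ν * (t - q.1) < r ^ 2 ∧ ‖q.2 - x‖ < r} := by
    ext q
    constructor
    · rintro ⟨h1, h2, h3⟩
      exact ⟨(h _ h2).1 h1, h2, h3⟩
    · rintro ⟨h1, h2, h3⟩
      exact ⟨(h _ h2).2 h1, h2, h3⟩
  unfold Diss
  rw [e]

/-- The local form of both kinds of solutions. -/
theorem wos_turb {ν T : ℝ} {G : Set ℝ} {u : ℝ → V → V} {p : ℝ → V → ℝ} (hν : 0 < ν)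
    (h : WeakOrSmooth ν T G u p) {t : ℝ} (ht : t ∈ Ioo 0 T) :
    ∃ (G' : Set ℝ) (T₁ E D t₁ : ℝ) (q : ℝ → V → ℝ), IsOpen G' ∧ t < t₁ ∧
      (∀ s, s < t₁ → (s ∈ G ↔ s ∈ G')) ∧
      Turb 1 T₁ E D {t | t / ν ∈ G'} (fun t x => ν⁻¹ • u (t / ν) x) q ∧ ν * t ∈ Ioo 0 T₁ := by
  rcases h with ⟨E, D, h⟩ | ⟨h, hG⟩
  · exact ⟨G, ν * T, E / ν, D / ν, T, _, h.openG, ht.2, fun s _ => Iff.rfl,
      (Pool.Agent.Y96.NS.t_WSCAL ν T E D G u p hν h).1, mul_pos hν ht.1,
      mul_lt_mul_of_pos_left ht.2 hν⟩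
  · have hT : 0 < T := ht.1.trans ht.2
    obtain ⟨t₁, h1, h2⟩ := exists_between ht.2
    have h01 : 0 < t₁ := ht.1.trans h1
    have h3 := turb_of_sol (Pool.Agent.W930.MD.t_SCALE ν T u p hν hT h) (mul_pos hν h01)
      (mul_lt_mul_of_pos_left h2 hν)
    have e : {t | t / ν ∈ Ioo 0 t₁} = Ioo 0 (ν * t₁) := by
      ext s
      simp only [Set.mem_ofPred_eq, mem_Ioo]
      rw [div_pos_iff_of_pos_right hν, div_lt_iff₀ hν, mul_comm t₁ ν]
    refine ⟨Ioo 0 t₁, _, _, _, t₁, _, isOpen_Ioo, h1, ?_, by rw [e]; exact h3,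
      mul_pos hν ht.1, mul_lt_mul_of_pos_left h1 hν⟩
    intro s hs
    rw [hG]
    exact ⟨fun h => ⟨h.1, hs⟩, fun h => ⟨h.1, h.2.trans h2⟩⟩

theorem wos_sub {ν T : ℝ} {G : Set ℝ} {u : ℝ → V → V} {p : ℝ → V → ℝ}
    (h : WeakOrSmooth ν T G u p) : G ⊆ Ioo 0 T := by
  rcases h with ⟨E, D, h⟩ | ⟨-, hG⟩
  · exact h.subG
  · rw [hG]

theorem wos_A2_mono {ν T : ℝ} {G : Set ℝ} {u : ℝ → V → V} {p : ℝ → V → ℝ}
    (h : WeakOrSmooth ν T G u p) {s : ℝ} (hs : s ∈ G) (x : V) {a b : ℝ} (hab : a ≤ b) :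
    A2 x a (u s) ≤ A2 x b (u s) := by
  have hc : ContDiff ℝ ∞ (u s) := by
    rcases h with ⟨E, D, h⟩ | ⟨h, hG⟩
    · exact sl_sm h.smooth_u hs
    · rw [hG] at hs
      exact sl_sm (h.smooth_u.mono (prod_mono Ioo_subset_Ico_self subset_rfl)) hs
  unfold A2
  exact setIntegral_mono_set (ballint (nsq_sm hc).continuous _ _)
    (Filter.Eventually.of_forall fun z => nsq_nn _ z) (ball_subset_ball hab).eventuallyLE

theorem BadSc_mono {ε ε' ν : ℝ} (hν : 0 < ν) (h : ε' ≤ ε) (G : Set ℝ) (u : ℝ → V → V) (t : ℝ)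
    (x : V) (k n : ℕ) : (BadSc ε ν G u t x k n).ncard ≤ (BadSc ε' ν G u t x k n).ncard := by
  apply Set.ncard_le_ncard _ (BadSc_fin _ _ _ _ _ _ _ _)
  rintro i ⟨h1, h2, h3⟩
  refine ⟨h1, h2, lt_of_le_of_lt (ENNReal.ofReal_le_ofReal ?_) h3⟩
  gcongr

/-- Inner times. -/
theorem qsrI (l : ℝ) (hl3 : 1 / 3 < l) (hl1 : l < 1) : ∃ ε K C : ℝ, 0 < ε ∧ 0 < K ∧ 0 < C ∧
    ∀ (ν T : ℝ) (G : Set ℝ) (u : ℝ → V → V) (p : ℝ → V → ℝ), 0 < ν → WeakOrSmooth ν T G u p →
    ∀ (t₀ : ℝ) (x₀ : V) (k n : ℕ), t₀ ∈ Ioo 0 T → k ≤ n → 2 * rr k ^ 2 < ν * t₀ →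
      ∀ A : ℝ, 1 ≤ A → (∀ s ∈ G, s < t₀ → ν * (t₀ - s) < rr k ^ 2 →
        A2 x₀ (rr k * 4) (u s) ≤ A * ν ^ 2 * rr k) →
      (¬ SingPt G u t₀ x₀ ∧ ∀ s ∈ G, s < t₀ → ν * (t₀ - s) < rr (n + 13) ^ 2 →
        ∀ y ∈ ball x₀ (rr (n + 14)), ‖u s y‖ ≤ C * ν * 2 ^ n) ∨
      (1 - l) * ((n : ℝ) - k) ≤ ((BadSc ε ν G u t₀ x₀ k n).ncard : ℝ)
        + l * (Real.log A / Real.log 2) + K := by
  obtain ⟨ε, K, C, hε, hK, hC, h⟩ := qsrN l hl3 hl1
  refine ⟨ε, K, C, hε, hK, hC, ?_⟩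
  intro ν T G u p hν hN t₀ x₀ k n ht₀ hkn hkt A hA1 hA
  obtain ⟨G', T₁, E, D, t₁, q, hG', ht₁, hGG, hT, hνt⟩ := wos_turb hν hN ht₀
  have hB : BadSc ε ν G' u t₀ x₀ k n = BadSc ε ν G u t₀ x₀ k n := by
    ext i
    unfold BadSc
    rw [Set.mem_ofPred_eq, Set.mem_ofPred_eq,
      Diss_congr (fun s hs => (hGG s (hs.trans ht₁)).symm) x₀ ((1 / 2) ^ i)]
  rcases h ν T₁ E D G' u q hν hG' hT t₀ x₀ k n hνt hkn hkt A hA1
    (fun s hs hst => hA s ((hGG s (hst.trans ht₁)).2 hs) hst) with ⟨h1, h2⟩ | h1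
  · left
    refine ⟨fun hs => h1 ?_, fun s hs hst => h2 s ((hGG s (hst.trans ht₁)).1 hs) hst⟩
    intro δ hδ B
    obtain ⟨s, hsG, hst, y, hy, hyB⟩ := hs (min δ (t₁ - t₀)) (lt_min hδ (by linarith)) B
    have h3 := (abs_lt.1 (lt_of_lt_of_le hst (min_le_right _ _))).2
    exact ⟨s, (hGG s (by linarith)).1 hsG, lt_of_lt_of_le hst (min_le_left _ _), y,
      ball_subset_ball (min_le_left _ _) hy, hyB⟩
  · right
    rwa [hB] at h1

/-- All times up to the end. -/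
theorem qsrF (l : ℝ) (hl3 : 1 / 3 < l) (hl1 : l < 1) : ∃ ε K : ℝ, 0 < ε ∧ 0 < K ∧
    ∀ (ν T : ℝ) (G : Set ℝ) (u : ℝ → V → V) (p : ℝ → V → ℝ), 0 < ν → WeakOrSmooth ν T G u p →
    ∀ (t₀ : ℝ) (x₀ : V) (k n : ℕ), 0 < t₀ → t₀ ≤ T → k ≤ n → 2 * rr k ^ 2 < ν * t₀ →
      ∀ A : ℝ, 1 ≤ A → (∀ s ∈ G, s < t₀ → ν * (t₀ - s) < rr k ^ 2 →
        A2 x₀ (rr k * 4) (u s) ≤ A * ν ^ 2 * rr k) →
      (¬ SingPt G u t₀ x₀ ∧ ∀ s ∈ G, s < t₀ → K * ν * (t₀ - s) * 4 ^ n < 1 →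
        ∀ y, K * ‖y - x₀‖ * 2 ^ n < 1 → ‖u s y‖ ≤ K * ν * 2 ^ n) ∨
      (1 - l) * ((n : ℝ) - k) ≤ ((BadSc ε ν G u t₀ x₀ k n).ncard : ℝ)
        + l * (Real.log A / Real.log 2) + K := by
  obtain ⟨ε, K, C, hε, hK, hC, h⟩ := qsrI l hl3 hl1
  refine ⟨ε / 2, K + 1 + 2 * C + 4 ^ 14, by positivity, by positivity, ?_⟩
  intro ν T G u p hν hN t₀ x₀ k n ht0 htT hkn hkt A hA1 hA
  have hGs := wos_sub hN
  have hlog2 : 0 < Real.log 2 := Real.log_pos (by norm_num)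
  have hK0 : 0 < K + 1 + 2 * C + 4 ^ 14 := by positivity
  have h2n : (0 : ℝ) < 2 ^ n := by positivity
  have h4n : (0 : ℝ) < 4 ^ n := by positivity
  have hrn : rr n = (2 ^ n)⁻¹ := by
    unfold rr
    rw [one_div, inv_pow]
  have hrn2 : rr n ^ 2 = (4 ^ n)⁻¹ := by
    rw [hrn, inv_pow, ← pow_mul, mul_comm, pow_mul]
    norm_num
  -- the time and the space conditions
  have htime : ∀ s, (K + 1 + 2 * C + 4 ^ 14) * ν * (t₀ - s) * 4 ^ n < 1 → s < t₀ →
      ν * (t₀ - s) < rr (n + 14) ^ 2 := by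
    intro s hs hst
    have e : rr (n + 14) ^ 2 = rr n ^ 2 * (4 ^ 14)⁻¹ := by
      unfold rr
      rw [pow_add, mul_pow]
      norm_num
    have h0 : 0 < ν * (t₀ - s) := mul_pos hν (by linarith)
    rw [e, hrn2, ← mul_inv, ← one_div, lt_div_iff₀ (by positivity)]
    calc ν * (t₀ - s) * (4 ^ n * 4 ^ 14) = 4 ^ 14 * ν * (t₀ - s) * 4 ^ n := by ring
      _ ≤ (K + 1 + 2 * C + 4 ^ 14) * ν * (t₀ - s) * 4 ^ n := by
          rw [mul_assoc _ ν, mul_assoc _ ν]
          gcongr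
          have : 0 < K + 1 + 2 * C := by positivity
          linarith
      _ < 1 := hs
  have hspace : ∀ y, (K + 1 + 2 * C + 4 ^ 14) * ‖y - x₀‖ * 2 ^ n < 1 → y ∈ ball x₀ (rr (n + 15)) := by
    intro y hy
    rw [mem_ball, dist_eq_norm]
    have e : rr (n + 15) = rr n * (2 ^ 15)⁻¹ := by
      unfold rr
      rw [pow_add]
      norm_num
    rw [e, hrn, ← mul_inv, ← one_div, lt_div_iff₀ (by positivity)]
    have hn0 := norm_nonneg (y - x₀)
    calc ‖y - x₀‖ * (2 ^ n * 2 ^ 15) = 2 ^ 15 * ‖y - x₀‖ * 2 ^ n := by ring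
      _ ≤ (K + 1 + 2 * C + 4 ^ 14) * ‖y - x₀‖ * 2 ^ n := by
          gcongr
          have : 0 < K + 1 + 2 * C := by positivity
          norm_num
          linarith
      _ < 1 := hy
  rcases lt_or_eq_of_le htT with htT | htT
  · -- inner times
    rcases h ν T G u p hν hN t₀ x₀ k n ⟨ht0, htT⟩ hkn hkt A hA1 hA with ⟨h1, h2⟩ | h1
    · left
      refine ⟨h1, fun s hs hst h3 y hy => ?_⟩
      have h4 := h2 s hs hst ((htime s h3 hst).trans_le
        (pow_le_pow_left₀ (rr0 _).le (rr_anti (by omega)) 2)) y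
        (ball_subset_ball (rr_anti (by omega)) (hspace y hy))
      refine h4.trans ?_
      gcongr
      have : 0 < K + 1 + 4 ^ 14 := by positivity
      linarith
    · right
      have h2 : ((BadSc ε ν G u t₀ x₀ k n).ncard : ℝ)
          ≤ ((BadSc (ε / 2) ν G u t₀ x₀ k n).ncard : ℝ) := by
        exact_mod_cast BadSc_mono hν (by linarith) G u t₀ x₀ k n
      have : (0 : ℝ) < 1 + 2 * C + 4 ^ 14 := by positivity
      linarith
  · -- the end
    by_cases hex : ∃ t ∈ Ioo 0 T, t₀ / 4 < t ∧ ν * (t₀ - t) < 3 * rr (n + 1) ^ 2 ∧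
        (1 - l) * (((n + 1 : ℕ) : ℝ) - (k + 1 : ℕ))
          ≤ ((BadSc ε ν G u t x₀ (k + 1) (n + 1)).ncard : ℝ)
            + l * (Real.log (2 * A) / Real.log 2) + K
    · right
      obtain ⟨t, ht, -, ht2, h1⟩ := hex
      have h2 : (BadSc ε ν G u t x₀ (k + 1) (n + 1)).ncard
          ≤ (BadSc (ε / 2) ν G u t₀ x₀ k n).ncard := by
        refine Set.ncard_le_ncard_of_injOn (fun i => i - 1) ?_ ?_ (BadSc_fin _ _ _ _ _ _ _ _)
        · rintro i ⟨hi1, hi2, hi3⟩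
          obtain ⟨j, rfl⟩ : ∃ j, i = j + 1 := ⟨i - 1, by omega⟩
          refine ⟨by simp; omega, by simp; omega, ?_⟩
          simp only [Nat.add_sub_cancel]
          have e1 : ε / 2 * ν * (1 / 2) ^ j = ε * ν * (1 / 2) ^ (j + 1) := by
            rw [pow_succ]
            ring
          rw [e1]
          refine hi3.trans_le (lintegral_mono_set ?_)
          rintro q ⟨hq1, hq2, hq3, hq4⟩
          have h5 : rr (n + 1) ^ 2 ≤ rr (j + 1) ^ 2 :=
            pow_le_pow_left₀ (rr0 _).le (rr_anti (by omega)) 2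
          have e2 : ((1 : ℝ) / 2) ^ (j + 1) = rr (j + 1) := rfl
          have e3 : ((1 : ℝ) / 2) ^ j = 2 * rr (j + 1) := by
            unfold rr
            rw [pow_succ]
            ring
          rw [e2] at hq3 hq4
          refine ⟨hq1, hq2.trans (by rw [htT]; exact ht.2), ?_, ?_⟩
          · rw [e3, mul_pow]
            nlinarith
          · rw [e3]
            have := rr0 (j + 1)
            linarith
        · rintro i ⟨hi1, _, _⟩ j ⟨hj1, _, _⟩ hij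
          simp only at hij
          omega
      have h3 : ((BadSc ε ν G u t x₀ (k + 1) (n + 1)).ncard : ℝ)
          ≤ ((BadSc (ε / 2) ν G u t₀ x₀ k n).ncard : ℝ) := by exact_mod_cast h2
      have e4 : Real.log (2 * A) / Real.log 2 = 1 + Real.log A / Real.log 2 := by
        rw [Real.log_mul (by norm_num) (by linarith)]
        field_simp
      rw [e4] at h1
      push_cast at h1
      have : (0 : ℝ) < 2 * C + 4 ^ 14 := by positivity
      linarith
    · left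
      push Not at hex
      have hr1 := rr0 (n + 1)
      -- the bound
      have hbd : ∀ s ∈ G, s < t₀ → ν * (t₀ - s) < rr (n + 14) ^ 2 →
          ∀ y ∈ ball x₀ (rr (n + 15)), ‖u s y‖ ≤ C * ν * 2 ^ (n + 1) := by
        intro s hs hst hs2 y hy
        have h0 : ∃ t, t₀ / 4 < t ∧ s < t ∧ t < t₀ ∧ ν * (t₀ - t) < 3 * rr (n + 1) ^ 2 := by
          have h6 : max (max (t₀ / 4) s) (t₀ - rr (n + 1) ^ 2 / ν) < t₀ := by
            refine max_lt (max_lt (by linarith) hst) ?_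
            have : 0 < rr (n + 1) ^ 2 / ν := by positivity
            linarith
          obtain ⟨t, ht1, ht2⟩ := exists_between h6
          refine ⟨t, ((le_max_left _ _).trans (le_max_left _ _)).trans_lt ht1,
            ((le_max_right _ _).trans (le_max_left _ _)).trans_lt ht1, ht2, ?_⟩
          have h7 := (le_max_right _ _).trans_lt ht1
          have h8 : t₀ - t < rr (n + 1) ^ 2 / ν := by linarith
          rw [lt_div_iff₀ hν] at h8
          have : 0 < rr (n + 1) ^ 2 := by positivity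
          linarith
        obtain ⟨t, ht1, hst', ht2, ht3⟩ := h0
        have htI : t ∈ Ioo 0 T := ⟨by linarith, by rw [← htT]; exact ht2⟩
        have hk1 : rr (k + 1) ^ 2 = rr k ^ 2 / 4 := by
          unfold rr
          rw [pow_succ]
          ring
        have hk2 : rr (n + 1) ^ 2 ≤ rr (k + 1) ^ 2 :=
          pow_le_pow_left₀ (rr0 _).le (rr_anti (by omega)) 2
        rcases h ν T G u p hν hN t x₀ (k + 1) (n + 1) htI (by omega) (by
            rw [hk1]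
            have := mul_lt_mul_of_pos_left ht1 hν
            linarith) (2 * A) (by linarith) (by
            intro s' hs' hst2 hs3
            have e5 : rr (k + 1) * 4 ≤ rr k * 4 := by
              have := rr_anti (Nat.le_succ k)
              linarith
            refine (wos_A2_mono hN hs' x₀ e5).trans ?_
            have e6 : 2 * A * ν ^ 2 * rr (k + 1) = A * ν ^ 2 * rr k := by
              unfold rr
              rw [pow_succ]
              ring
            rw [e6]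
            exact hA s' hs' (hst2.trans ht2) (by linarith)) with ⟨_, h2⟩ | h1
        · refine h2 s hs hst' ?_ y hy
          have : ν * (t - s) < ν * (t₀ - s) := mul_lt_mul_of_pos_left (by linarith) hν
          exact this.trans hs2
        · exact absurd h1 (not_le.2 (hex t htI ht1 ht3))
      refine ⟨?_, ?_⟩
      · intro hs
        obtain ⟨s, hsG, hst, y, hy, hyB⟩ := hs (min (rr (n + 14) ^ 2 / ν) (rr (n + 15)))
          (lt_min (div_pos (pow_pos (rr0 _) 2) hν) (rr0 _)) (C * ν * 2 ^ (n + 1))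
        have hsT : s < t₀ := by rw [htT]; exact (hGs hsG).2
        have h3 := (abs_lt.1 (lt_of_lt_of_le hst (min_le_left _ _))).1
        have h4 : t₀ - s < rr (n + 14) ^ 2 / ν := by linarith
        rw [lt_div_iff₀ hν] at h4
        exact absurd (hbd s hsG hsT (by linarith) y (ball_subset_ball (min_le_right _ _) hy))
          (not_le.2 hyB)
      · intro s hs hst h3 y hy
        refine (hbd s hs hst (htime s h3 hst) y (hspace y hy)).trans ?_
        calc C * ν * 2 ^ (n + 1) = 2 * C * ν * 2 ^ n := by ring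
          _ ≤ _ := by
              gcongr
              have : 0 < K + 1 + 4 ^ 14 := by positivity
              linarith

end Pool.Agent.H45.NS
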