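import Pool.Agent.H45.NS.B4

/-!
Backward cylinders: the recursions with the product of the energy and the dissipation.
-/

set_option autoImplicit false

open MeasureTheory Set Metric
open scoped ContDiff ENNReal

namespace Pool.Agent.H45.NS

open H459R3.NS W221.NS Pool.Agent.Y8 Pool.Agent.N977.H Pool.Agent.N976.TL

lemma sqrt_add_le' {a b : ℝ} (ha : 0 ≤ a) (hb : 0 ≤ b) : √(a + b) ≤ √a + √b := by
  apply Real.sqrt_le_iff.2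
  refine ⟨by positivity, ?_⟩
  have h1 := Real.sq_sqrt ha
  have h2 := Real.sq_sqrt hb
  have h3 : 0 ≤ √a * √b := by positivity
  nlinarith

/-- The inequality between the numbers. -/
lemma num3 {C₂ C₃ A b b' A' X e : ℝ} {m : ℕ} (h2 : 0 < C₂) (h3 : 0 < C₃) (hA : 0 ≤ A) (hb : 0 ≤ b)
    (hb' : 0 ≤ b') (hX : 0 ≤ X) (hAX : A ≤ X) (hbX : b ≤ √X) (he : 0 < e)
    (h4 : A' ≤ C₃ * (2 ^ m * (C₂ * ((1 + √X) * e + e ^ 2)) + A / 16 ^ m))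
    (h5 : b' ≤ b / 2 ^ m + C₃ * (√(2 ^ m * (C₂ * ((1 + √X) * e + e ^ 2))) + √A / 2 ^ m)) :
    b' ^ 2 + A' ≤ (4 + 3 * C₃ ^ 2 + C₃) / 4 ^ m * X + ((3 * C₃ ^ 2 + C₃) * 2 ^ m * C₂)
      * ((1 + √X) * e + e ^ 2) := by
  have hf : 0 ≤ 2 ^ m * (C₂ * ((1 + √X) * e + e ^ 2)) := by positivity
  obtain ⟨F, hF⟩ : ∃ F, F = 2 ^ m * (C₂ * ((1 + √X) * e + e ^ 2)) := ⟨_, rfl⟩
  rw [← hF] at h4 h5 hf
  have hp4 : (0:ℝ) < 4 ^ m := by positivity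
  have h42 : (4:ℝ) ^ m = (2 ^ m) ^ 2 := by rw [← pow_mul, mul_comm, pow_mul]; norm_num
  have h164 : (4:ℝ) ^ m ≤ 16 ^ m := pow_le_pow_left₀ (by norm_num) (by norm_num) m
  -- the square
  have h6 : b' ^ 2 ≤ 3 * (X / 4 ^ m + C₃ ^ 2 * F + C₃ ^ 2 * (X / 4 ^ m)) := by
    have e1 : b' ^ 2 ≤ (b / 2 ^ m + C₃ * √F + C₃ * (√A / 2 ^ m)) ^ 2 :=
      pow_le_pow_left₀ hb' (h5.trans (le_of_eq (by ring))) 2
    refine e1.trans ((A4.sq3 _ _ _).trans ?_)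
    have e2 : (b / 2 ^ m) ^ 2 ≤ X / 4 ^ m := by
      rw [div_pow, ← h42]
      refine div_le_div_of_nonneg_right ?_ hp4.le
      calc b ^ 2 ≤ √X ^ 2 := pow_le_pow_left₀ hb hbX 2
        _ = X := Real.sq_sqrt hX
    have e3 : (C₃ * √F) ^ 2 = C₃ ^ 2 * F := by rw [mul_pow, Real.sq_sqrt hf]
    have e4 : (C₃ * (√A / 2 ^ m)) ^ 2 ≤ C₃ ^ 2 * (X / 4 ^ m) := by
      rw [mul_pow, div_pow, Real.sq_sqrt hA, ← h42]
      exact mul_le_mul_of_nonneg_left (div_le_div_of_nonneg_right hAX hp4.le) (sq_nonneg _)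
    rw [e3]
    linarith
  have h7 : A' ≤ C₃ * F + C₃ * (X / 4 ^ m) := by
    have e1 : A / 16 ^ m ≤ X / 4 ^ m :=
      (div_le_div_of_nonneg_right hAX (by positivity)).trans
        (div_le_div_of_nonneg_left hX hp4 h164)
    have e2 := mul_le_mul_of_nonneg_left e1 h3.le
    linarith
  have h9 : (4 + 3 * C₃ ^ 2 + C₃) / 4 ^ m * X =
      X / 4 ^ m + 3 * (X / 4 ^ m) + 3 * (C₃ ^ 2 * (X / 4 ^ m)) + C₃ * (X / 4 ^ m) := by ring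
  have h10 : (3 * C₃ ^ 2 + C₃) * 2 ^ m * C₂ * ((1 + √X) * e + e ^ 2)
      = (3 * C₃ ^ 2 + C₃) * F := by rw [hF]; ring
  rw [h9, h10]
  have h11 : 0 ≤ X / 4 ^ m := by positivity
  nlinarith

/-- The recursion for the energy. -/
theorem recX : ∃ P : ℝ, 1 ≤ P ∧ ∀ m : ℕ, 3 ≤ m → ∃ C : ℝ, 0 < C ∧
  ∀ (T E D : ℝ) (G : Set ℝ) (u : ℝ → V → V) (p : ℝ → V → ℝ), Turb 1 T E D G u p →
  ∀ (t₀ : ℝ) (x₀ y : V) (i : ℕ) (e Z : ℝ), LvB T G u t₀ x₀ y i e → 0 ≤ Z →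
  (∀ t ∈ Wb t₀ i ∩ G, EE (u t) x₀ i ≤ Z) →
    ∀ t ∈ Wb t₀ (i + m) ∩ G, EE (u t) x₀ (i + m) ≤ P / 4 ^ m * Z + C * (e * √Z + e + e ^ 2) := by
  obtain ⟨C₂, h2, H2⟩ := lvlB
  obtain ⟨C₃, h3, H3⟩ := t_A3 C₂ h2
  obtain ⟨Q, hQ, hXE⟩ := XX_EE
  refine ⟨3074 * ((4 + 3 * C₃ ^ 2 + C₃) * Q), ?_, ?_⟩
  · have e1 : 1 ≤ 4 + 3 * C₃ ^ 2 + C₃ := by nlinarith [sq_nonneg C₃]
    have e2 := one_le_mul_of_one_le_of_one_le e1 hQ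
    linarith
  intro m hm3
  obtain ⟨K, hK⟩ : ∃ K, K = (3 * C₃ ^ 2 + C₃) * 2 ^ m * C₂ := ⟨_, rfl⟩
  have hK0 : 0 < K := by rw [hK]; positivity
  have hQ0 : 0 < Q := by linarith
  refine ⟨3074 * (K * √Q), by positivity, ?_⟩
  intro T E D G u p hN t₀ x₀ y i e Z hL hZ hZZ
  obtain ⟨X, hXd⟩ : ∃ X, X = Q * Z := ⟨_, rfl⟩
  have hX : 0 ≤ X := by rw [hXd]; positivity
  have hXX : ∀ t ∈ Wb t₀ i ∩ G, XX (u t) x₀ i ≤ X := fun t ht => by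
    rw [hXd]
    exact (hXE (u t) (hN.spv ht.2).1 x₀ i).trans
      (mul_le_mul_of_nonneg_left (hZZ t ht) (by linarith))
  have he := hL.e0
  have hr := rr0 i
  have hmo : ∀ t ∈ Wb t₀ i ∩ G, rr i * ‖mo (rr i) (u t) x₀‖ ≤ √X := by
    intro t ht
    have h4 := hXX t ht
    unfold XX at h4
    have h5 := A4.A2_nonneg 0 4 (Y7.fr (rr i) (u t) x₀)
    exact Real.le_sqrt_of_sq_le (by linarith)
  have hA : ∀ t ∈ Wb t₀ i ∩ G, A2 0 4 (Y7.fr (rr i) (u t) x₀) ≤ X := by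
    intro t ht
    have h4 := hXX t ht
    unfold XX at h4
    have h5 := sq_nonneg (rr i * ‖mo (rr i) (u t) x₀‖)
    linarith
  obtain ⟨-, hD⟩ := H2 T E D G u p hN t₀ x₀ y i (√X) e hL (Real.sqrt_nonneg _) hmo
  intro t ht
  have ht1 : t ∈ Wb t₀ (i + 1) ∩ G := ⟨Wb_mono (by omega) ht.1, ht.2⟩
  have ht0 : t ∈ Wb t₀ i ∩ G := ⟨Wb_mono (by omega) ht.1, ht.2⟩
  have hsm := (hN.spv ht.2).1
  have h4 := H3 (u t) hsm i m x₀ (C₂ * ((1 + √X) * e + e ^ 2)) hm3 (by positivity)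
    (hD t ht1)
  have h5 := num3 h2 h3 (A4.A2_nonneg 0 4 (Y7.fr (rr i) (u t) x₀))
    (mul_nonneg hr.le (norm_nonneg (mo (rr i) (u t) x₀)))
    (mul_nonneg (rr0 (i + m)).le (norm_nonneg (mo (rr (i + m)) (u t) x₀))) hX (hA t ht0)
    (hmo t ht0) he h4.1 h4.2
  rw [← hK] at h5
  have h6 : XX (u t) x₀ (i + m)
      ≤ (4 + 3 * C₃ ^ 2 + C₃) / 4 ^ m * X + K * ((1 + √X) * e + e ^ 2) := h5
  have h7 : (1 + √X) * e + e ^ 2 ≤ √Q * (e * √Z + e + e ^ 2) := by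
    have e1 : √X = √Q * √Z := by rw [hXd, Real.sqrt_mul hQ0.le]
    have e2 : 1 ≤ √Q := Real.one_le_sqrt.2 hQ
    rw [e1]
    have e3 : 0 ≤ (√Q - 1) * (e + e ^ 2) := by
      have : 0 ≤ √Q - 1 := by linarith
      positivity
    nlinarith
  calc EE (u t) x₀ (i + m) ≤ 3074 * XX (u t) x₀ (i + m) := EE_XX hsm x₀ (i + m)
    _ ≤ 3074 * ((4 + 3 * C₃ ^ 2 + C₃) / 4 ^ m * X + K * (√Q * (e * √Z + e + e ^ 2))) := by
        gcongr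
        exact h6.trans (by gcongr)
    _ = _ := by
        rw [hXd]
        ring

/-- The velocity and its oscillation. -/
noncomputable def YY (K : ℝ) (w : V → V) (x : V) (i : ℕ) : ℝ :=
  rr i * ‖mo (rr i) w x‖ + K * √(A2 0 4 (Y7.fr (rr i) w x))

lemma YY_nonneg {K : ℝ} (hK : 0 ≤ K) (w : V → V) (x : V) (i : ℕ) : 0 ≤ YY K w x i :=
  add_nonneg (mul_nonneg (rr0 i).le (norm_nonneg _)) (mul_nonneg hK (Real.sqrt_nonneg _))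

/-- The comparison with the energy. -/
lemma YY_EE {K : ℝ} (hK : 0 < K) : ∃ C : ℝ, 0 < C ∧ ∀ w : V → V, ContDiff ℝ ∞ w →
    ∀ (x : V) (i : ℕ), YY K w x i ^ 2 ≤ C * EE w x i ∧ EE w x i ≤ C * YY K w x i ^ 2 := by
  obtain ⟨Q, hQ, hXE⟩ := XX_EE
  refine ⟨2 * (1 + K ^ 2) * Q + 3074 * (1 + (K ^ 2)⁻¹), by positivity, fun w hw x i => ?_⟩
  have hE := EE_nonneg w x i
  have h1 := hXE w hw x i
  have h2 := EE_XX hw x i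
  unfold XX at h1 h2
  obtain ⟨b, hb⟩ : ∃ b, b = rr i * ‖mo (rr i) w x‖ := ⟨_, rfl⟩
  obtain ⟨A, hA⟩ : ∃ A, A = A2 0 4 (Y7.fr (rr i) w x) := ⟨_, rfl⟩
  have hA0 : 0 ≤ A := by rw [hA]; exact A4.A2_nonneg _ _ _
  have hb0 : 0 ≤ b := by rw [hb]; exact mul_nonneg (rr0 i).le (norm_nonneg _)
  have hs := Real.sq_sqrt hA0
  have hs0 := Real.sqrt_nonneg A
  unfold YY
  rw [← hb, ← hA] at h1 h2 ⊢
  have hK2 : 0 < K ^ 2 := by positivity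
  have hKi : K ^ 2 * (K ^ 2)⁻¹ = 1 := mul_inv_cancel₀ hK2.ne'
  constructor
  · have h3 : (b + K * √A) ^ 2 ≤ 2 * (1 + K ^ 2) * (b ^ 2 + A) := by
      have e1 : (b + K * √A) ^ 2 ≤ 2 * (b ^ 2 + K ^ 2 * A) := by
        have g : (K * √A) ^ 2 = K ^ 2 * A := by rw [mul_pow, hs]
        nlinarith [sq_nonneg (b - K * √A), g]
      nlinarith [mul_nonneg hK2.le (sq_nonneg b)]
    have h4 : 2 * (1 + K ^ 2) * (b ^ 2 + A) ≤ 2 * (1 + K ^ 2) * (Q * EE w x i) := by gcongr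
    have h5 : 0 ≤ 3074 * (1 + (K ^ 2)⁻¹) * EE w x i := by positivity
    nlinarith
  · have h3 : b ^ 2 + A ≤ (1 + (K ^ 2)⁻¹) * (b + K * √A) ^ 2 := by
      have e1 : b ^ 2 ≤ (b + K * √A) ^ 2 := by
        apply pow_le_pow_left₀ hb0
        have : 0 ≤ K * √A := by positivity
        linarith
      have e2 : K ^ 2 * A ≤ (b + K * √A) ^ 2 := by
        calc K ^ 2 * A = (K * √A) ^ 2 := by rw [mul_pow, hs]
          _ ≤ (b + K * √A) ^ 2 := by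
              apply pow_le_pow_left₀ (by positivity)
              linarith
      have e3 : A ≤ (K ^ 2)⁻¹ * (b + K * √A) ^ 2 := by
        rw [← div_eq_inv_mul, le_div_iff₀ hK2]
        linarith
      linarith
    have h4 : 3074 * (b ^ 2 + A) ≤ 3074 * ((1 + (K ^ 2)⁻¹) * (b + K * √A) ^ 2) := by gcongr
    have h5 : 0 ≤ 2 * (1 + K ^ 2) * Q * (b + K * √A) ^ 2 := by positivity
    nlinarith

/-- The recursion with the exact rate. -/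
theorem recY : ∃ (m : ℕ) (K C : ℝ), 3 ≤ m ∧ 0 < K ∧ 0 < C ∧
  ∀ (T E D : ℝ) (G : Set ℝ) (u : ℝ → V → V) (p : ℝ → V → ℝ), Turb 1 T E D G u p →
  ∀ (t₀ : ℝ) (x₀ y : V) (i : ℕ) (e Z : ℝ), LvB T G u t₀ x₀ y i e → 0 ≤ Z →
  (∀ t ∈ Wb t₀ i ∩ G, YY K (u t) x₀ i ≤ Z) →
    ∀ t ∈ Wb t₀ (i + m) ∩ G, YY K (u t) x₀ (i + m) ≤ Z / 2 ^ m + C * √((1 + Z) * e + e ^ 2) := by
  obtain ⟨C₂, h2, H2⟩ := lvlB
  obtain ⟨C₃, h3, H3⟩ := t_A3 C₂ h2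
  obtain ⟨m0, hm0⟩ := pow_unbounded_of_one_lt (2 * √C₃) (one_lt_two)
  obtain ⟨m, hm⟩ : ∃ m, m = max m0 3 := ⟨_, rfl⟩
  have hm3 : 3 ≤ m := hm ▸ le_max_right _ _
  have hmC : 2 * √C₃ ≤ 2 ^ m :=
    hm0.le.trans (pow_le_pow_right₀ (by norm_num) (hm ▸ le_max_left _ _))
  obtain ⟨K, hK⟩ : ∃ K, K = 2 * C₃ := ⟨_, rfl⟩
  have hK0 : 0 < K := by rw [hK]; positivity
  refine ⟨m, K, (C₃ + K * √C₃) * √(2 ^ m * C₂), hm3, hK0, by positivity, ?_⟩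
  intro T E D G u p hN t₀ x₀ y i e Z hL hZ hZZ
  have he := hL.e0
  have hr := rr0 i
  have hmo : ∀ t ∈ Wb t₀ i ∩ G, rr i * ‖mo (rr i) (u t) x₀‖ ≤ Z := by
    intro t ht
    have h4 := hZZ t ht
    unfold YY at h4
    have h5 : 0 ≤ K * √(A2 0 4 (Y7.fr (rr i) (u t) x₀)) := by positivity
    linarith
  obtain ⟨-, hD⟩ := H2 T E D G u p hN t₀ x₀ y i Z e hL hZ hmo
  intro t ht
  have ht1 : t ∈ Wb t₀ (i + 1) ∩ G := ⟨Wb_mono (by omega) ht.1, ht.2⟩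
  have ht0 : t ∈ Wb t₀ i ∩ G := ⟨Wb_mono (by omega) ht.1, ht.2⟩
  have hsm := (hN.spv ht.2).1
  obtain ⟨h4, h5⟩ := H3 (u t) hsm i m x₀ (C₂ * ((1 + Z) * e + e ^ 2)) hm3 (by positivity)
    (hD t ht1)
  have h6 := hZZ t ht0
  unfold YY at h6 ⊢
  obtain ⟨A, hA⟩ : ∃ A, A = A2 0 4 (Y7.fr (rr i) (u t) x₀) := ⟨_, rfl⟩
  obtain ⟨A', hA'⟩ : ∃ A', A' = A2 0 4 (Y7.fr (rr (i + m)) (u t) x₀) := ⟨_, rfl⟩
  obtain ⟨b, hb⟩ : ∃ b, b = rr i * ‖mo (rr i) (u t) x₀‖ := ⟨_, rfl⟩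
  obtain ⟨b', hb'⟩ : ∃ b', b' = rr (i + m) * ‖mo (rr (i + m)) (u t) x₀‖ := ⟨_, rfl⟩
  have hA0 : 0 ≤ A := by rw [hA]; exact A4.A2_nonneg _ _ _
  rw [← hA, ← hA'] at h4
  rw [← hA, ← hb, ← hb'] at h5
  rw [← hA, ← hb] at h6
  rw [← hA', ← hb']
  obtain ⟨R, hR⟩ : ∃ R, R = (1 + Z) * e + e ^ 2 := ⟨_, rfl⟩
  have hR0 : 0 ≤ R := by rw [hR]; positivity
  rw [← hR] at h4 h5 ⊢
  have e1 : √(2 ^ m * (C₂ * R)) = √(2 ^ m * C₂) * √R := by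
    rw [← mul_assoc, Real.sqrt_mul (by positivity)]
  rw [e1] at h5
  obtain ⟨S, hS⟩ : ∃ S, S = √(2 ^ m * C₂) * √R := ⟨_, rfl⟩
  rw [← hS] at h5
  have hS0 : 0 ≤ S := by rw [hS]; positivity
  have h7 : √A' ≤ √C₃ * (S + √A / 4 ^ m) := by
    have g1 : √A' ≤ √(C₃ * (2 ^ m * (C₂ * R) + A / 16 ^ m)) := Real.sqrt_le_sqrt h4
    have g2 : √(C₃ * (2 ^ m * (C₂ * R) + A / 16 ^ m)) ≤ √C₃ * (√(2 ^ m * (C₂ * R)) + √(A / 16 ^ m)) := by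
      rw [Real.sqrt_mul h3.le]
      gcongr
      exact sqrt_add_le' (by positivity) (by positivity)
    have g3 : √(A / 16 ^ m) = √A / 4 ^ m := by
      rw [Real.sqrt_div hA0]
      congr 1
      have : (16 : ℝ) ^ m = (4 ^ m) ^ 2 := by rw [← pow_mul, mul_comm, pow_mul]; norm_num
      rw [this, Real.sqrt_sq (by positivity)]
    rw [e1, ← hS, g3] at g2
    exact g1.trans g2
  have h8 : b' + K * √A' ≤ b / 2 ^ m + (C₃ + K * √C₃) * S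
      + √A * (C₃ / 2 ^ m + K * √C₃ / 4 ^ m) := by
    have g1 := mul_le_mul_of_nonneg_left h7 hK0.le
    have g2 : b / 2 ^ m + C₃ * (S + √A / 2 ^ m) + K * (√C₃ * (S + √A / 4 ^ m))
        = b / 2 ^ m + (C₃ + K * √C₃) * S + √A * (C₃ / 2 ^ m + K * √C₃ / 4 ^ m) := by ring
    linarith
  have h9 : C₃ / 2 ^ m + K * √C₃ / 4 ^ m ≤ K / 2 ^ m := by
    have g1 : (4 : ℝ) ^ m = 2 ^ m * 2 ^ m := by rw [← mul_pow]; norm_num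
    have g2 : K * √C₃ / 4 ^ m = C₃ * (2 * √C₃) / (2 ^ m * 2 ^ m) := by rw [g1, hK]; ring
    have g3 : C₃ * (2 * √C₃) / (2 ^ m * 2 ^ m) ≤ C₃ * 2 ^ m / (2 ^ m * 2 ^ m) := by gcongr
    have g4 : C₃ * 2 ^ m / (2 ^ m * 2 ^ m) = C₃ / (2 : ℝ) ^ m := by field_simp
    rw [g2]
    have g5 : K / (2 : ℝ) ^ m = C₃ / 2 ^ m + C₃ / 2 ^ m := by rw [hK]; ring
    rw [g5, ← g4] at *
    linarith
  have h10 : √A * (C₃ / 2 ^ m + K * √C₃ / 4 ^ m) ≤ √A * (K / 2 ^ m) := by gcongr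
  have h11 : Z / 2 ^ m ≥ (b + K * √A) / 2 ^ m := by gcongr
  have h12 : (b + K * √A) / (2 : ℝ) ^ m = b / 2 ^ m + √A * (K / 2 ^ m) := by ring
  have h13 : (C₃ + K * √C₃) * √(2 ^ m * C₂) * √R = (C₃ + K * √C₃) * S := by rw [hS]; ring
  rw [h13]
  linarith

end Pool.Agent.H45.NS
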