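import Pool.Agent.H45.NS.Seq

/-!
Sequences: the criterion for a good scale, and the numbers of the good and of the bad scales.
-/

set_option autoImplicit false

open Finset

namespace Pool.Agent.H45.NS

/-- Small `Y i · δ` leads to small quantities at a later index. -/
theorem seqY {m : ℕ} {C Cs θ : ℝ} (hm : 1 ≤ m) (hC : 0 < C) (hCs : 0 < Cs) (hθ : 0 < θ) :
    ∃ c : ℝ, 0 < c ∧ c ≤ 1 ∧ ∀ (e Y : ℕ → ℝ) (i : ℕ) (δ : ℝ), (∀ i, 0 ≤ e i) → (∀ i, 0 ≤ Y i) →
      0 < δ → δ ≤ c →
      (∀ l, Y (i + l + m) ≤ Y (i + l) / 2 ^ m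
        + C * √((1 + Y (i + l)) * e (i + l) + e (i + l) ^ 2)) →
      (∀ l, e (i + l) ≤ Cs * (2 ^ l * δ)) → Y i * δ ≤ c →
      ∃ l, 2 ^ l * δ ≤ 1 ∧ Y (i + l) ≤ θ ∧ e (i + l) ≤ θ := by
  obtain ⟨κ, hκ0, hκ1, hκθ⟩ : ∃ κ : ℝ, 0 < κ ∧ κ ≤ 1 ∧ 2 * κ ≤ θ :=
    ⟨min 1 (θ / 2), by positivity, min_le_left _ _, by linarith [min_le_right (1 : ℝ) (θ / 2)]⟩
  -- the smallness
  obtain ⟨b, hb0, hb1, hbθ, hbC⟩ : ∃ b : ℝ, 0 < b ∧ b ≤ 1 ∧ Cs * b ≤ θ ∧
      2 ^ m * C * √(Cs * (5 + Cs) * b) ≤ κ / 2 := by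
    refine ⟨min 1 (min (θ / Cs) ((κ / (2 * (2 ^ m * C))) ^ 2 / (Cs * (5 + Cs)))), by positivity,
      min_le_left _ _, ?_, ?_⟩
    · calc Cs * min 1 (min (θ / Cs) ((κ / (2 * (2 ^ m * C))) ^ 2 / (Cs * (5 + Cs))))
          ≤ Cs * (θ / Cs) := by
            gcongr
            exact (min_le_right _ _).trans (min_le_left _ _)
        _ = θ := by field_simp
    · have h1 : √(Cs * (5 + Cs) * min 1 (min (θ / Cs) ((κ / (2 * (2 ^ m * C))) ^ 2
          / (Cs * (5 + Cs))))) ≤ κ / (2 * (2 ^ m * C)) := by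
        apply Real.sqrt_le_iff.2
        refine ⟨by positivity, ?_⟩
        calc Cs * (5 + Cs) * min 1 (min (θ / Cs) ((κ / (2 * (2 ^ m * C))) ^ 2 / (Cs * (5 + Cs))))
            ≤ Cs * (5 + Cs) * ((κ / (2 * (2 ^ m * C))) ^ 2 / (Cs * (5 + Cs))) := by
              gcongr
              exact (min_le_right _ _).trans (min_le_right _ _)
          _ = _ := by field_simp
      calc _ ≤ 2 ^ m * C * (κ / (2 * (2 ^ m * C))) := by gcongr
        _ = κ / 2 := by field_simp
  refine ⟨b * κ / 2 ^ m, by positivity, ?_, ?_⟩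
  · rw [div_le_one (by positivity)]
    calc b * κ ≤ 1 * 1 := by gcongr
      _ = 1 := one_mul 1
      _ ≤ 2 ^ m := one_le_pow₀ (by norm_num)
  intro e Y i δ he hY hδ hδc hrec heb hYδ
  have h2m : (1 : ℝ) ≤ 2 ^ m := one_le_pow₀ (by norm_num)
  have hcb : b * κ / 2 ^ m ≤ b := by
    rw [div_le_iff₀ (by positivity)]
    exact mul_le_mul_of_nonneg_left (hκ1.trans h2m) hb0.le
  have hδb : δ ≤ b := hδc.trans hcb
  have hYb : Y i * δ ≤ b := hYδ.trans hcb
  -- the bound by induction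
  have key : ∀ l : ℕ, 2 ^ (m * l) * δ ≤ b → Y (i + m * l) ≤ Y i / 2 ^ (m * l) + κ := by
    intro l
    induction l with
    | zero =>
      intro _
      simp only [mul_zero, add_zero, pow_zero, div_one]
      linarith
    | succ l ih =>
      intro hl
      have e1 : (2 : ℝ) ^ (m * (l + 1)) = 2 ^ (m * l) * 2 ^ m := by rw [Nat.mul_succ, pow_add]
      obtain ⟨P, hP⟩ : ∃ P : ℝ, P = 2 ^ (m * l) := ⟨_, rfl⟩
      have hP1 : 1 ≤ P := by rw [hP]; exact one_le_pow₀ (by norm_num)
      have hP0 : 0 < P := by linarith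
      rw [e1, ← hP] at hl
      have hl' : P * δ ≤ b := by
        have : P * δ ≤ P * 2 ^ m * δ := by
          have h0 : 0 ≤ P * δ := by positivity
          nlinarith
        linarith
      have ih' := ih (by rw [← hP]; exact hl')
      rw [← hP] at ih'
      have h1 := hrec (m * l)
      have h2 := heb (m * l)
      rw [← hP] at h2
      obtain ⟨Z, hZ⟩ : ∃ Z, Z = Y (i + m * l) := ⟨_, rfl⟩
      obtain ⟨f, hf⟩ : ∃ f, f = e (i + m * l) := ⟨_, rfl⟩
      have hf0 : 0 ≤ f := by rw [hf]; exact he _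
      have hZ0 : 0 ≤ Z := by rw [hZ]; exact hY _
      rw [← hZ] at h1 ih'
      rw [← hf] at h1 h2
      have hYi := hY i
      have h3 : (1 + Z) * f + f ^ 2 ≤ Cs * (5 + Cs) * b := by
        have e2 : (1 + Z) * f ≤ (1 + (Y i / P + κ)) * (Cs * (P * δ)) := by gcongr
        have e3 : (1 + (Y i / P + κ)) * (Cs * (P * δ))
            = Cs * ((1 + κ) * (P * δ) + Y i * δ) := by
          field_simp
          ring
        have e4 : (1 + κ) * (P * δ) + Y i * δ ≤ 2 * b + b := by
          have : (1 + κ) * (P * δ) ≤ 2 * b := by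
            apply mul_le_mul (by linarith) hl' (by positivity) (by norm_num)
          linarith
        have e5 : f ^ 2 ≤ Cs ^ 2 * b := by
          calc f ^ 2 ≤ (Cs * (P * δ)) ^ 2 := pow_le_pow_left₀ hf0 h2 2
            _ ≤ (Cs * b) ^ 2 := by gcongr
            _ = Cs ^ 2 * (b * b) := by ring
            _ ≤ Cs ^ 2 * (b * 1) := by gcongr
            _ = Cs ^ 2 * b := by ring
        have e6 := mul_le_mul_of_nonneg_left e4 hCs.le
        have : 0 ≤ Cs * b := by positivity
        nlinarith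
      have h4 : C * √((1 + Z) * f + f ^ 2) ≤ κ / 2 := by
        have e2 := Real.sqrt_le_sqrt h3
        have e3 : C * √((1 + Z) * f + f ^ 2) ≤ 1 * (C * √(Cs * (5 + Cs) * b)) := by
          rw [one_mul]
          gcongr
        refine e3.trans (le_trans ?_ hbC)
        rw [mul_assoc (2 ^ m : ℝ)]
        exact mul_le_mul_of_nonneg_right h2m (by positivity)
      have h5 : Z / 2 ^ m ≤ Y i / (P * 2 ^ m) + κ / 2 ^ m := by
        calc Z / 2 ^ m ≤ (Y i / P + κ) / 2 ^ m := by gcongr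
          _ = _ := by field_simp
      have h6 : κ / 2 ^ m ≤ κ / 2 := by
        apply div_le_div_of_nonneg_left hκ0.le (by norm_num)
        calc (2 : ℝ) = 2 ^ 1 := by norm_num
          _ ≤ 2 ^ m := pow_le_pow_right₀ (by norm_num) hm
      have e7 : i + m * (l + 1) = i + m * l + m := by ring
      rw [e7, e1, ← hP]
      linarith
  -- the index
  by_cases hYκ : Y i ≤ κ
  · refine ⟨0, by simpa using hδb.trans hb1, ?_, ?_⟩
    · simp only [add_zero]
      linarith
    · have h1 := heb 0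
      simp only [add_zero, pow_zero, one_mul] at h1 ⊢
      calc e i ≤ Cs * δ := h1
        _ ≤ Cs * b := by gcongr
        _ ≤ θ := hbθ
  · rw [not_le] at hYκ
    obtain ⟨l, hl1, hl2⟩ : ∃ l : ℕ, Y i / κ ≤ 2 ^ (m * l) ∧ (2 : ℝ) ^ (m * l) ≤ 2 ^ m * (Y i / κ) := by
      have hex : ∃ l : ℕ, Y i / κ ≤ 2 ^ (m * l) := by
        obtain ⟨n, hn⟩ := pow_unbounded_of_one_lt (Y i / κ) (one_lt_two)
        refine ⟨n, hn.le.trans ?_⟩
        exact pow_le_pow_right₀ (by norm_num) (Nat.le_mul_of_pos_left n hm)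
      classical
      refine ⟨Nat.find hex, Nat.find_spec hex, ?_⟩
      rcases Nat.eq_zero_or_pos (Nat.find hex) with h0 | h0
      · rw [h0, mul_zero, pow_zero]
        have : 1 < Y i / κ := by rwa [lt_div_iff₀ hκ0, one_mul]
        nlinarith
      · have h1 := Nat.find_min hex (show Nat.find hex - 1 < Nat.find hex by omega)
        rw [not_le] at h1
        obtain ⟨l', hl'⟩ : ∃ l', Nat.find hex = l' + 1 := ⟨_, (Nat.succ_pred_eq_of_pos h0).symm⟩
        rw [hl'] at h1 ⊢
        simp only [Nat.add_sub_cancel] at h1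
        rw [Nat.mul_succ, pow_add, mul_comm ((2:ℝ) ^ (m * l'))]
        gcongr
    have h1 : 2 ^ (m * l) * δ ≤ b := by
      calc 2 ^ (m * l) * δ ≤ 2 ^ m * (Y i / κ) * δ := by gcongr
        _ = 2 ^ m / κ * (Y i * δ) := by field_simp
        _ ≤ 2 ^ m / κ * (b * κ / 2 ^ m) := by gcongr
        _ = b := by field_simp
    refine ⟨m * l, h1.trans hb1, ?_, ?_⟩
    · have h2 := key l h1
      have h3 : Y i / 2 ^ (m * l) ≤ κ := by
        rw [div_le_iff₀ (by positivity)]
        rw [div_le_iff₀ hκ0] at hl1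
        linarith
      linarith
    · calc e (i + m * l) ≤ Cs * (2 ^ (m * l) * δ) := heb _
        _ ≤ Cs * b := by gcongr
        _ ≤ θ := hbθ

/-- The numbers of the good and of the bad scales. -/
theorem count_gb {m : ℕ} {q η C Cs c₂ : ℝ} (hm : 1 ≤ m) (hq : 0 < q) (hη : 0 < η) (hη1 : η ≤ 1)
    (hqq : q < 2 ^ (-(2 - η))) (hC : 0 < C) (hCs : 0 < Cs) (hc₂ : 0 < c₂) :
    ∃ ε c K : ℝ, 0 < ε ∧ ε ≤ 1 ∧ ε ^ 2 ≤ c ∧ 0 < K ∧
    ∀ (e X Θ : ℕ → ℝ) (k n : ℕ) (δ B : ℝ), (∀ i, 0 ≤ e i) → (∀ i, 0 ≤ X i) → 0 < δ → δ ≤ ε →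
      (∀ i, k ≤ i → X (i + m) ≤ q ^ m * X i + C * (e i * √(X i) + e i + e i ^ 2)) →
      (∀ i, k ≤ i → X (i + 1) ≤ 2 * X i) →
      (∀ i, k ≤ i → i < n → Θ i ≤ δ → c₂ / δ ^ 2 ≤ X i) → (∀ i, k ≤ i → e i ≤ Cs * Θ i) →
      1 ≤ B → X k ≤ B → k ≤ n →
        (2 - η) * (((Ico k n).filter (fun i => Θ i ≤ δ)).card : ℝ)
          ≤ (((Ico k n).filter (fun i => c / δ < Θ i)).card : ℝ)
            + max 0 (Real.logb 2 (B * δ ^ 2) + K) := by
  obtain ⟨q', hq'⟩ : ∃ q' : ℝ, q' = 2 ^ (-(2 - η)) := ⟨_, rfl⟩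
  rw [← hq'] at hqq
  have hq'0 : 0 < q' := by rw [hq']; positivity
  have hq'l : Real.logb 2 q' = -(2 - η) := by
    rw [hq']
    exact Real.logb_rpow (by norm_num) (by norm_num)
  have hq'1 : q' ≤ 1 := by
    rw [hq']
    exact Real.rpow_le_one_of_one_le_of_nonpos (by norm_num) (by linarith)
  obtain ⟨M, hM⟩ : ∃ M : ℝ, M = ∑ j ∈ range m, q⁻¹ ^ j * 2 ^ j := ⟨_, rfl⟩
  have hM0 : 0 < M := by
    rw [hM]
    exact sum_pos (fun j _ => by positivity) (by simpa using by omega)
  obtain ⟨A, hA⟩ : ∃ A : ℝ, A = q⁻¹ ^ m * C := ⟨_, rfl⟩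
  have hA0 : 0 < A := by rw [hA]; positivity
  have hqd : 0 < q' - q := by linarith
  -- the constant for the decay
  obtain ⟨c₁, hc₁, hc₁1, hc₁A⟩ : ∃ c₁ : ℝ, 0 < c₁ ∧ c₁ ≤ 1 ∧ A * (3 * c₁) ≤ q' - q := by
    refine ⟨min 1 ((q' - q) / (3 * A)), by positivity, min_le_left _ _, ?_⟩
    calc A * (3 * min 1 ((q' - q) / (3 * A))) ≤ A * (3 * ((q' - q) / (3 * A))) := by
          gcongr
          exact min_le_right _ _
      _ = q' - q := by field_simp
  obtain ⟨c, hc⟩ : ∃ c : ℝ, c = c₁ * √(c₂ / 8) / Cs := ⟨_, rfl⟩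
  have hc0 : 0 < c := by rw [hc]; positivity
  obtain ⟨ε, hε, hε1, hεc, hε2, hε3⟩ : ∃ ε : ℝ, 0 < ε ∧ ε ≤ 1 ∧ ε ^ 2 ≤ c ∧ ε ^ 2 ≤ c₂ / 8 ∧
      ε ≤ c₁ / Cs := by
    refine ⟨min 1 (min c (min (c₂ / 8) (c₁ / Cs))), by positivity, min_le_left _ _, ?_, ?_, ?_⟩
    · have h0 : 0 ≤ min 1 (min c (min (c₂ / 8) (c₁ / Cs))) := by positivity
      have h1 := min_le_left (1 : ℝ) (min c (min (c₂ / 8) (c₁ / Cs)))
      have h2 := (min_le_right (1 : ℝ) (min c (min (c₂ / 8) (c₁ / Cs)))).trans (min_le_left _ _)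
      nlinarith
    · have h0 : 0 ≤ min 1 (min c (min (c₂ / 8) (c₁ / Cs))) := by positivity
      have h1 := min_le_left (1 : ℝ) (min c (min (c₂ / 8) (c₁ / Cs)))
      have h2 := (min_le_right (1 : ℝ) (min c (min (c₂ / 8) (c₁ / Cs)))).trans
        ((min_le_right _ _).trans (min_le_left _ _))
      nlinarith
    · exact (min_le_right _ _).trans ((min_le_right _ _).trans (min_le_right _ _))
  refine ⟨ε, c, |Real.logb 2 (4 * M / c₂)| + 1, hε, hε1, hεc, by positivity, ?_⟩
  intro e X Θ k n δ B he hX hδ hδε hrec hgr hlow heΘ hB hBX hkn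
  obtain ⟨S, hS⟩ : ∃ S : ℕ → ℝ, S = WS m q X := ⟨_, rfl⟩
  obtain ⟨L, hL⟩ : ∃ L : ℝ, L = c₂ / (4 * δ ^ 2) := ⟨_, rfl⟩
  have hL0 : 0 < L := by rw [hL]; positivity
  have hδ2 : δ ^ 2 ≤ c₂ / 8 := (pow_le_pow_left₀ hδ.le hδε 2).trans hε2
  have hL2 : 1 ≤ L / 2 := by
    rw [hL, div_div, le_div_iff₀ (by positivity)]
    linarith
  have hXS : ∀ i, X i ≤ S i := fun i => by rw [hS]; exact WS_ge hm hq hX i
  have hq1 : q ≤ 1 := by linarith
  have hSg : ∀ i, k ≤ i → S (i + 1) ≤ 2 * S i := by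
    intro i hi
    rw [hS]
    apply WS_grow hq
    intro j
    have := hgr (i + j) (by omega)
    rwa [show i + j + 1 = i + 1 + j by ring] at this
  -- the decay
  have hdec : ∀ i, k ≤ i → 1 ≤ S i → e i ≤ c₁ * √(S i) → S (i + 1) ≤ q' * S i := by
    intro i hi hSi hei
    have h0 := he i
    have h1 : S (i + 1) ≤ q * S i + q⁻¹ ^ m * (C * (e i * √(X i) + e i + e i ^ 2)) := by
      rw [hS]
      exact WS_step hm hq hq1 (by positivity) (hrec i hi)
    have h2 : √(X i) ≤ √(S i) := Real.sqrt_le_sqrt (hXS i)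
    have h3 : 1 ≤ √(S i) := Real.one_le_sqrt.2 hSi
    have h4 : √(S i) * √(S i) = S i := Real.mul_self_sqrt (by linarith)
    have h5 : e i * √(X i) + e i + e i ^ 2 ≤ 3 * c₁ * S i := by
      have g1 : e i * √(X i) ≤ c₁ * S i := by
        calc e i * √(X i) ≤ c₁ * √(S i) * √(S i) := by gcongr
          _ = c₁ * S i := by rw [mul_assoc, h4]
      have g2 : e i ≤ c₁ * S i := by
        calc e i ≤ c₁ * (√(S i) * 1) := by rw [mul_one]; exact hei
          _ ≤ c₁ * (√(S i) * √(S i)) := by gcongr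
          _ = c₁ * S i := by rw [h4]
      have g3 : e i ^ 2 ≤ c₁ * S i := by
        calc e i ^ 2 ≤ (c₁ * √(S i)) ^ 2 := pow_le_pow_left₀ h0 hei 2
          _ = c₁ * (c₁ * (√(S i) * √(S i))) := by ring
          _ = c₁ * (c₁ * S i) := by rw [h4]
          _ ≤ 1 * (c₁ * S i) := by gcongr
          _ = c₁ * S i := one_mul _
      linarith
    have h6 : q⁻¹ ^ m * (C * (e i * √(X i) + e i + e i ^ 2)) ≤ A * (3 * c₁) * S i := by
      rw [← mul_assoc, ← hA, mul_assoc A]
      gcongr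
    have h7 : A * (3 * c₁) * S i ≤ (q' - q) * S i := by gcongr
    linarith
  have hlog0 : ∀ i, k ≤ i → 0 < S i → 0 < S (i + 1) → Real.logb 2 (S (i + 1) / L)
      ≤ Real.logb 2 (S i / L) + 1 := by
    intro i hi h0 h1
    have h2 : S (i + 1) / L ≤ 2 * (S i / L) := by
      rw [← mul_div_assoc]
      exact div_le_div_of_nonneg_right (hSg i hi) hL0.le
    have h3 := Real.logb_le_logb_of_le (b := 2) (by norm_num) (by positivity) h2
    rw [Real.logb_mul (by norm_num) (by positivity), Real.logb_self_eq_one (by norm_num)] at h3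
    linarith
  -- the potential
  obtain ⟨p, hp⟩ : ∃ p : ℕ → ℝ, p = fun i => if L < S i then Real.logb 2 (S i / L) else 0 := ⟨_, rfl⟩
  have hp0 : ∀ i, 0 ≤ p i := by
    intro i
    rw [hp]
    dsimp only
    split_ifs with h
    · apply Real.logb_nonneg (by norm_num)
      rw [one_le_div hL0]
      exact h.le
    · exact le_rfl
  have hpe : ∀ i, L < S i → p i = Real.logb 2 (S i / L) := fun i h => by rw [hp]; exact if_pos h
  have hpz : ∀ i, ¬ L < S i → p i = 0 := fun i h => by rw [hp]; exact if_neg h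
  have hstep : ∀ i, k ≤ i → p (i + 1) ≤ p i + 1 := by
    intro i hi
    by_cases h1 : L < S (i + 1)
    · rw [hpe _ h1]
      have hSi := hSg i hi
      have h2 : 0 < S i := by linarith
      have h3 := hlog0 i hi h2 (by linarith)
      by_cases h4 : L < S i
      · rw [hpe _ h4]
        exact h3
      · rw [hpz _ h4]
        rw [not_lt] at h4
        have h5 : Real.logb 2 (S i / L) ≤ 0 := by
          apply Real.logb_nonpos (by norm_num) (by positivity)
          rw [div_le_one hL0]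
          exact h4
        linarith
    · rw [hpz _ h1]
      linarith [hp0 i]
  have hgood : ∀ i, k ≤ i → i < n → Θ i ≤ δ → p (i + 1) ≤ p i - (2 - η) := by
    intro i hi hin hΘ
    have h1 := hlow i hi hin hΘ
    have h2 : c₂ / δ ^ 2 = 4 * L := by rw [hL]; field_simp
    rw [h2] at h1
    have h3 := h1.trans (hXS i)
    have h4 : e i ≤ c₁ * √(S i) := by
      have h5 : 1 ≤ √(S i) := Real.one_le_sqrt.2 (by linarith)
      calc e i ≤ Cs * Θ i := heΘ i hi
        _ ≤ Cs * (c₁ / Cs) := by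
            gcongr
            exact hΘ.trans (hδε.trans hε3)
        _ = c₁ * 1 := by field_simp
        _ ≤ c₁ * √(S i) := by gcongr
    have h5 := hdec i hi (by linarith) h4
    have h6 : 2 ≤ Real.logb 2 (S i / L) := by
      rw [Real.le_logb_iff_rpow_le (by norm_num) (by apply div_pos _ hL0; linarith),
        le_div_iff₀ hL0]
      norm_num
      exact h3
    rw [hpe i (by linarith)]
    by_cases h7 : L < S (i + 1)
    · rw [hpe _ h7]
      have h8 : S (i + 1) / L ≤ q' * (S i / L) := by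
        rw [← mul_div_assoc]
        exact div_le_div_of_nonneg_right h5 hL0.le
      have h9 := Real.logb_le_logb_of_le (b := 2) (by norm_num) (by apply div_pos _ hL0; linarith) h8
      rw [Real.logb_mul hq'0.ne' (div_pos (by linarith) hL0).ne', hq'l] at h9
      linarith
    · rw [hpz _ h7]
      linarith
  have hmid : ∀ i, k ≤ i → Θ i ≤ c / δ → p (i + 1) ≤ p i := by
    intro i hi hΘ
    by_cases h1 : L < S (i + 1)
    · have h2 := hSg i hi
      have h3 : L / 2 < S i := by linarith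
      have h4 : e i ≤ c₁ * √(S i) := by
        have h5 : √(c₂ / 8) / δ = √(L / 2) := by
          rw [hL, div_div, show 4 * δ ^ 2 * 2 = 8 * δ ^ 2 by ring, ← div_div,
            Real.sqrt_div (show (0 : ℝ) ≤ c₂ / 8 by positivity) (δ ^ 2), Real.sqrt_sq hδ.le]
        calc e i ≤ Cs * Θ i := heΘ i hi
          _ ≤ Cs * (c / δ) := by gcongr
          _ = c₁ * (√(c₂ / 8) / δ) := by rw [hc]; field_simp
          _ = c₁ * √(L / 2) := by rw [h5]
          _ ≤ c₁ * √(S i) := by
              gcongr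
      have h5 := hdec i hi (by linarith) h4
      have h6 : S (i + 1) ≤ S i := h5.trans (mul_le_of_le_one_left (by linarith) hq'1)
      rw [hpe _ h1, hpe i (by linarith)]
      apply Real.logb_le_logb_of_le (by norm_num) (by apply div_pos _ hL0; linarith)
      exact div_le_div_of_nonneg_right h6 hL0.le
    · rw [hpz _ h1]
      exact hp0 i
  -- the sum
  have hsum : ∀ n', k ≤ n' → n' ≤ n → p n' + (2 - η) * (((Ico k n').filter (fun i => Θ i ≤ δ)).card : ℝ)
      ≤ p k + (((Ico k n').filter (fun i => c / δ < Θ i)).card : ℝ) := by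
    intro n' hn'
    induction n', hn' using Nat.le_induction with
    | base => simp
    | succ i hi ih =>
      intro hin
      have ih := ih (by omega)
      have h1 : Ico k (i + 1) = insert i (Ico k i) := by
        ext j
        simp only [mem_Ico, mem_insert]
        omega
      have h2 : ∀ P : ℕ → Prop, ∀ [DecidablePred P], i ∉ (Ico k i).filter P := by
        intro P _
        simp
      rw [h1, filter_insert, filter_insert]
      have hcδ : δ ≤ c / δ := by
        rw [le_div_iff₀ hδ]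
        calc δ * δ = δ ^ 2 := by ring
          _ ≤ ε ^ 2 := pow_le_pow_left₀ hδ.le hδε 2
          _ ≤ c := hεc
      by_cases hg : Θ i ≤ δ
      · have hnb : ¬ c / δ < Θ i := not_lt.2 (hg.trans hcδ)
        rw [if_pos hg, if_neg hnb, card_insert_of_notMem (h2 fun i => Θ i ≤ δ)]
        have h3 := hgood i hi (by omega) hg
        push_cast
        linarith
      · rw [if_neg hg]
        by_cases hb : c / δ < Θ i
        · rw [if_pos hb, card_insert_of_notMem (h2 fun i => c / δ < Θ i)]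
          have h3 := hstep i hi
          push_cast
          linarith
        · rw [if_neg hb]
          have h3 := hmid i hi (not_lt.1 hb)
          linarith
  have h1 := hsum n hkn le_rfl
  have h2 := hp0 n
  have h3 : p k ≤ max 0 (Real.logb 2 (B * δ ^ 2) + (|Real.logb 2 (4 * M / c₂)| + 1)) := by
    by_cases h4 : L < S k
    · rw [hpe _ h4]
      refine le_max_of_le_right ?_
      have h5 : S k ≤ M * B := by
        rw [hS, hM]
        apply WS_le hq
        intro j
        induction j with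
        | zero => simpa using hBX
        | succ j ih =>
          have h6 := hgr (k + j) (by omega)
          rw [← Nat.add_assoc, pow_succ]
          linarith
      have h6 : S k / L ≤ (4 * M / c₂) * (B * δ ^ 2) := by
        rw [div_le_iff₀ hL0, hL]
        calc S k ≤ M * B := h5
          _ = _ := by field_simp
      have h7 := Real.logb_le_logb_of_le (b := 2) (by norm_num) (by apply div_pos _ hL0; linarith) h6
      rw [Real.logb_mul (by positivity) (by positivity)] at h7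
      have h8 := le_abs_self (Real.logb 2 (4 * M / c₂))
      linarith
    · rw [hpz _ h4]
      exact le_max_left _ _
  linarith

end Pool.Agent.H45.NS
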