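import Pool.Agent.H45.NS.B9
import Pool.Agent.H45.NS.B13
import Pool.Agent.H45.NS.Seq2

/-!
The numbers of the scales with small and with large dissipation, viscosity one.
-/

set_option autoImplicit false

open MeasureTheory Set Metric
open scoped ContDiff ENNReal

namespace Pool.Agent.H45.NS

open H459R3.NS W221.NS Pool.Agent.Y8 Pool.Agent.N977.H Pool.Agent.N976.TL

/-- The supremum of the scaled velocity. -/
noncomputable def YsB (K : ℝ) (G : Set ℝ) (u : ℝ → V → V) (t₀ : ℝ) (x₀ : V) (i : ℕ) : ℝ :=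
  sSup ((fun t => YY K (u t) x₀ i) '' (Wb t₀ i ∩ G))

theorem YsB_nonneg {K : ℝ} (hK : 0 ≤ K) (G : Set ℝ) (u : ℝ → V → V) (t₀ : ℝ) (x₀ : V) (i : ℕ) :
    0 ≤ YsB K G u t₀ x₀ i := by
  apply Real.sSup_nonneg
  rintro _ ⟨t, _, rfl⟩
  exact YY_nonneg hK _ _ _

theorem YsB_le {K : ℝ} {G : Set ℝ} {u : ℝ → V → V} {t₀ : ℝ} {x₀ : V} {i : ℕ} {M : ℝ} (hM : 0 ≤ M)
    (h : ∀ t ∈ Wb t₀ i ∩ G, YY K (u t) x₀ i ≤ M) : YsB K G u t₀ x₀ i ≤ M := by
  apply Real.sSup_le _ hM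
  rintro _ ⟨t, ht, rfl⟩
  exact h t ht

theorem le_YsB {K : ℝ} {G : Set ℝ} {u : ℝ → V → V} {t₀ : ℝ} {x₀ : V} {i : ℕ} {M : ℝ}
    (h : ∀ t ∈ Wb t₀ i ∩ G, YY K (u t) x₀ i ≤ M) : ∀ t ∈ Wb t₀ i ∩ G,
    YY K (u t) x₀ i ≤ YsB K G u t₀ x₀ i := by
  intro t ht
  apply le_csSup
  · refine ⟨M, ?_⟩
    rintro _ ⟨s, hs, rfl⟩
    exact h s hs
  · exact ⟨t, ht, rfl⟩

/-- The energy at a scale with small dissipation. -/
theorem lowX : ∃ c C : ℝ, 0 < c ∧ 0 < C ∧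
    ∀ (T E D : ℝ) (G : Set ℝ) (u : ℝ → V → V) (p : ℝ → V → ℝ), Turb 1 T E D G u p →
    ∀ (t₀ : ℝ) (x₀ : V) (j : ℕ), t₀ ∈ Ioo 0 T → 2 * rr j ^ 2 < t₀ →
      ∀ δ : ℝ, 0 < δ → δ ≤ c → Th G u (t₀, x₀) j ≤ δ →
        (∀ t ∈ Wb t₀ (j + 5) ∩ G, EE (u t) x₀ (j + 5) ≤ c / δ ^ 2) →
        ¬ SingPt G u t₀ x₀ ∧ ∃ l, 2 ^ l * δ ≤ 1 ∧
          ∀ t ∈ Wb t₀ (j + l + 13) ∩ G, ∀ x ∈ ball x₀ (rr (j + l + 14)),
            ‖u t x‖ ≤ C * 2 ^ (j + l) := by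
  obtain ⟨m, K, CY, hm3, hK, hCY, hrec⟩ := recY
  obtain ⟨CE, hCE, hYE⟩ := YY_EE hK
  obtain ⟨θ, C, hθ, hC, hcrit⟩ := critE
  obtain ⟨Cs, hCs, heS⟩ := eL
  obtain ⟨C₇, hC₇, h7⟩ := EE_bd
  obtain ⟨θ', hθ'0, hθ'1, hθ'2⟩ : ∃ θ' : ℝ, 0 < θ' ∧ θ' ≤ θ / 2 ∧ CE * θ' ^ 2 ≤ θ := by
    refine ⟨min (θ / 2) (√(θ / CE)), by positivity, min_le_left _ _, ?_⟩
    calc CE * min (θ / 2) (√(θ / CE)) ^ 2 ≤ CE * √(θ / CE) ^ 2 := by
          gcongr
          exact min_le_right _ _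
      _ = θ := by
          rw [Real.sq_sqrt (by positivity)]
          field_simp
  obtain ⟨c, hc, hc1, hseq⟩ := seqY (m := m) (C := CY) (Cs := Cs) (θ := θ') (by omega) hCY hCs hθ'0
  refine ⟨min c (c ^ 2 / CE), C * 2 ^ 5, by positivity, by positivity, ?_⟩
  intro T E D G u p hN t₀ x₀ j ht₀ hjt δ hδ hδc hΘ hEE
  have h8' := fun i => essB T E D G u p hN t₀ x₀ i
  choose e he0 helow heup using h8'
  have hspv : ∀ t ∈ G, SPV (u t) := fun t ht => hN.spv ht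
  have hbd : ∀ i, 2 ≤ i → ∀ t ∈ Wb t₀ i ∩ G, YY K (u t) x₀ i ≤ √(CE * (C₇ * E ^ 2 * 2 ^ i)) := by
    intro i hi t ht
    apply Real.le_sqrt_of_sq_le
    refine (hYE (u t) (hspv t ht.2).1 x₀ i).1.trans ?_
    exact mul_le_mul_of_nonneg_left (h7 (u t) E (hspv t ht.2) (hN.energy_le t ht.2) i x₀ hi) hCE.le
  obtain ⟨Y, hY⟩ : ∃ Y : ℕ → ℝ, Y = fun i => YsB K G u t₀ x₀ i := ⟨_, rfl⟩
  have hY0 : ∀ i, 0 ≤ Y i := fun i => by rw [hY]; exact YsB_nonneg hK.le G u t₀ x₀ i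
  have hYle : ∀ i, 2 ≤ i → ∀ t ∈ Wb t₀ i ∩ G, YY K (u t) x₀ i ≤ Y i :=
    fun i hi => by rw [hY]; exact le_YsB (hbd i hi)
  have hYmk : ∀ i (M : ℝ), 0 ≤ M → (∀ t ∈ Wb t₀ i ∩ G, YY K (u t) x₀ i ≤ M) → Y i ≤ M :=
    fun i M hM h => by rw [hY]; exact YsB_le hM h
  have hLv : ∀ i, j ≤ i → ∀ e' > e i, ∃ y, LvB T G u t₀ x₀ y i e' := by
    intro i hi e' he'
    obtain ⟨y, hy1, hy2⟩ := heup i e' he'
    have h1 : rr i ^ 2 ≤ rr j ^ 2 := pow_le_pow_left₀ (rr0 i).le (rr_anti hi) 2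
    exact ⟨y, ⟨by linarith, ht₀.2, hy1, lt_of_le_of_lt (he0 i) he', hy2⟩⟩
  have hrcs : ∀ i, j ≤ i → 2 ≤ i → Y (i + m) ≤ Y i / 2 ^ m + CY * √((1 + Y i) * e i + e i ^ 2) := by
    intro i hi hi2
    have hYi := hY0 i
    apply hYmk _ _ (by positivity)
    intro t ht
    refine A9.lim_le (g := fun e' : ℝ => Y i / 2 ^ m + CY * √((1 + Y i) * e' + e' ^ 2))
      (by fun_prop) ?_
    intro e' he'
    obtain ⟨y, hy⟩ := hLv i hi e' he'
    exact hrec T E D G u p hN t₀ x₀ y i e' (Y i) hy (hY0 i) (hYle i hi2) t ht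
  have hTh : ∀ l, Th G u (t₀, x₀) (j + l) ≤ 2 ^ l * δ := by
    intro l
    induction l with
    | zero => simpa using hΘ
    | succ l ih =>
      refine (Th_succ hN (t₀, x₀) (j + l)).trans ?_
      rw [pow_succ]
      linarith
  have hYδ : Y (j + 5) * δ ≤ c := by
    have h1 : Y (j + 5) ≤ c / δ := by
      apply hYmk _ _ (by positivity)
      intro t ht
      have h2 := (hYE (u t) (hspv t ht.2).1 x₀ (j + 5)).1
      have h3 := hEE t ht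
      have h4 : YY K (u t) x₀ (j + 5) ^ 2 ≤ (c / δ) ^ 2 := by
        calc YY K (u t) x₀ (j + 5) ^ 2 ≤ CE * EE (u t) x₀ (j + 5) := h2
          _ ≤ CE * (min c (c ^ 2 / CE) / δ ^ 2) := by gcongr
          _ ≤ CE * (c ^ 2 / CE / δ ^ 2) := by
              gcongr
              exact min_le_right _ _
          _ = (c / δ) ^ 2 := by field_simp
      exact (abs_le_of_sq_le_sq' h4 (by positivity)).2
    calc Y (j + 5) * δ ≤ c / δ * δ := by gcongr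
      _ = c := by field_simp
  obtain ⟨l, hl1, hl2, hl3⟩ := hseq e Y (j + 5) δ he0 hY0 hδ (hδc.trans (min_le_left _ _))
    (fun l => hrcs (j + 5 + l) (by omega) (by omega))
    (fun l => by
      have h1 := heS T E D G u p hN (t₀, x₀) (j + l) (e (j + l + 5)) (he0 _) (helow (j + l + 5))
      rw [show j + 5 + l = j + l + 5 by ring]
      exact h1.trans (mul_le_mul_of_nonneg_left (hTh l) hCs.le)) hYδ
  obtain ⟨y, hy⟩ := hLv (j + 5 + l) (by omega) θ (by linarith)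
  obtain ⟨h1, h2⟩ := hcrit T E D G u p hN t₀ x₀ y (j + 5 + l) hy (by
    intro t ht
    have h3 := hYle _ (by omega) t ht
    have h4 := YY_nonneg hK.le (u t) x₀ (j + 5 + l)
    calc EE (u t) x₀ (j + 5 + l) ≤ CE * YY K (u t) x₀ (j + 5 + l) ^ 2 :=
          (hYE (u t) (hspv t ht.2).1 x₀ (j + 5 + l)).2
      _ ≤ CE * θ' ^ 2 := by
          gcongr
          exact h3.trans hl2
      _ ≤ θ := hθ'2)
  refine ⟨h1, l, hl1, fun t ht x hx => ?_⟩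
  rw [show j + l + 13 = j + 5 + l + 8 by ring] at ht
  rw [show j + l + 14 = j + 5 + l + 9 by ring] at hx
  refine (h2 t ht x hx).trans (le_of_eq ?_)
  ring

/-- The numbers of the scales with small and with large dissipation, viscosity one, local energy. -/
theorem qsrG (η : ℝ) (hη : 0 < η) (hη1 : η ≤ 1) : ∃ ε c K C : ℝ, 0 < ε ∧ ε ≤ 1 ∧ ε ^ 2 ≤ c ∧ 0 < K ∧
    0 < C ∧
    ∀ (T E D : ℝ) (G : Set ℝ) (u : ℝ → V → V) (p : ℝ → V → ℝ), Turb 1 T E D G u p →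
    ∀ (t₀ : ℝ) (x₀ : V) (k n : ℕ), t₀ ∈ Ioo 0 T → k ≤ n → 2 * rr k ^ 2 < t₀ →
      ∀ A : ℝ, 1 ≤ A → (∀ t ∈ Wb t₀ k ∩ G, EE (u t) x₀ k ≤ A) → ∀ δ : ℝ, 0 < δ → δ ≤ ε →
      (¬ SingPt G u t₀ x₀ ∧ ∀ t ∈ G, t < t₀ → t₀ - t < (δ * rr (n + 13)) ^ 2 →
        ∀ x ∈ ball x₀ (δ * rr (n + 14)), ‖u t x‖ ≤ C * 2 ^ n / δ) ∨
      (2 - η) * (((Finset.Ico k n).filter (fun i => Th G u (t₀, x₀) i ≤ δ)).card : ℝ)
        ≤ (((Finset.Ico k n).filter (fun i => c / δ < Th G u (t₀, x₀) i)).card : ℝ)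
          + max 0 (Real.logb 2 (A * δ ^ 2) + K) := by
  obtain ⟨P, hP, hrec0⟩ := recX
  -- the rates
  obtain ⟨q', hq'⟩ : ∃ q' : ℝ, q' = 2 ^ (-(2 - η)) := ⟨_, rfl⟩
  have hq'4 : 1 / 4 < q' := by
    have h1 : (1 / 4 : ℝ) = 2 ^ (-2 : ℝ) := by
      rw [Real.rpow_neg (by norm_num)]
      norm_num
    rw [h1, hq']
    exact Real.rpow_lt_rpow_of_exponent_lt (by norm_num) (by linarith)
  obtain ⟨q, hq⟩ : ∃ q, q = (1 / 4 + q') / 2 := ⟨_, rfl⟩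
  have hq4 : 1 < 4 * q := by linarith
  have hq0 : 0 < q := by linarith
  obtain ⟨m0, hm0⟩ := pow_unbounded_of_one_lt P hq4
  obtain ⟨m, hmm⟩ : ∃ m, m = max m0 3 := ⟨_, rfl⟩
  have hm3 : 3 ≤ m := hmm ▸ le_max_right _ _
  have hPm : P / 4 ^ m ≤ q ^ m := by
    have e1 : (4 * q) ^ m0 ≤ (4 * q) ^ m := pow_le_pow_right₀ hq4.le (hmm ▸ le_max_left _ _)
    rw [div_le_iff₀ (by positivity), ← mul_pow, mul_comm q 4]
    linarith
  obtain ⟨C₁, hC₁, hrec⟩ := hrec0 m hm3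
  obtain ⟨c₂, C, hc₂, hC, hlow⟩ := lowX
  obtain ⟨Cs, hCs, heS⟩ := eL
  obtain ⟨C₇, hC₇, h7⟩ := EE_bd
  obtain ⟨ε, c, K, hε, hε1, hεc, hK, hcount⟩ := count_gb (m := m) (q := q) (η := η) (C := C₁)
    (Cs := Cs) (c₂ := c₂) (by omega) hq0 hη hη1 (by rw [← hq']; linarith) hC₁ hCs hc₂
  refine ⟨min ε c₂, c, K + 5, C, by positivity, (min_le_left _ _).trans hε1, ?_, by positivity, hC,
    ?_⟩
  · refine le_trans ?_ hεc
    exact pow_le_pow_left₀ (by positivity) (min_le_left _ _) 2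
  intro T E D G u p hN t₀ x₀ k n ht₀ hkn hkt A hA1 hA δ hδ hδε
  -- the sequences
  have h8' := fun i => essB T E D G u p hN t₀ x₀ i
  choose e he0 helow heup using h8'
  have hspv : ∀ t ∈ G, SPV (u t) := fun t ht => hN.spv ht
  have hbd : ∀ i, 2 ≤ i → ∀ t ∈ Wb t₀ i ∩ G, EE (u t) x₀ i ≤ C₇ * E ^ 2 * 2 ^ i :=
    fun i hi t ht => h7 (u t) E (hspv t ht.2) (hN.energy_le t ht.2) i x₀ hi
  obtain ⟨X, hX⟩ : ∃ X : ℕ → ℝ, X = fun i => XsB G u t₀ x₀ i := ⟨_, rfl⟩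
  have hX0 : ∀ i, 0 ≤ X i := fun i => by rw [hX]; exact XsB_nonneg G u t₀ x₀ i
  have hXle : ∀ i, 2 ≤ i → ∀ t ∈ Wb t₀ i ∩ G, EE (u t) x₀ i ≤ X i :=
    fun i hi => by rw [hX]; exact le_XsB (hbd i hi)
  have hXmk : ∀ i (M : ℝ), 0 ≤ M → (∀ t ∈ Wb t₀ i ∩ G, EE (u t) x₀ i ≤ M) → X i ≤ M :=
    fun i M hM h => by rw [hX]; exact XsB_le hM h
  have hLv : ∀ i, k ≤ i → ∀ e' > e i, ∃ y, LvB T G u t₀ x₀ y i e' := by
    intro i hi e' he'
    obtain ⟨y, hy1, hy2⟩ := heup i e' he'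
    have h1 : rr i ^ 2 ≤ rr k ^ 2 := pow_le_pow_left₀ (rr0 i).le (rr_anti hi) 2
    exact ⟨y, ⟨by linarith, ht₀.2, hy1, lt_of_le_of_lt (he0 i) he', hy2⟩⟩
  have hrcs : ∀ i, k ≤ i → 2 ≤ i →
      X (i + m) ≤ q ^ m * X i + C₁ * (e i * √(X i) + e i + e i ^ 2) := by
    intro i hi hi2
    apply hXmk _ _ (by have := hX0 i; have := he0 i; positivity)
    intro t ht
    refine A9.lim_le (g := fun e' : ℝ => q ^ m * X i + C₁ * (e' * √(X i) + e' + e' ^ 2))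
      (by fun_prop) ?_
    intro e' he'
    obtain ⟨y, hy⟩ := hLv i hi e' he'
    refine (hrec T E D G u p hN t₀ x₀ y i e' (X i) hy (hX0 i) (hXle i hi2) t ht).trans ?_
    have := mul_le_mul_of_nonneg_right hPm (hX0 i)
    linarith
  have hgr : ∀ i, 2 ≤ i → X (i + 1) ≤ 2 * X i := by
    intro i hi2
    apply hXmk _ _ (by have := hX0 i; positivity)
    intro t ht
    refine (EE_succ (hspv t ht.2).1 x₀ i).trans ?_
    have := hXle i hi2 t ⟨Wb_mono (Nat.le_succ i) ht.1, ht.2⟩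
    linarith
  by_cases hex : ∃ i, k ≤ i ∧ i < n ∧ Th G u (t₀, x₀) i ≤ δ ∧ X (i + 5) < c₂ / δ ^ 2
  · left
    obtain ⟨i, hki, hin, hΘ, hXi⟩ := hex
    have h1 : rr i ^ 2 ≤ rr k ^ 2 := pow_le_pow_left₀ (rr0 i).le (rr_anti hki) 2
    obtain ⟨h2, l, hl1, hl2⟩ := hlow T E D G u p hN t₀ x₀ i ht₀ (by linarith) δ hδ
      (hδε.trans (min_le_right _ _)) hΘ (fun t ht => (hXle (i + 5) (by omega) t ht).trans hXi.le)
    refine ⟨h2, fun t htG htt ht2 x hx => ?_⟩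
    have h2l : (2 : ℝ) ^ l ≤ 1 / δ := by
      rw [le_div_iff₀ hδ]
      exact hl1
    have hδl : δ ≤ (1 / 2) ^ l := by
      rw [div_pow, one_pow, le_div_iff₀ (by positivity)]
      linarith
    have hsc : ∀ a, δ * rr (n + a) ≤ rr (i + l + a) := by
      intro a
      calc δ * rr (n + a) ≤ (1 / 2) ^ l * rr (i + a) := by
            have h3 := rr_anti (show i + a ≤ n + a by omega)
            have h4 := (rr0 (n + a)).le
            gcongr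
        _ = rr (i + l + a) := by
            unfold rr
            rw [← pow_add]
            congr 1
            ring
    have h3 : t ∈ Wb t₀ (i + l + 13) ∩ G := by
      refine ⟨⟨?_, htt⟩, htG⟩
      have h4 : (δ * rr (n + 13)) ^ 2 ≤ rr (i + l + 13) ^ 2 :=
        pow_le_pow_left₀ (mul_nonneg hδ.le (rr0 _).le) (hsc 13) 2
      linarith
    refine (hl2 t h3 x (ball_subset_ball (hsc 14) hx)).trans ?_
    have h4 : (2 : ℝ) ^ i ≤ 2 ^ n := pow_le_pow_right₀ (by norm_num) hin.le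
    calc C * 2 ^ (i + l) = C * (2 ^ i * 2 ^ l) := by rw [pow_add]
      _ ≤ C * (2 ^ n * (1 / δ)) := by gcongr
      _ = C * 2 ^ n / δ := by ring
  · right
    push Not at hex
    obtain ⟨B, hB⟩ : ∃ B : ℝ, B = 32 * A := ⟨_, rfl⟩
    have hB1 : 1 ≤ B := by linarith
    have hXA : X (k + 5) ≤ B := by
      apply hXmk _ _ (by linarith)
      intro t ht
      have hs := (hspv t ht.2).1
      have h0 := hA t ⟨Wb_mono (by omega) ht.1, ht.2⟩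
      have h1 := EE_succ hs x₀ k
      have h2 := EE_succ hs x₀ (k + 1)
      have h3 := EE_succ hs x₀ (k + 2)
      have h4 := EE_succ hs x₀ (k + 3)
      have h5 := EE_succ hs x₀ (k + 4)
      linarith
    have key := hcount (fun j => e (j + 5)) (fun j => X (j + 5)) (Th G u (t₀, x₀)) k n δ B
      (fun j => he0 _) (fun j => hX0 _) hδ (hδε.trans (min_le_left _ _)) (fun j hj => by
        have := hrcs (j + 5) (by omega) (by omega)
        rwa [show j + 5 + m = j + m + 5 by ring] at this)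
      (fun j hj => by
        have := hgr (j + 5) (by omega)
        rwa [show j + 5 + 1 = j + 1 + 5 by ring] at this)
      (fun j hj hjn hΘ => hex j hj hjn hΘ)
      (fun j _ => heS T E D G u p hN (t₀, x₀) j (e (j + 5)) (he0 _) (helow (j + 5)))
      hB1 hXA hkn
    refine key.trans ?_
    have h32 : Real.logb 2 (B * δ ^ 2) = 5 + Real.logb 2 (A * δ ^ 2) := by
      rw [hB, mul_assoc, Real.logb_mul (by norm_num) (by positivity)]
      congr 1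
      rw [show (32 : ℝ) = 2 ^ 5 by norm_num, Real.logb_pow]
      norm_num
    rw [h32]
    have h33 : 5 + Real.logb 2 (A * δ ^ 2) + K = Real.logb 2 (A * δ ^ 2) + (K + 5) := by ring
    rw [h33]

end Pool.Agent.H45.NS
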