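import Pool.Agent.H45.NS.Stm

/-!
Definitions for the theorem on the numbers of the scales with small and with large dissipation.
-/

set_option autoImplicit false

open MeasureTheory Set Metric
open scoped ContDiff ENNReal

namespace Pool.Agent.H45.NS

open H459R3.NS W221.NS Pool.Agent.Y8

/-- The scales `i`, `k ≤ i < n`, such that the dissipation in the backward cylinder of the size
`2⁻ⁱ` is at most `δ ν 2⁻ⁱ`. -/
def GoodSc (δ ν : ℝ) (G : Set ℝ) (u : ℝ → V → V) (t : ℝ) (x : V) (k n : ℕ) : Set ℕ :=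
  {i | k ≤ i ∧ i < n ∧ Diss ν G u t x ((1 / 2) ^ i) ≤ ENNReal.ofReal (δ * ν * (1 / 2) ^ i)}

end Pool.Agent.H45.NS
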