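import Pool.Agent.H45.NS.B12
import Pool.Agent.H45.NS.B14
import Pool.Agent.H45.NS.Stm2

/-!
The numbers of the scales with small and with large dissipation: general viscosity, end time.
-/

set_option autoImplicit false

open MeasureTheory Set Metric
open scoped ContDiff ENNReal

namespace Pool.Agent.H45.NS

open H459R3.NS W221.NS Pool.Agent.Y8 Pool.Agent.N977.H Pool.Agent.N976.TL

theorem GoodSc_fin (ε ν : ℝ) (G : Set ℝ) (u : ℝ → V → V) (t : ℝ) (x : V) (k n : ℕ) :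
    (GoodSc ε ν G u t x k n).Finite :=
  (Set.finite_Iio n).subset fun _ hi => hi.2.1

/-- The numbers for a general viscosity. -/
theorem qsrGN (η : ℝ) (hη : 0 < η) (hη1 : η ≤ 1) : ∃ ε c K C : ℝ, 0 < ε ∧ ε ≤ 1 ∧ ε ^ 2 ≤ c ∧ 0 < K ∧
    0 < C ∧
    ∀ (ν T E D : ℝ) (G : Set ℝ) (u : ℝ → V → V) (q : ℝ → V → ℝ), 0 < ν → IsOpen G →
    Turb 1 T E D {t | t / ν ∈ G} (fun t x => ν⁻¹ • u (t / ν) x) q →
    ∀ (t₀ : ℝ) (x₀ : V) (k n : ℕ), ν * t₀ ∈ Ioo 0 T → k ≤ n → 2 * rr k ^ 2 < ν * t₀ →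
      ∀ A : ℝ, 1 ≤ A → (∀ s ∈ G, s < t₀ → ν * (t₀ - s) < rr k ^ 2 →
        A2 x₀ (rr k * 4) (u s) ≤ A * ν ^ 2 * rr k) → ∀ δ : ℝ, 0 < δ → δ ≤ ε →
      (¬ SingPt G u t₀ x₀ ∧ ∀ s ∈ G, s < t₀ → ν * (t₀ - s) < (δ * rr (n + 13)) ^ 2 →
        ∀ y ∈ ball x₀ (δ * rr (n + 14)), ‖u s y‖ ≤ C * ν * 2 ^ n / δ) ∨
      (2 - η) * ((GoodSc δ ν G u t₀ x₀ k n).ncard : ℝ)
        ≤ ((BadSc (c / δ) ν G u t₀ x₀ k n).ncard : ℝ) + max 0 (Real.logb 2 (A * δ ^ 2) + K) := by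
  obtain ⟨ε, c, K, C, hε, hε1, hεc, hK, hC, h⟩ := qsrG η hη hη1
  refine ⟨ε, c, K, C, hε, hε1, hεc, hK, hC, ?_⟩
  intro ν T E D G u q hν hG h1 t₀ x₀ k n ht₀ hkn hkt A hA1 hA δ hδ hδε
  have hloc : ∀ t ∈ Wb (ν * t₀) k ∩ {t | t / ν ∈ G},
      EE (fun x => ν⁻¹ • u (t / ν) x) x₀ k ≤ A := by
    rintro t ⟨ht, htG⟩
    have e1 : ν * (t / ν) = t := by field_simp
    have h3 := hA (t / ν) htG (by
      rw [div_lt_iff₀ hν, mul_comm]
      exact ht.2) (by
      rw [mul_sub, e1]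
      have := ht.1
      linarith)
    have e2 : A2 x₀ (rr k * 4) (fun x => ν⁻¹ • u (t / ν) x)
        = ν⁻¹ ^ 2 * A2 x₀ (rr k * 4) (u (t / ν)) := by
      unfold A2
      rw [← integral_const_mul]
      exact integral_congr_ae (Filter.Eventually.of_forall fun x =>
        Pool.Agent.Y96.NS.nsq_sm ν⁻¹ (u (t / ν)) x)
    have hr := rr0 k
    unfold EE
    rw [e2]
    calc (rr k)⁻¹ * (ν⁻¹ ^ 2 * A2 x₀ (rr k * 4) (u (t / ν)))
        ≤ (rr k)⁻¹ * (ν⁻¹ ^ 2 * (A * ν ^ 2 * rr k)) := by gcongr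
      _ = A := by field_simp
  rcases h _ _ _ _ _ _ h1 (ν * t₀) x₀ k n ht₀ hkn hkt A hA1 hloc δ hδ hδε with ⟨h3, h4⟩ | h3
  · left
    refine ⟨fun hs => h3 (sing_sc hν hs), ?_⟩
    intro s hs hst hs2 y hy
    have e1 : ν * s / ν = s := by field_simp
    have h5 := h4 (ν * s) (by
      show ν * s / ν ∈ G
      rw [e1]
      exact hs) (mul_lt_mul_of_pos_left hst hν) (by linarith) y hy
    simp only [e1] at h5
    rw [norm_smul, Real.norm_eq_abs, abs_of_pos (inv_pos.2 hν), inv_mul_le_iff₀ hν] at h5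
    refine h5.trans (le_of_eq ?_)
    ring
  · right
    -- the scaled dissipation
    have hTh : ∀ i, Th {t | t / ν ∈ G} (fun t x => ν⁻¹ • u (t / ν) x) (ν * t₀, x₀) i
        = 2 ^ i * (ENNReal.ofReal ν⁻¹ * Diss ν G u t₀ x₀ ((1 / 2) ^ i)).toReal := by
      intro i
      unfold Th mb
      rw [diss_scale hν hG h1]
      rfl
    have hthr : ∀ (i : ℕ) (a : ℝ), ENNReal.ofReal ν⁻¹ * ENNReal.ofReal (a * ν * (1 / 2) ^ i)
        = ENNReal.ofReal (a * (1 / 2) ^ i) := by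
      intro i a
      rw [← ENNReal.ofReal_mul (by positivity)]
      congr 1
      field_simp
    have h2i : ∀ (i : ℕ) (a : ℝ), (2 : ℝ) ^ i * (a * (1 / 2) ^ i) = a := by
      intro i a
      have : (2 : ℝ) ^ i * (1 / 2) ^ i = 1 := by
        rw [← mul_pow]
        norm_num
      calc (2 : ℝ) ^ i * (a * (1 / 2) ^ i) = a * (2 ^ i * (1 / 2) ^ i) := by ring
        _ = a := by rw [this, mul_one]
    have hup : ∀ (i : ℕ) (a : ℝ), 0 < a →
        Diss ν G u t₀ x₀ ((1 / 2) ^ i) ≤ ENNReal.ofReal (a * ν * (1 / 2) ^ i) →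
        Th {t | t / ν ∈ G} (fun t x => ν⁻¹ • u (t / ν) x) (ν * t₀, x₀) i ≤ a := by
      intro i a ha hle
      have h7 : ENNReal.ofReal ν⁻¹ * Diss ν G u t₀ x₀ ((1 / 2) ^ i)
          ≤ ENNReal.ofReal (a * (1 / 2) ^ i) := by
        rw [← hthr]
        exact mul_le_mul_right hle _
      have h8 := ENNReal.toReal_mono ENNReal.ofReal_ne_top h7
      rw [ENNReal.toReal_ofReal (by positivity)] at h8
      have h9 := mul_le_mul_of_nonneg_left h8 (show (0 : ℝ) ≤ 2 ^ i by positivity)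
      rw [h2i] at h9
      rw [hTh]
      exact h9
    have hcd : 0 < c / δ := by
      have : 0 < ε ^ 2 := by positivity
      exact div_pos (by linarith) hδ
    have h5 : (GoodSc δ ν G u t₀ x₀ k n).ncard ≤ ((Finset.Ico k n).filter (fun i =>
        Th {t | t / ν ∈ G} (fun t x => ν⁻¹ • u (t / ν) x) (ν * t₀, x₀) i ≤ δ)).card := by
      rw [← Set.ncard_coe_finset]
      apply Set.ncard_le_ncard _ (Finset.finite_toSet _)
      intro i hi
      rw [Finset.mem_coe, Finset.mem_filter, Finset.mem_Ico]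
      exact ⟨⟨hi.1, hi.2.1⟩, hup i δ hδ hi.2.2⟩
    have h6 : ((Finset.Ico k n).filter (fun i => c / δ < Th {t | t / ν ∈ G}
        (fun t x => ν⁻¹ • u (t / ν) x) (ν * t₀, x₀) i)).card
        ≤ (BadSc (c / δ) ν G u t₀ x₀ k n).ncard := by
      rw [← Set.ncard_coe_finset]
      apply Set.ncard_le_ncard _ (BadSc_fin _ _ _ _ _ _ _ _)
      intro i hi
      rw [Finset.mem_coe, Finset.mem_filter, Finset.mem_Ico] at hi
      refine ⟨hi.1.1, hi.1.2, ?_⟩
      by_contra hcon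
      push Not at hcon
      exact absurd (hup i (c / δ) hcd hcon) (not_le.2 hi.2)
    have h7 : ((GoodSc δ ν G u t₀ x₀ k n).ncard : ℝ) ≤ (((Finset.Ico k n).filter (fun i =>
        Th {t | t / ν ∈ G} (fun t x => ν⁻¹ • u (t / ν) x) (ν * t₀, x₀) i ≤ δ)).card : ℝ) := by
      exact_mod_cast h5
    have h8 : (((Finset.Ico k n).filter (fun i => c / δ < Th {t | t / ν ∈ G}
        (fun t x => ν⁻¹ • u (t / ν) x) (ν * t₀, x₀) i)).card : ℝ)
        ≤ ((BadSc (c / δ) ν G u t₀ x₀ k n).ncard : ℝ) := by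
      exact_mod_cast h6
    have h9 := mul_le_mul_of_nonneg_left h7 (show (0 : ℝ) ≤ 2 - η by linarith)
    linarith

/-- Inner times. -/
theorem qsrGI (η : ℝ) (hη : 0 < η) (hη1 : η ≤ 1) : ∃ ε c K C : ℝ, 0 < ε ∧ ε ≤ 1 ∧ ε ^ 2 ≤ c ∧ 0 < K ∧
    0 < C ∧
    ∀ (ν T : ℝ) (G : Set ℝ) (u : ℝ → V → V) (p : ℝ → V → ℝ), 0 < ν → WeakOrSmooth ν T G u p →
    ∀ (t₀ : ℝ) (x₀ : V) (k n : ℕ), t₀ ∈ Ioo 0 T → k ≤ n → 2 * rr k ^ 2 < ν * t₀ →
      ∀ A : ℝ, 1 ≤ A → (∀ s ∈ G, s < t₀ → ν * (t₀ - s) < rr k ^ 2 →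
        A2 x₀ (rr k * 4) (u s) ≤ A * ν ^ 2 * rr k) → ∀ δ : ℝ, 0 < δ → δ ≤ ε →
      (¬ SingPt G u t₀ x₀ ∧ ∀ s ∈ G, s < t₀ → ν * (t₀ - s) < (δ * rr (n + 13)) ^ 2 →
        ∀ y ∈ ball x₀ (δ * rr (n + 14)), ‖u s y‖ ≤ C * ν * 2 ^ n / δ) ∨
      (2 - η) * ((GoodSc δ ν G u t₀ x₀ k n).ncard : ℝ)
        ≤ ((BadSc (c / δ) ν G u t₀ x₀ k n).ncard : ℝ) + max 0 (Real.logb 2 (A * δ ^ 2) + K) := by
  obtain ⟨ε, c, K, C, hε, hε1, hεc, hK, hC, h⟩ := qsrGN η hη hη1
  refine ⟨ε, c, K, C, hε, hε1, hεc, hK, hC, ?_⟩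
  intro ν T G u p hν hN t₀ x₀ k n ht₀ hkn hkt A hA1 hA δ hδ hδε
  obtain ⟨G', T₁, E, D, t₁, q, hG', ht₁, hGG, hT, hνt⟩ := wos_turb hν hN ht₀
  have hD : ∀ i : ℕ, Diss ν G' u t₀ x₀ ((1 / 2) ^ i) = Diss ν G u t₀ x₀ ((1 / 2) ^ i) :=
    fun i => Diss_congr (fun s hs => (hGG s (hs.trans ht₁)).symm) x₀ ((1 / 2) ^ i)
  have hB : BadSc (c / δ) ν G' u t₀ x₀ k n = BadSc (c / δ) ν G u t₀ x₀ k n := by
    ext i
    unfold BadSc
    rw [Set.mem_ofPred_eq, Set.mem_ofPred_eq, hD]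
  have hB' : GoodSc δ ν G' u t₀ x₀ k n = GoodSc δ ν G u t₀ x₀ k n := by
    ext i
    unfold GoodSc
    rw [Set.mem_ofPred_eq, Set.mem_ofPred_eq, hD]
  rcases h ν T₁ E D G' u q hν hG' hT t₀ x₀ k n hνt hkn hkt A hA1
    (fun s hs hst => hA s ((hGG s (hst.trans ht₁)).2 hs) hst) δ hδ hδε with ⟨h1, h2⟩ | h1
  · left
    refine ⟨fun hs => h1 ?_, fun s hs hst => h2 s ((hGG s (hst.trans ht₁)).1 hs) hst⟩
    intro δ hδ B
    obtain ⟨s, hsG, hst, y, hy, hyB⟩ := hs (min δ (t₁ - t₀)) (lt_min hδ (by linarith)) B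
    have h3 := (abs_lt.1 (lt_of_lt_of_le hst (min_le_right _ _))).2
    exact ⟨s, (hGG s (by linarith)).1 hsG, lt_of_lt_of_le hst (min_le_left _ _), y,
      ball_subset_ball (min_le_left _ _) hy, hyB⟩
  · right
    rwa [hB, hB'] at h1

/-- The sets of scales at a time and at the end. -/
theorem sc_end {ν δ c t t₀ : ℝ} {G : Set ℝ} {u : ℝ → V → V} {x₀ : V} {k n : ℕ} (hν : 0 < ν)
    (hδ : 0 < δ) (htt : t < t₀) (ht2 : ν * (t₀ - t) < 3 * rr (n + 1) ^ 2) :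
    (GoodSc δ ν G u t₀ x₀ k n).ncard ≤ (GoodSc (2 * δ) ν G u t x₀ (k + 1) (n + 1)).ncard ∧
    (BadSc (c / (2 * δ)) ν G u t x₀ (k + 1) (n + 1)).ncard
      ≤ (BadSc (c / 4 / δ) ν G u t₀ x₀ k n).ncard := by
  have hcyl : ∀ j, j + 1 ≤ n + 1 →
      Diss ν G u t x₀ ((1 / 2) ^ (j + 1)) ≤ Diss ν G u t₀ x₀ ((1 / 2) ^ j) := by
    intro j hj
    refine lintegral_mono_set ?_
    rintro q ⟨hq1, hq2, hq3, hq4⟩
    have h5 : rr (n + 1) ^ 2 ≤ rr (j + 1) ^ 2 :=
      pow_le_pow_left₀ (rr0 _).le (rr_anti (by omega)) 2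
    have e2 : ((1 : ℝ) / 2) ^ (j + 1) = rr (j + 1) := rfl
    have e3 : ((1 : ℝ) / 2) ^ j = 2 * rr (j + 1) := by
      unfold rr
      rw [pow_succ]
      ring
    rw [e2] at hq3 hq4
    refine ⟨hq1, hq2.trans htt, ?_, ?_⟩
    · rw [e3, mul_pow]
      nlinarith
    · rw [e3]
      have := rr0 (j + 1)
      linarith
  constructor
  · refine Set.ncard_le_ncard_of_injOn (fun i => i + 1) ?_ ?_ (GoodSc_fin _ _ _ _ _ _ _ _)
    · rintro j ⟨hj1, hj2, hj3⟩
      refine ⟨by simp; omega, by simp; omega, ?_⟩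
      have e1 : 2 * δ * ν * (1 / 2) ^ (j + 1) = δ * ν * (1 / 2) ^ j := by
        rw [pow_succ]
        ring
      rw [e1]
      exact (hcyl j (by omega)).trans hj3
    · rintro i _ j _ hij
      simp only at hij
      omega
  · refine Set.ncard_le_ncard_of_injOn (fun i => i - 1) ?_ ?_ (BadSc_fin _ _ _ _ _ _ _ _)
    · rintro i ⟨hi1, hi2, hi3⟩
      obtain ⟨j, rfl⟩ : ∃ j, i = j + 1 := ⟨i - 1, by omega⟩
      refine ⟨by simp; omega, by simp; omega, ?_⟩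
      simp only [Nat.add_sub_cancel]
      have e1 : c / 4 / δ * ν * (1 / 2) ^ j = c / (2 * δ) * ν * (1 / 2) ^ (j + 1) := by
        rw [pow_succ]
        field_simp
        ring
      rw [e1]
      exact hi3.trans_le (hcyl j (by omega))
    · rintro i ⟨hi1, _, _⟩ j ⟨hj1, _, _⟩ hij
      simp only at hij
      omega

/-- All times up to the end. -/
theorem qsrGF (η : ℝ) (hη : 0 < η) (hη1 : η ≤ 1) : ∃ ε c K : ℝ, 0 < ε ∧ ε ^ 2 ≤ c ∧ 0 < K ∧
    ∀ (ν T : ℝ) (G : Set ℝ) (u : ℝ → V → V) (p : ℝ → V → ℝ), 0 < ν → WeakOrSmooth ν T G u p →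
    ∀ (t₀ : ℝ) (x₀ : V) (k n : ℕ), 0 < t₀ → t₀ ≤ T → k ≤ n → 2 * rr k ^ 2 < ν * t₀ →
      ∀ A : ℝ, 1 ≤ A → (∀ s ∈ G, s < t₀ → ν * (t₀ - s) < rr k ^ 2 →
        A2 x₀ (rr k * 4) (u s) ≤ A * ν ^ 2 * rr k) → ∀ δ : ℝ, 0 < δ → δ ≤ ε →
      (¬ SingPt G u t₀ x₀ ∧ ∀ s ∈ G, s < t₀ → K * ν * (t₀ - s) * 4 ^ n < δ ^ 2 →
        ∀ y, K * ‖y - x₀‖ * 2 ^ n < δ → ‖u s y‖ ≤ K * ν * 2 ^ n / δ) ∨
      (2 - η) * ((GoodSc δ ν G u t₀ x₀ k n).ncard : ℝ)
        ≤ ((BadSc (c / δ) ν G u t₀ x₀ k n).ncard : ℝ) + max 0 (Real.logb 2 (A * δ ^ 2) + K) := by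
  obtain ⟨ε, c, K, C, hε, hε1, hεc, hK, hC, h⟩ := qsrGI η hη hη1
  have hc : 0 < c := by
    have : 0 < ε ^ 2 := by positivity
    linarith
  refine ⟨ε / 2, c / 4, K + 3 + 2 * C + 4 ^ 14, by positivity, by
    rw [div_pow]
    linarith, by positivity, ?_⟩
  intro ν T G u p hν hN t₀ x₀ k n ht0 htT hkn hkt A hA1 hA δ hδ hδε
  have hGs := wos_sub hN
  have hK0 : 0 < K + 3 + 2 * C + 4 ^ 14 := by positivity
  have h2n : (0 : ℝ) < 2 ^ n := by positivity
  have h4n : (0 : ℝ) < 4 ^ n := by positivity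
  have hrn : rr n = (2 ^ n)⁻¹ := by
    unfold rr
    rw [one_div, inv_pow]
  have hrn2 : rr n ^ 2 = (4 ^ n)⁻¹ := by
    rw [hrn, inv_pow, ← pow_mul, mul_comm, pow_mul]
    norm_num
  -- the time and the space conditions
  have htime : ∀ s, (K + 3 + 2 * C + 4 ^ 14) * ν * (t₀ - s) * 4 ^ n < δ ^ 2 → s < t₀ →
      ν * (t₀ - s) < (δ * rr (n + 14)) ^ 2 := by
    intro s hs hst
    have e : (δ * rr (n + 14)) ^ 2 = δ ^ 2 * (rr n ^ 2 * (4 ^ 14)⁻¹) := by
      unfold rr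
      rw [pow_add, mul_pow, mul_pow]
      norm_num
    have h0 : 0 < ν * (t₀ - s) := mul_pos hν (by linarith)
    rw [e, hrn2, ← mul_inv, ← div_eq_mul_inv, lt_div_iff₀ (by positivity)]
    calc ν * (t₀ - s) * (4 ^ n * 4 ^ 14) = 4 ^ 14 * ν * (t₀ - s) * 4 ^ n := by ring
      _ ≤ (K + 3 + 2 * C + 4 ^ 14) * ν * (t₀ - s) * 4 ^ n := by
          rw [mul_assoc _ ν, mul_assoc _ ν]
          gcongr
          have : 0 < K + 3 + 2 * C := by positivity
          linarith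
      _ < δ ^ 2 := hs
  have hspace : ∀ y, (K + 3 + 2 * C + 4 ^ 14) * ‖y - x₀‖ * 2 ^ n < δ →
      y ∈ ball x₀ (δ * rr (n + 15)) := by
    intro y hy
    rw [mem_ball, dist_eq_norm]
    have e : δ * rr (n + 15) = δ * (rr n * (2 ^ 15)⁻¹) := by
      unfold rr
      rw [pow_add]
      norm_num
    rw [e, hrn, ← mul_inv, ← div_eq_mul_inv, lt_div_iff₀ (by positivity)]
    have hn0 := norm_nonneg (y - x₀)
    calc ‖y - x₀‖ * (2 ^ n * 2 ^ 15) = 2 ^ 15 * ‖y - x₀‖ * 2 ^ n := by ring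
      _ ≤ (K + 3 + 2 * C + 4 ^ 14) * ‖y - x₀‖ * 2 ^ n := by
          gcongr
          have : 0 < K + 3 + 2 * C := by positivity
          norm_num
          linarith
      _ < δ := hy
  have hbadm : ((BadSc (c / δ) ν G u t₀ x₀ k n).ncard : ℝ)
      ≤ ((BadSc (c / 4 / δ) ν G u t₀ x₀ k n).ncard : ℝ) := by
    exact_mod_cast BadSc_mono hν (div_le_div_of_nonneg_right (by linarith) hδ.le) G u t₀ x₀ k n
  rcases lt_or_eq_of_le htT with htT | htT
  · -- inner times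
    rcases h ν T G u p hν hN t₀ x₀ k n ⟨ht0, htT⟩ hkn hkt A hA1 hA δ hδ (by linarith)
      with ⟨h1, h2⟩ | h1
    · left
      refine ⟨h1, fun s hs hst h3 y hy => ?_⟩
      have h5 : (δ * rr (n + 14)) ^ 2 ≤ (δ * rr (n + 13)) ^ 2 :=
        pow_le_pow_left₀ (mul_nonneg hδ.le (rr0 _).le)
          (mul_le_mul_of_nonneg_left (rr_anti (by omega)) hδ.le) 2
      have h4 := h2 s hs hst ((htime s h3 hst).trans_le h5) y
        (ball_subset_ball (mul_le_mul_of_nonneg_left (rr_anti (by omega)) hδ.le) (hspace y hy))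
      refine h4.trans ?_
      gcongr
      have : 0 < K + 3 + 4 ^ 14 := by positivity
      linarith
    · right
      have h2 : max 0 (Real.logb 2 (A * δ ^ 2) + K)
          ≤ max 0 (Real.logb 2 (A * δ ^ 2) + (K + 3 + 2 * C + 4 ^ 14)) := by
        apply max_le_max le_rfl
        have : (0 : ℝ) < 3 + 2 * C + 4 ^ 14 := by positivity
        linarith
      exact h1.trans (add_le_add hbadm h2)
  · -- the end
    by_cases hex : ∃ t ∈ Ioo 0 T, t₀ / 4 < t ∧ ν * (t₀ - t) < 3 * rr (n + 1) ^ 2 ∧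
        (2 - η) * ((GoodSc (2 * δ) ν G u t x₀ (k + 1) (n + 1)).ncard : ℝ)
          ≤ ((BadSc (c / (2 * δ)) ν G u t x₀ (k + 1) (n + 1)).ncard : ℝ)
            + max 0 (Real.logb 2 (2 * A * (2 * δ) ^ 2) + K)
    · right
      obtain ⟨t, ht, -, ht2, h1⟩ := hex
      obtain ⟨h2, h3⟩ := sc_end (c := c) (G := G) (u := u) (x₀ := x₀) (k := k) hν hδ
        (by rw [htT]; exact ht.2) ht2
      have h4 : ((GoodSc δ ν G u t₀ x₀ k n).ncard : ℝ)
          ≤ ((GoodSc (2 * δ) ν G u t x₀ (k + 1) (n + 1)).ncard : ℝ) := by exact_mod_cast h2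
      have h5 : ((BadSc (c / (2 * δ)) ν G u t x₀ (k + 1) (n + 1)).ncard : ℝ)
          ≤ ((BadSc (c / 4 / δ) ν G u t₀ x₀ k n).ncard : ℝ) := by exact_mod_cast h3
      have e4 : Real.logb 2 (2 * A * (2 * δ) ^ 2) = 3 + Real.logb 2 (A * δ ^ 2) := by
        rw [show 2 * A * (2 * δ) ^ 2 = 2 ^ 3 * (A * δ ^ 2) by ring,
          Real.logb_mul (by norm_num) (by positivity), Real.logb_pow]
        norm_num
      rw [e4] at h1
      have h6 : max 0 (3 + Real.logb 2 (A * δ ^ 2) + K)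
          ≤ max 0 (Real.logb 2 (A * δ ^ 2) + (K + 3 + 2 * C + 4 ^ 14)) := by
        apply max_le_max le_rfl
        have : (0 : ℝ) < 2 * C + 4 ^ 14 := by positivity
        linarith
      have h7 := mul_le_mul_of_nonneg_left h4 (show (0 : ℝ) ≤ 2 - η by linarith)
      exact h7.trans (h1.trans (add_le_add h5 h6))
    · left
      push Not at hex
      have hr1 := rr0 (n + 1)
      have h2δ : 0 < 2 * δ := by positivity
      -- the bound
      have hbd : ∀ s ∈ G, s < t₀ → ν * (t₀ - s) < (δ * rr (n + 14)) ^ 2 →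
          ∀ y ∈ ball x₀ (δ * rr (n + 15)), ‖u s y‖ ≤ C * ν * 2 ^ (n + 1) / (2 * δ) := by
        intro s hs hst hs2 y hy
        have h0 : ∃ t, t₀ / 4 < t ∧ s < t ∧ t < t₀ ∧ ν * (t₀ - t) < 3 * rr (n + 1) ^ 2 := by
          have h6 : max (max (t₀ / 4) s) (t₀ - rr (n + 1) ^ 2 / ν) < t₀ := by
            refine max_lt (max_lt (by linarith) hst) ?_
            have : 0 < rr (n + 1) ^ 2 / ν := by positivity
            linarith
          obtain ⟨t, ht1, ht2⟩ := exists_between h6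
          refine ⟨t, ((le_max_left _ _).trans (le_max_left _ _)).trans_lt ht1,
            ((le_max_right _ _).trans (le_max_left _ _)).trans_lt ht1, ht2, ?_⟩
          have h7 := (le_max_right _ _).trans_lt ht1
          have h8 : t₀ - t < rr (n + 1) ^ 2 / ν := by linarith
          rw [lt_div_iff₀ hν] at h8
          have : 0 < rr (n + 1) ^ 2 := by positivity
          linarith
        obtain ⟨t, ht1, hst', ht2, ht3⟩ := h0
        have htI : t ∈ Ioo 0 T := ⟨by linarith, by rw [← htT]; exact ht2⟩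
        have hk1 : rr (k + 1) ^ 2 = rr k ^ 2 / 4 := by
          unfold rr
          rw [pow_succ]
          ring
        have hk2 : rr (n + 1) ^ 2 ≤ rr (k + 1) ^ 2 :=
          pow_le_pow_left₀ (rr0 _).le (rr_anti (by omega)) 2
        rcases h ν T G u p hν hN t x₀ (k + 1) (n + 1) htI (by omega) (by
            rw [hk1]
            have := mul_lt_mul_of_pos_left ht1 hν
            linarith) (2 * A) (by linarith) (by
            intro s' hs' hst2 hs3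
            have e5 : rr (k + 1) * 4 ≤ rr k * 4 := by
              have := rr_anti (Nat.le_succ k)
              linarith
            refine (wos_A2_mono hN hs' x₀ e5).trans ?_
            have e6 : 2 * A * ν ^ 2 * rr (k + 1) = A * ν ^ 2 * rr k := by
              unfold rr
              rw [pow_succ]
              ring
            rw [e6]
            exact hA s' hs' (hst2.trans ht2) (by linarith)) (2 * δ) h2δ (by linarith)
            with ⟨_, h2⟩ | h1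
        · refine h2 s hs hst' ?_ y ?_
          · have h9 : ν * (t - s) < ν * (t₀ - s) := mul_lt_mul_of_pos_left (by linarith) hν
            refine (h9.trans hs2).trans_le ?_
            have h10 : 0 < δ * rr (n + 1 + 13) := mul_pos hδ (rr0 _)
            apply pow_le_pow_left₀ (by show 0 ≤ δ * rr (n + 1 + 13); exact h10.le)
            show δ * rr (n + 1 + 13) ≤ 2 * δ * rr (n + 1 + 13)
            linarith
          · refine ball_subset_ball ?_ hy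
            have h10 : 0 < δ * rr (n + 1 + 14) := mul_pos hδ (rr0 _)
            show δ * rr (n + 1 + 14) ≤ 2 * δ * rr (n + 1 + 14)
            linarith
        · exact absurd h1 (not_le.2 (hex t htI ht1 ht3))
      refine ⟨?_, ?_⟩
      · intro hs
        obtain ⟨s, hsG, hst, y, hy, hyB⟩ := hs (min ((δ * rr (n + 14)) ^ 2 / ν) (δ * rr (n + 15)))
          (lt_min (div_pos (pow_pos (mul_pos hδ (rr0 _)) 2) hν) (mul_pos hδ (rr0 _)))
          (C * ν * 2 ^ (n + 1) / (2 * δ))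
        have hsT : s < t₀ := by rw [htT]; exact (hGs hsG).2
        have h3 := (abs_lt.1 (lt_of_lt_of_le hst (min_le_left _ _))).1
        have h4 : t₀ - s < (δ * rr (n + 14)) ^ 2 / ν := by linarith
        rw [lt_div_iff₀ hν] at h4
        exact absurd (hbd s hsG hsT (by linarith) y (ball_subset_ball (min_le_right _ _) hy))
          (not_le.2 hyB)
      · intro s hs hst h3 y hy
        refine (hbd s hs hst (htime s h3 hst) y (hspace y hy)).trans ?_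
        calc C * ν * 2 ^ (n + 1) / (2 * δ) = C * ν * 2 ^ n / δ := by
              rw [pow_succ]
              field_simp
          _ ≤ _ := by
              gcongr
              have : 0 < K + 3 + C + 4 ^ 14 := by positivity
              linarith

end Pool.Agent.H45.NS
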