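import Pool.Agent.H45.NS.B1

/-!
Backward cylinders: the estimate on the whole time interval (after Pool.Agent.N976.TL.A2).
-/

set_option autoImplicit false

open MeasureTheory Set Metric
open scoped ContDiff ENNReal

namespace Pool.Agent.H45.NS

open H459R3.NS W221.NS Pool.Agent.Y8 Pool.Agent.N977.H Pool.Agent.N976.TL

open Pool.Agent.N976.TL.A2 in
/-- The estimate at the level `i`. -/
theorem lvlB : ∃ C : ℝ, 0 < C ∧
  ∀ (T E D : ℝ) (G : Set ℝ) (u : ℝ → V → V) (p : ℝ → V → ℝ), Turb 1 T E D G u p →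
  ∀ (t₀ : ℝ) (x₀ y : V) (i : ℕ) (a e : ℝ), LvB T G u t₀ x₀ y i e → 0 ≤ a →
  (∀ t ∈ Wb t₀ i ∩ G, rr i * ‖mo (rr i) (u t) x₀‖ ≤ a) →
    (∫⁻ t in Wb t₀ (i + 1), ENNReal.ofReal (B2 x₀ (rr (i + 1)) (u t))
      ≤ ENNReal.ofReal (C * rr i * ((1 + a) * e + e ^ 2))) ∧
    ∀ t ∈ Wb t₀ (i + 1) ∩ G, Dc C (C * ((1 + a) * e + e ^ 2))
      (A2 0 4 (Y7.fr (rr i) (u t) x₀)) (Y7.fr (rr i) (u t) x₀) := by
  obtain ⟨C, c, hC, hc, hc2, H⟩ := winB
  have hK : 0 < 4 / c + 16 := by positivity
  refine ⟨C * (4 / c + 16), mul_pos hC hK, ?_⟩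
  intro T E D G u p hT t₀ x₀ y i a e hL ha hmo
  have he := hL.e0
  have hr := rr0 i
  obtain ⟨R, hR⟩ : ∃ R, R = rr i ^ 2 := ⟨_, rfl⟩
  have hR0 : 0 < R := by rw [hR]; positivity
  have h1ae : 0 < 1 + a + e := by linarith
  obtain ⟨h, hh⟩ : ∃ h, h = c / (1 + a + e) := ⟨_, rfl⟩
  have hh0 : 0 < h := by rw [hh]; positivity
  have hhc : h * (1 + a + e) = c := by rw [hh]; field_simp
  have hh2 : h ≤ 1 / 2 := by
    have : h ≤ c := by
      rw [hh, div_le_iff₀ h1ae]
      nlinarith
    linarith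
  have hq : (1 + a) * e + e ^ 2 = e * (1 + a + e) := by ring
  have heh : e / h = ((1 + a) * e + e ^ 2) / c := by
    rw [hq, ← hhc]
    field_simp
  have hS : rr (i + 1) ^ 2 = R / 4 := by rw [rrS, hR]; ring
  have hL' := hL.hF
  rw [← hR] at hL'
  have hWi : Wb t₀ i = Ioo (t₀ - R) t₀ := by unfold Wb; rw [hR]
  have hWi1 : Wb t₀ (i + 1) = Ioo (t₀ - R / 4) t₀ := by unfold Wb; rw [hS]
  have hHR := H T E D G u p hT t₀ x₀ y i a e hL ha hmo h hh0 hhc.le
  simp only [← hR] at hHR
  have hQ0 : 0 ≤ (1 + a) * e + e ^ 2 := by rw [hq]; positivity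
  have hhR : h * R ≤ R / 2 := by nlinarith
  have hhR0 : 0 < h * R := mul_pos hh0 hR0
  refine ⟨?_, ?_⟩
  swap
  · -- the second part
    rintro t ⟨ht, htG⟩
    rw [hWi1] at ht
    obtain ⟨s, hs⟩ : ∃ s, s = min (t + h * R / 16) t₀ := ⟨_, rfl⟩
    have hs1 : s ≤ t + h * R / 16 := by rw [hs]; exact min_le_left _ _
    have hs2 : s ≤ t₀ := by rw [hs]; exact min_le_right _ _
    have hs3 : t < s := by rw [hs]; exact lt_min (by linarith) ht.2
    have hsub : Ioo (s - h * R) s ⊆ Wb t₀ i := by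
      rw [hWi]
      exact Ioo_subset_Ioo (by linarith [ht.1]) hs2
    have h1 := (hHR s t e (by linarith [ht.1]) hs2
      ⟨by linarith, by linarith⟩ he ((lintegral_mono_set hsub).trans hL')).2 htG
      (by linarith) (by linarith)
    refine Dc_mono h1 ?_ ?_
    · have : (1 : ℝ) ≤ 4 / c + 16 := by
        have : 0 < 4 / c := by positivity
        linarith
      exact le_mul_of_one_le_right hC.le this
    · rw [mul_assoc]
      refine mul_le_mul_of_nonneg_left ?_ hC.le
      rw [heh]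
      have h2 : ((1 + a) * e + e ^ 2) / c ≤ 4 / c * ((1 + a) * e + e ^ 2) := by
        rw [div_mul_eq_mul_div]
        refine div_le_div_of_nonneg_right ?_ hc.le
        linarith
      have h3 : e ^ 2 ≤ 16 * ((1 + a) * e + e ^ 2) := by nlinarith [mul_nonneg ha he.le, sq_nonneg e]
      linarith
  · -- the first part
    obtain ⟨N, hN⟩ : ∃ N : ℕ, N = ⌈4 / (9 * h)⌉₊ := ⟨_, rfl⟩
    obtain ⟨δ, hδ⟩ : ∃ δ, δ = 9 / 16 * h * R := ⟨_, rfl⟩
    have hδ0 : 0 < δ := by rw [hδ]; positivity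
    have hN1 : 4 / (9 * h) ≤ N := by rw [hN]; exact Nat.le_ceil _
    have hN2 : (N : ℝ) < 4 / (9 * h) + 1 := by
      rw [hN]; exact Nat.ceil_lt_add_one (by positivity)
    have e1 : 4 / (9 * h) * δ = R / 4 := by rw [hδ]; field_simp; ring
    have hNδ1 : R / 4 ≤ N * δ := by rw [← e1]; exact mul_le_mul_of_nonneg_right hN1 hδ0.le
    have hNδ2 : N * δ ≤ R / 4 + δ := by
      have := mul_le_mul_of_nonneg_right hN2.le hδ0.le
      rw [add_mul, e1, one_mul] at this
      exact this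
    obtain ⟨b, hb⟩ : ∃ b, b = t₀ - (N + 1) * δ := ⟨_, rfl⟩
    have hδR : δ ≤ 9 / 32 * R := by rw [hδ]; nlinarith
    have hhδ : h * R ≤ 2 * δ := by rw [hδ]; nlinarith
    -- the integrals of F
    obtain ⟨F, hF⟩ : ∃ F : ℝ → ℝ≥0∞, F = fun τ => Y7.FtG (16 * rr i) G u (τ, y) := ⟨_, rfl⟩
    obtain ⟨s, hs⟩ : ∃ s : ℕ → ℝ, s = fun j : ℕ => b + ((j : ℝ) + 2) * δ := ⟨_, rfl⟩
    obtain ⟨I, hI⟩ : ∃ I : ℕ → ℝ≥0∞, I = fun j => ∫⁻ τ in Ioo (s j - h * R) (s j), F τ := ⟨_, rfl⟩
    have hIle : ∀ j, I j ≤ (∫⁻ τ in Ioo (b + j * δ) (b + (j + 1) * δ), F τ) +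
        ∫⁻ τ in Ioo (b + ((j + 1 : ℕ) : ℝ) * δ) (b + (((j + 1 : ℕ) : ℝ) + 1) * δ), F τ := by
      intro j
      rw [hI, ← lint_Ioo_Ioc F (b + j * δ)]
      refine le_trans (lintegral_mono_set ?_) (lintegral_union_le _ _ _)
      intro x hx
      simp only [hs] at hx
      by_cases hx' : x ≤ b + (j + 1) * δ
      · left
        exact ⟨by linarith [hx.1], hx'⟩
      · right
        push Not at hx'
        push_cast
        exact ⟨hx', by linarith [hx.2]⟩
    have hcov : Ioo b (b + ((N + 1 : ℕ) : ℝ) * δ) ⊆ Wb t₀ i := by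
      rw [hWi]
      intro x hx
      push_cast at hx
      constructor
      · have := hx.1; rw [hb] at this; linarith
      · have := hx.2; rw [hb] at this; linarith
    have hsumF : ∑ j ∈ Finset.range (N + 1), ∫⁻ τ in Ioo (b + j * δ) (b + (j + 1) * δ), F τ ≤
        ENNReal.ofReal (e / R) := by
      simp_rw [← lint_Ioo_Ioc F]
      rw [sum_Ioc F b δ hδ0.le, lint_Ioo_Ioc]
      refine (lintegral_mono_set hcov).trans ?_
      rw [hF]
      exact hL'
    have hsumI : ∑ j ∈ Finset.range N, I j ≤ 2 * ENNReal.ofReal (e / R) := by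
      calc ∑ j ∈ Finset.range N, I j ≤ ∑ j ∈ Finset.range N,
            ((∫⁻ τ in Ioo (b + j * δ) (b + (j + 1) * δ), F τ) +
            ∫⁻ τ in Ioo (b + ((j + 1 : ℕ) : ℝ) * δ) (b + (((j + 1 : ℕ) : ℝ) + 1) * δ), F τ) :=
            Finset.sum_le_sum fun j _ => hIle j
        _ = (∑ j ∈ Finset.range N, ∫⁻ τ in Ioo (b + j * δ) (b + (j + 1) * δ), F τ) +
            ∑ j ∈ Finset.range N, ∫⁻ τ in Ioo (b + ((j + 1 : ℕ) : ℝ) * δ)
              (b + (((j + 1 : ℕ) : ℝ) + 1) * δ), F τ := Finset.sum_add_distrib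
        _ ≤ ENNReal.ofReal (e / R) + ENNReal.ofReal (e / R) := by
            refine add_le_add ?_ ?_
            · refine le_trans ?_ hsumF
              rw [Finset.sum_range_succ]
              exact le_self_add
            · refine le_trans ?_ hsumF
              rw [Finset.sum_range_succ' _ N]
              exact le_self_add
        _ = _ := by rw [two_mul]
    have hfin : ∀ j ∈ Finset.range N, I j ≠ ⊤ := by
      intro j hj
      have h1 := Finset.single_le_sum (f := I) (fun _ _ => bot_le) hj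
      exact ((h1.trans hsumI).trans_lt (ENNReal.mul_lt_top (by norm_num) ENNReal.ofReal_lt_top)).ne
    have hsumR : ∑ j ∈ Finset.range N, (I j).toReal ≤ 2 * (e / R) := by
      rw [← ENNReal.toReal_sum hfin]
      have h1 := ENNReal.toReal_mono (ENNReal.mul_lt_top (by norm_num)
        (ENNReal.ofReal_lt_top (r := e / R))).ne hsumI
      rwa [ENNReal.toReal_mul, ENNReal.toReal_ofNat, ENNReal.toReal_ofReal (by positivity)] at h1
    obtain ⟨g, hg⟩ : ∃ g : ℕ → ℝ, g = fun j => R * (I j).toReal + e * h := ⟨_, rfl⟩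
    have hg0 : ∀ j, 0 < g j := by
      intro j
      rw [hg]
      have : 0 ≤ R * (I j).toReal := by positivity
      have := mul_pos he hh0
      show 0 < R * (I j).toReal + e * h
      linarith
    have hNh : (N : ℝ) * h ≤ 2 := by
      have h1 : (4 / (9 * h) + 1) * h = 4 / 9 + h := by field_simp
      have h2 := mul_le_mul_of_nonneg_right hN2.le hh0.le
      rw [h1] at h2
      linarith
    have hsumg : ∑ j ∈ Finset.range N, g j ≤ 4 * e := by
      rw [hg, Finset.sum_add_distrib, ← Finset.mul_sum, Finset.sum_const, Finset.card_range,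
        nsmul_eq_mul]
      have h1 : R * ∑ j ∈ Finset.range N, (I j).toReal ≤ R * (2 * (e / R)) :=
        mul_le_mul_of_nonneg_left hsumR hR0.le
      have h2 : R * (2 * (e / R)) = 2 * e := by field_simp
      have h3 : (N : ℝ) * (e * h) ≤ 2 * e := by
        have := mul_le_mul_of_nonneg_right hNh he.le
        linarith
      linarith
    -- the windows
    have hwin : ∀ j ∈ Finset.range N, ∫⁻ t in Ioc (b + ((j + 1 : ℕ) : ℝ) * δ)
        (b + (((j + 1 : ℕ) : ℝ) + 1) * δ), ENNReal.ofReal (B2 x₀ (rr (i + 1)) (u t)) ≤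
        ENNReal.ofReal (C * rr i * (g j / h + g j ^ 2)) := by
      intro j hj
      have hjN : (j : ℝ) + 1 ≤ N := by exact_mod_cast Finset.mem_range.1 hj
      have hj0 : (0 : ℝ) ≤ j := Nat.cast_nonneg j
      have hsj : s j = b + ((j : ℝ) + 2) * δ := by rw [hs]
      have h1 : t₀ - R ≤ s j - h * R := by
        rw [hsj, hb]
        have : 0 ≤ (j : ℝ) * δ := by positivity
        linarith
      have h2 : s j ≤ t₀ := by
        rw [hsj, hb]
        have : ((j : ℝ) + 1) * δ ≤ N * δ := mul_le_mul_of_nonneg_right hjN hδ0.le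
        linarith
      have h3 : ∫⁻ τ in Ioo (s j - h * R) (s j), Y7.FtG (16 * rr i) G u (τ, y) ≤
          ENNReal.ofReal (g j / R) := by
        have h4 : I j = ∫⁻ τ in Ioo (s j - h * R) (s j), Y7.FtG (16 * rr i) G u (τ, y) := by
          rw [hI, hF]
        rw [← h4, ← ENNReal.ofReal_toReal (hfin j hj)]
        refine ENNReal.ofReal_le_ofReal ?_
        rw [le_div_iff₀ hR0, hg]
        have := mul_pos he hh0
        show (I j).toReal * R ≤ R * (I j).toReal + e * h
        linarith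
      have h5 := (hHR (s j) (s j) (g j) h1 h2 ⟨by linarith, le_rfl⟩ (hg0 j) h3).1
      rw [lint_Ioo_Ioc]
      have h6 : b + ((j + 1 : ℕ) : ℝ) * δ = s j - 9 / 16 * h * R := by
        rw [hsj, ← hδ]; push_cast; ring
      have h7 : b + (((j + 1 : ℕ) : ℝ) + 1) * δ = s j := by
        rw [hsj]; push_cast; ring
      rw [h6, h7]
      exact h5
    have hcov2 : Wb t₀ (i + 1) ⊆ Ioc (b + δ) ((b + δ) + N * δ) := by
      rw [hWi1]
      intro x hx
      constructor
      · have := hx.1; rw [hb]; linarith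
      · have := hx.2; rw [hb]; linarith
    calc ∫⁻ t in Wb t₀ (i + 1), ENNReal.ofReal (B2 x₀ (rr (i + 1)) (u t))
        ≤ ∫⁻ t in Ioc (b + δ) ((b + δ) + N * δ), ENNReal.ofReal (B2 x₀ (rr (i + 1)) (u t)) :=
          lintegral_mono_set hcov2
      _ = ∑ j ∈ Finset.range N, ∫⁻ t in Ioc ((b + δ) + j * δ) ((b + δ) + (j + 1) * δ),
            ENNReal.ofReal (B2 x₀ (rr (i + 1)) (u t)) := (sum_Ioc _ _ _ hδ0.le N).symm
      _ ≤ ∑ j ∈ Finset.range N, ENNReal.ofReal (C * rr i * (g j / h + g j ^ 2)) := by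
          refine Finset.sum_le_sum fun j hj => ?_
          have h6 : (b + δ) + (j : ℝ) * δ = b + ((j + 1 : ℕ) : ℝ) * δ := by push_cast; ring
          have h7 : (b + δ) + ((j : ℝ) + 1) * δ = b + (((j + 1 : ℕ) : ℝ) + 1) * δ := by
            push_cast; ring
          rw [h6, h7]
          exact hwin j hj
      _ = ENNReal.ofReal (∑ j ∈ Finset.range N, C * rr i * (g j / h + g j ^ 2)) := by
          rw [ENNReal.ofReal_sum_of_nonneg]
          intro j _
          have := hg0 j
          positivity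
      _ ≤ ENNReal.ofReal (C * (4 / c + 16) * rr i * ((1 + a) * e + e ^ 2)) := by
          refine ENNReal.ofReal_le_ofReal ?_
          rw [← Finset.mul_sum, Finset.sum_add_distrib, ← Finset.sum_div]
          have h8 : ∑ j ∈ Finset.range N, g j ^ 2 ≤ (4 * e) ^ 2 := by
            have h13 : ∑ j ∈ Finset.range N, g j ^ 2 ≤
                ∑ j ∈ Finset.range N, g j * ∑ l ∈ Finset.range N, g l := by
              refine Finset.sum_le_sum fun j hj => ?_
              rw [sq]
              exact mul_le_mul_of_nonneg_left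
                (Finset.single_le_sum (fun l _ => (hg0 l).le) hj) (hg0 j).le
            rw [← Finset.sum_mul, ← sq] at h13
            exact h13.trans
              (pow_le_pow_left₀ (Finset.sum_nonneg fun j _ => (hg0 j).le) hsumg 2)
          have h9 : (∑ j ∈ Finset.range N, g j) / h ≤ 4 * e / h :=
            div_le_div_of_nonneg_right hsumg hh0.le
          have h10 : 4 * e / h = 4 / c * ((1 + a) * e + e ^ 2) := by
            rw [mul_div_assoc, heh]; ring
          have h11 : (4 * e) ^ 2 ≤ 16 * ((1 + a) * e + e ^ 2) := by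
            nlinarith [mul_nonneg ha he.le, sq_nonneg e]
          have h12 : C * (4 / c + 16) * rr i * ((1 + a) * e + e ^ 2) =
            C * rr i * (4 / c * ((1 + a) * e + e ^ 2) + 16 * ((1 + a) * e + e ^ 2)) := by ring
          rw [h12]
          refine mul_le_mul_of_nonneg_left ?_ (by positivity)
          linarith

end Pool.Agent.H45.NS
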