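import Pool.Agent.H45.NS.B2

/-!
Backward cylinders: the recursion (after Pool.Agent.N976.TL.A4), with the optimal rate.
-/

set_option autoImplicit false

open MeasureTheory Set Metric
open scoped ContDiff ENNReal

namespace Pool.Agent.H45.NS

open H459R3.NS W221.NS Pool.Agent.Y8 Pool.Agent.N977.H Pool.Agent.N976.TL

theorem Wb_mono {t₀ : ℝ} {i j : ℕ} (h : i ≤ j) : Wb t₀ j ⊆ Wb t₀ i := by
  have h2 : rr j ^ 2 ≤ rr i ^ 2 := pow_le_pow_left₀ (rr0 _).le (rr_anti h) 2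
  exact Ioo_subset_Ioo (by linarith) le_rfl

/-! ### Energies -/

lemma ball_vol4 (x : V) {r : ℝ} (hr : 0 < r) : volume.real (ball x (r * 4)) = (8 * r) ^ 3 := by
  rw [Measure.real, Real.volume_pi_ball _ (by positivity), ENNReal.toReal_ofReal (by positivity)]
  simp only [Fintype.card_fin]
  ring

/-- The energy of `w - c`. -/
lemma A2_sub_le {w : V → V} (hw : ContDiff ℝ ∞ w) (c x : V) {r : ℝ} (hr : 0 < r) :
    A2 x (r * 4) (fun z => w z - c) ≤ 2 * A2 x (r * 4) w + 6 * ‖c‖ ^ 2 * (8 * r) ^ 3 := by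
  have hc : Continuous (nsq w) := (nsq_sm hw).continuous
  have hc' : Continuous (nsq (fun z => w z - c)) := (nsq_sm (hw.sub contDiff_const)).continuous
  calc A2 x (r * 4) (fun z => w z - c)
      ≤ ∫ z in ball x (r * 4), (2 * nsq w z + 6 * ‖c‖ ^ 2) := by
        unfold A2
        refine setIntegral_mono (ballint hc' _ _)
          (ballint ((continuous_const.mul hc).add continuous_const) _ _) fun z => ?_
        exact A78.nsq_sub_le w _ z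
    _ = 2 * A2 x (r * 4) w + 6 * ‖c‖ ^ 2 * (8 * r) ^ 3 := by
        rw [integral_add ((ballint hc _ _).const_mul 2) (by
          rw [integrable_const_iff]
          right
          rw [isFiniteMeasure_restrict]
          exact measure_ball_lt_top.ne), integral_const_mul, setIntegral_const, ball_vol4 x hr,
          smul_eq_mul]
        unfold A2
        ring

/-- The scaled local energy. -/
noncomputable def EE (w : V → V) (x : V) (i : ℕ) : ℝ := (rr i)⁻¹ * A2 x (rr i * 4) w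

lemma EE_nonneg (w : V → V) (x : V) (i : ℕ) : 0 ≤ EE w x i :=
  mul_nonneg (inv_nonneg.2 (rr0 i).le) (A4.A2_nonneg _ _ _)

/-- The local energy is bounded by the scaled quantity. -/
lemma EE_XX {w : V → V} (hw : ContDiff ℝ ∞ w) (x : V) (i : ℕ) :
    EE w x i ≤ 3074 * XX w x i := by
  have hr := rr0 i
  obtain ⟨c, hc⟩ : ∃ c, c = mo (rr i) w x := ⟨_, rfl⟩
  have h1 := A2_sub_le (w := fun z => w z - c) (hw.sub contDiff_const) (-c) x hr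
  have e1 : (fun z => (fun z => w z - c) z - -c) = w := by
    funext z
    show w z - c - -c = w z
    abel
  rw [e1, norm_neg] at h1
  have h2 := A78.fr_eq (u := w) i x
  rw [← hc] at h2
  have h3 : A2 x (rr i * 4) (fun z => w z - c) = rr i * A2 0 4 (Y7.fr (rr i) w x) := by
    rw [h2]
    field_simp
  rw [h3] at h1
  have h4 : 6 * ‖c‖ ^ 2 * (8 * rr i) ^ 3 = 3072 * rr i * (rr i * ‖mo (rr i) w x‖) ^ 2 := by
    rw [hc]
    ring
  rw [h4] at h1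
  have h5 := A4.A2_nonneg 0 4 (Y7.fr (rr i) w x)
  unfold EE XX
  rw [inv_mul_le_iff₀ hr]
  nlinarith [mul_nonneg hr.le h5, mul_nonneg hr.le (sq_nonneg (rr i * ‖mo (rr i) w x‖))]

lemma A2_mono' {w : V → V} (hw : ContDiff ℝ ∞ w) {x x' : V} {r r' : ℝ}
    (h : ball x r ⊆ ball x' r') : A2 x r w ≤ A2 x' r' w :=
  setIntegral_mono_set (ballint (nsq_sm hw).continuous _ _)
    (Filter.Eventually.of_forall fun z => nsq_nn _ z) h.eventuallyLE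

/-- The scaled quantity is bounded by the local energy. -/
lemma XX_EE : ∃ C : ℝ, 1 ≤ C ∧ ∀ w : V → V, ContDiff ℝ ∞ w → ∀ (x : V) (i : ℕ),
    XX w x i ≤ C * EE w x i := by
  obtain ⟨K, hK, h⟩ := mo_sq
  refine ⟨2 + 3073 * K, by linarith, fun w hw x i => ?_⟩
  have hr := rr0 i
  have hA := A4.A2_nonneg x (rr i * 4) w
  have hm : ‖mo (rr i) w x‖ ^ 2 ≤ K * (rr i ^ 3)⁻¹ * A2 x (rr i * 4) w := by
    have h1 : ∀ j, mo (rr i) w x j ^ 2 ≤ K * (rr i ^ 3)⁻¹ * A2 x (rr i * 4) w := by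
      intro j
      refine (h w hw.continuous (rr i) x j hr).trans (mul_le_mul_of_nonneg_left ?_ (by positivity))
      refine (setIntegral_mono (ballint (((continuous_apply j).comp hw.continuous).pow 2) _ _)
        (ballint (nsq_sm hw).continuous _ _) fun z => comp_sq_le w z j).trans ?_
      exact A2_mono' hw (ball_subset_ball (by linarith))
    have h0 : 0 ≤ K * (rr i ^ 3)⁻¹ * A2 x (rr i * 4) w := by positivity
    have h4 : ‖mo (rr i) w x‖ ≤ √(K * (rr i ^ 3)⁻¹ * A2 x (rr i * 4) w) := by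
      rw [pi_norm_le_iff_of_nonneg (Real.sqrt_nonneg _)]
      intro j
      rw [Real.norm_eq_abs]
      exact Real.abs_le_sqrt (h1 j)
    calc ‖mo (rr i) w x‖ ^ 2 ≤ √(K * (rr i ^ 3)⁻¹ * A2 x (rr i * 4) w) ^ 2 :=
          pow_le_pow_left₀ (norm_nonneg _) h4 2
      _ = _ := Real.sq_sqrt h0
  have h1 := A2_sub_le hw (mo (rr i) w x) x hr
  unfold XX EE
  rw [A78.fr_eq, ← mul_assoc]
  have h2 : (rr i * ‖mo (rr i) w x‖) ^ 2 ≤ K * ((rr i)⁻¹ * A2 x (rr i * 4) w) := by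
    rw [mul_pow]
    calc rr i ^ 2 * ‖mo (rr i) w x‖ ^ 2 ≤ rr i ^ 2 * (K * (rr i ^ 3)⁻¹ * A2 x (rr i * 4) w) :=
          mul_le_mul_of_nonneg_left hm (by positivity)
      _ = _ := by field_simp
  have h3 : (rr i)⁻¹ * A2 x (rr i * 4) (fun z => w z - mo (rr i) w x)
      ≤ (2 + 3072 * K) * ((rr i)⁻¹ * A2 x (rr i * 4) w) := by
    have h5 : 6 * ‖mo (rr i) w x‖ ^ 2 * (8 * rr i) ^ 3
        ≤ 6 * (K * (rr i ^ 3)⁻¹ * A2 x (rr i * 4) w) * (8 * rr i) ^ 3 :=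
      mul_le_mul_of_nonneg_right (by linarith) (by positivity)
    calc (rr i)⁻¹ * A2 x (rr i * 4) (fun z => w z - mo (rr i) w x)
        ≤ (rr i)⁻¹ * (2 * A2 x (rr i * 4) w
          + 6 * (K * (rr i ^ 3)⁻¹ * A2 x (rr i * 4) w) * (8 * rr i) ^ 3) :=
          mul_le_mul_of_nonneg_left (by linarith) (by positivity)
      _ = _ := by
          field_simp
          ring
  calc _ ≤ K * ((rr i)⁻¹ * A2 x (rr i * 4) w)
        + (2 + 3072 * K) * ((rr i)⁻¹ * A2 x (rr i * 4) w) := add_le_add h2 h3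
    _ = _ := by ring

/-- The trivial growth. -/
lemma EE_succ {w : V → V} (hw : ContDiff ℝ ∞ w) (x : V) (i : ℕ) : EE w x (i + 1) ≤ 2 * EE w x i := by
  have hr := rr0 i
  have h1 : A2 x (rr (i + 1) * 4) w ≤ A2 x (rr i * 4) w :=
    A2_mono' hw (ball_subset_ball (mul_le_mul_of_nonneg_right (rr_anti (Nat.le_succ i))
      (by norm_num)))
  unfold EE
  calc (rr (i + 1))⁻¹ * A2 x (rr (i + 1) * 4) w ≤ (rr (i + 1))⁻¹ * A2 x (rr i * 4) w :=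
        mul_le_mul_of_nonneg_left h1 (inv_nonneg.2 (rr0 _).le)
    _ = _ := by
        rw [rrS]
        field_simp

open Pool.Agent.N976.TL.A4 in
/-- The inequality between the numbers. -/
lemma num2 {C₂ C₃ A b b' A' X e : ℝ} {m : ℕ} (h2 : 0 < C₂) (h3 : 0 < C₃) (hA : 0 ≤ A) (hb : 0 ≤ b)
    (hb' : 0 ≤ b') (hX : 0 ≤ X) (hAX : A ≤ X) (hbX : b ≤ √X) (he : 0 < e)
    (h4 : A' ≤ C₃ * (2 ^ m * (C₂ * ((1 + √X) * e + e ^ 2)) + A / 16 ^ m))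
    (h5 : b' ≤ b / 2 ^ m + C₃ * (√(2 ^ m * (C₂ * ((1 + √X) * e + e ^ 2))) + √A / 2 ^ m)) :
    b' ^ 2 + A' ≤ (4 + 3 * C₃ ^ 2 + C₃) / 4 ^ m * X + ((3 * C₃ ^ 2 + C₃) * 2 ^ m * C₂
      + 4 ^ m * ((3 * C₃ ^ 2 + C₃) * 2 ^ m * C₂) ^ 2) * (e + e ^ 2) := by
  have hf : 0 ≤ 2 ^ m * (C₂ * ((1 + √X) * e + e ^ 2)) := by positivity
  obtain ⟨F, hF⟩ : ∃ F, F = 2 ^ m * (C₂ * ((1 + √X) * e + e ^ 2)) := ⟨_, rfl⟩
  rw [← hF] at h4 h5 hf
  have hp4 : (0:ℝ) < 4 ^ m := by positivity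
  have h42 : (4:ℝ) ^ m = (2 ^ m) ^ 2 := by rw [← pow_mul, mul_comm, pow_mul]; norm_num
  have h164 : (4:ℝ) ^ m ≤ 16 ^ m := pow_le_pow_left₀ (by norm_num) (by norm_num) m
  -- the square
  have h6 : b' ^ 2 ≤ 3 * (X / 4 ^ m + C₃ ^ 2 * F + C₃ ^ 2 * (X / 4 ^ m)) := by
    have e1 : b' ^ 2 ≤ (b / 2 ^ m + C₃ * √F + C₃ * (√A / 2 ^ m)) ^ 2 :=
      pow_le_pow_left₀ hb' (h5.trans (le_of_eq (by ring))) 2
    refine e1.trans ((sq3 _ _ _).trans ?_)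
    have e2 : (b / 2 ^ m) ^ 2 ≤ X / 4 ^ m := by
      rw [div_pow, ← h42]
      refine div_le_div_of_nonneg_right ?_ hp4.le
      calc b ^ 2 ≤ √X ^ 2 := pow_le_pow_left₀ hb hbX 2
        _ = X := Real.sq_sqrt hX
    have e3 : (C₃ * √F) ^ 2 = C₃ ^ 2 * F := by rw [mul_pow, Real.sq_sqrt hf]
    have e4 : (C₃ * (√A / 2 ^ m)) ^ 2 ≤ C₃ ^ 2 * (X / 4 ^ m) := by
      rw [mul_pow, div_pow, Real.sq_sqrt hA, ← h42]
      exact mul_le_mul_of_nonneg_left (div_le_div_of_nonneg_right hAX hp4.le) (sq_nonneg _)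
    rw [e3]
    linarith
  have h7 : A' ≤ C₃ * F + C₃ * (X / 4 ^ m) := by
    have e1 : A / 16 ^ m ≤ X / 4 ^ m :=
      (div_le_div_of_nonneg_right hAX (by positivity)).trans
        (div_le_div_of_nonneg_left hX hp4 h164)
    have e2 := mul_le_mul_of_nonneg_left e1 h3.le
    linarith
  have h9 : (4 + 3 * C₃ ^ 2 + C₃) / 4 ^ m * X =
      X / 4 ^ m + 3 * (X / 4 ^ m) + 3 * (C₃ ^ 2 * (X / 4 ^ m)) + C₃ * (X / 4 ^ m) := by ring
  obtain ⟨K, hK⟩ : ∃ K, K = (3 * C₃ ^ 2 + C₃) * 2 ^ m * C₂ := ⟨_, rfl⟩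
  rw [← hK]
  have h10 : (3 * C₃ ^ 2 + C₃) * F = K * ((1 + √X) * e + e ^ 2) := by rw [hF, hK]; ring
  have hK0 : 0 < K := by rw [hK]; positivity
  have h11 : K * (√X * e) ≤ X / 4 ^ m + 4 ^ m * K ^ 2 * e ^ 2 := by
    have e1 := Real.sq_sqrt hX
    have e2 : (2 : ℝ) ^ m ≠ 0 := by positivity
    have e3 : 0 ≤ (√X / 2 ^ m - 2 ^ m * K * e) ^ 2 := sq_nonneg _
    have e4 : (√X / 2 ^ m - 2 ^ m * K * e) ^ 2
        = X / 4 ^ m + 4 ^ m * K ^ 2 * e ^ 2 - 2 * (K * (√X * e)) := by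
      rw [h42]
      have e5 : X / (2 ^ m) ^ 2 = (√X / 2 ^ m) ^ 2 := by rw [div_pow, e1]
      rw [e5]
      field_simp
      ring
    rw [e4] at e3
    have e6 : 0 ≤ K * (√X * e) := by positivity
    linarith
  have h12 : 0 ≤ 4 ^ m * K ^ 2 * e := by positivity
  nlinarith

open Pool.Agent.N976.TL.A4 in
/-- The recursion. -/
theorem recB : ∃ P : ℝ, 1 ≤ P ∧ ∀ m : ℕ, 3 ≤ m → ∃ C : ℝ, 0 < C ∧
  ∀ (T E D : ℝ) (G : Set ℝ) (u : ℝ → V → V) (p : ℝ → V → ℝ), Turb 1 T E D G u p →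
  ∀ (t₀ : ℝ) (x₀ y : V) (i : ℕ) (e Z : ℝ), LvB T G u t₀ x₀ y i e → 0 ≤ Z →
  (∀ t ∈ Wb t₀ i ∩ G, EE (u t) x₀ i ≤ Z) →
    ∀ t ∈ Wb t₀ (i + m) ∩ G, EE (u t) x₀ (i + m) ≤ P / 4 ^ m * Z + C * (e + e ^ 2) := by
  obtain ⟨C₂, h2, H2⟩ := lvlB
  obtain ⟨C₃, h3, H3⟩ := t_A3 C₂ h2
  obtain ⟨Q, hQ, hXE⟩ := XX_EE
  refine ⟨3074 * ((4 + 3 * C₃ ^ 2 + C₃) * Q), ?_, ?_⟩
  · have e1 : 1 ≤ 4 + 3 * C₃ ^ 2 + C₃ := by nlinarith [sq_nonneg C₃]
    have e2 := one_le_mul_of_one_le_of_one_le e1 hQ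
    linarith
  intro m hm3
  obtain ⟨K, hK⟩ : ∃ K, K = (3 * C₃ ^ 2 + C₃) * 2 ^ m * C₂ := ⟨_, rfl⟩
  have hK0 : 0 < K := by rw [hK]; positivity
  refine ⟨3074 * (K + 4 ^ m * K ^ 2), by positivity, ?_⟩
  intro T E D G u p hN t₀ x₀ y i e Z hL hZ hZZ
  obtain ⟨X, hXd⟩ : ∃ X, X = Q * Z := ⟨_, rfl⟩
  have hX : 0 ≤ X := by rw [hXd]; positivity
  have hXX : ∀ t ∈ Wb t₀ i ∩ G, XX (u t) x₀ i ≤ X := fun t ht => by
    rw [hXd]
    exact (hXE (u t) (hN.spv ht.2).1 x₀ i).trans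
      (mul_le_mul_of_nonneg_left (hZZ t ht) (by linarith))
  have he := hL.e0
  have hr := rr0 i
  have hmo : ∀ t ∈ Wb t₀ i ∩ G, rr i * ‖mo (rr i) (u t) x₀‖ ≤ √X := by
    intro t ht
    have h4 := hXX t ht
    unfold XX at h4
    have h5 := A2_nonneg 0 4 (Y7.fr (rr i) (u t) x₀)
    exact Real.le_sqrt_of_sq_le (by linarith)
  have hA : ∀ t ∈ Wb t₀ i ∩ G, A2 0 4 (Y7.fr (rr i) (u t) x₀) ≤ X := by
    intro t ht
    have h4 := hXX t ht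
    unfold XX at h4
    have h5 := sq_nonneg (rr i * ‖mo (rr i) (u t) x₀‖)
    linarith
  obtain ⟨-, hD⟩ := H2 T E D G u p hN t₀ x₀ y i (√X) e hL (Real.sqrt_nonneg _) hmo
  intro t ht
  have ht1 : t ∈ Wb t₀ (i + 1) ∩ G := ⟨Wb_mono (by omega) ht.1, ht.2⟩
  have ht0 : t ∈ Wb t₀ i ∩ G := ⟨Wb_mono (by omega) ht.1, ht.2⟩
  have hsm := (hN.spv ht.2).1
  have h4 := H3 (u t) hsm i m x₀ (C₂ * ((1 + √X) * e + e ^ 2)) hm3 (by positivity)
    (hD t ht1)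
  have h5 := num2 h2 h3 (A2_nonneg 0 4 (Y7.fr (rr i) (u t) x₀))
    (mul_nonneg hr.le (norm_nonneg (mo (rr i) (u t) x₀)))
    (mul_nonneg (rr0 (i + m)).le (norm_nonneg (mo (rr (i + m)) (u t) x₀))) hX (hA t ht0)
    (hmo t ht0) he h4.1 h4.2
  rw [← hK] at h5
  refine (EE_XX hsm x₀ (i + m)).trans ?_
  have h6 : XX (u t) x₀ (i + m)
      ≤ (4 + 3 * C₃ ^ 2 + C₃) / 4 ^ m * X + (K + 4 ^ m * K ^ 2) * (e + e ^ 2) := h5
  refine (mul_le_mul_of_nonneg_left h6 (by norm_num)).trans (le_of_eq ?_)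
  rw [hXd]
  ring

end Pool.Agent.H45.NS
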