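import Pool.Agent.H45.NS.B4

/-!
Backward cylinders: small scaled quantities bound the velocity.
-/

set_option autoImplicit false

open MeasureTheory Set Metric
open scoped ContDiff ENNReal

namespace Pool.Agent.H45.NS

open H459R3.NS W221.NS Pool.Agent.Y8 Pool.Agent.N977.H Pool.Agent.N976.TL

section

variable {T E D : ℝ} {G : Set ℝ} {u : ℝ → V → V} {p : ℝ → V → ℝ} {t₀ : ℝ} {x₀ y : V} {i : ℕ}
  {e : ℝ}

lemma Wb_sub (h : LvB T G u t₀ x₀ y i e) : Wb t₀ i ⊆ Ioo 0 T := fun τ hτ =>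
  ⟨by have := h.lo; have := hτ.1; nlinarith [sq_nonneg (rr i)],
    by have := h.hi; linarith [hτ.2]⟩

/-- The function of the gradient in time. -/
lemma SSB (hN : Turb 1 T E D G u p) (h : LvB T G u t₀ x₀ y i e) :
    IntegrableOn (fun τ => (Y7.FtG (16 * rr i) G u (τ, y)).toReal) (Wb t₀ i) ∧
    ∫ τ in Wb t₀ i, (Y7.FtG (16 * rr i) G u (τ, y)).toReal ≤ e / rr i ^ 2 ∧
    ∀ᵐ τ ∂(volume.restrict (Wb t₀ i)), τ ∈ G ∧ Y7.FtG (16 * rr i) G u (τ, y) ≠ ⊤ := by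
  have hr := rr0 i
  have hmeas : Measurable fun τ => Y7.FtG (16 * rr i) G u (τ, y) :=
    (Y7.FtG_meas (16 * rr i) hN).comp (measurable_id.prodMk measurable_const)
  have h2 : ∫⁻ τ in Wb t₀ i, Y7.FtG (16 * rr i) G u (τ, y) ≠ ⊤ :=
    ne_top_of_le_ne_top ENNReal.ofReal_ne_top h.hF
  refine ⟨integrable_toReal_of_lintegral_ne_top hmeas.aemeasurable h2, ?_, ?_⟩
  · rw [integral_toReal hmeas.aemeasurable (ae_lt_top hmeas h2)]
    have h5 := ENNReal.toReal_mono ENNReal.ofReal_ne_top h.hF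
    rwa [ENNReal.toReal_ofReal (div_nonneg h.e0.le (sq_nonneg _))] at h5
  · have hae : ∀ᵐ t ∂(volume.restrict (Wb t₀ i)), t ∈ G := by
      rw [ae_restrict_iff' (show MeasurableSet (Wb t₀ i) from measurableSet_Ioo)]
      exact Pool.Agent.Y458.NS.sub_ae hN (Wb_sub h)
    filter_upwards [hae, ae_lt_top hmeas h2] with τ h3 h4
    exact ⟨h3, h4.ne⟩

end

/-- The path stays close. -/
theorem stay6B : ∃ K : ℝ, 0 < K ∧ ∀ (T E D : ℝ) (G : Set ℝ) (u : ℝ → V → V) (p : ℝ → V → ℝ),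
    Turb 1 T E D G u p → ∀ (t₀ : ℝ) (x₀ y : V) (i : ℕ) (e : ℝ), LvB T G u t₀ x₀ y i e →
    (∀ t ∈ Wb t₀ i ∩ G, rr i * ‖mo (rr i) (u t) x₀‖ ≤ √e) → K * √e < 1 / 256 →
    ∀ (X Y : ℝ → V) (B C : ℝ), FPath T (rr (i + 5)) B C G u p X Y →
    X t₀ = x₀ → ∀ t ∈ Wb t₀ i, ‖X t - x₀‖ ≤ rr (i + 8) := by
  obtain ⟨K₁, hK₁, hmo⟩ := moL
  refine ⟨2 + 4 * K₁, by positivity, ?_⟩
  intro T E D G u p hN t₀ x₀ y i e h ha hKe X Y B C hX hX0 t ht
  by_contra hcon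
  rw [not_le] at hcon
  have hr := rr0 i
  have hr2 : 0 < rr i ^ 2 := by positivity
  have hr8 := rr0 (i + 8)
  have h50 : rr (i + 5) = rr i / 32 := by
    unfold rr
    rw [pow_add]
    ring
  have h60 : rr (i + 6) = rr i / 64 := by
    unfold rr
    rw [pow_add]
    ring
  have h80 : rr (i + 8) = rr i / 256 := by
    unfold rr
    rw [pow_add]
    ring
  obtain ⟨hS1, hS2, hS3⟩ := SSB hN h
  obtain ⟨S, hS⟩ : ∃ S : ℝ → ℝ, S = fun τ => (Y7.FtG (16 * rr i) G u (τ, y)).toReal := ⟨_, rfl⟩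
  have hS0 : ∀ τ, 0 ≤ S τ := fun τ => by rw [hS]; exact ENNReal.toReal_nonneg
  rw [← hS] at hS1
  have hS2' : ∫ τ in Wb t₀ i, S τ ≤ e / rr i ^ 2 := by rw [hS]; exact hS2
  have ht0T : t₀ ∈ Ioo 0 T := ⟨by linarith [h.lo], h.hi⟩
  have hsubc : uIcc t₀ t ⊆ Ioo 0 T := by
    rw [uIcc_of_ge ht.2.le]
    intro τ hτ
    exact ⟨(Wb_sub h ht).1.trans_le hτ.1, hτ.2.trans_lt ht0T.2⟩
  have hsubo : uIoc t₀ t ⊆ Ioc (t₀ - rr i ^ 2) t₀ := by
    rw [uIoc_of_ge ht.2.le]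
    exact Ioc_subset_Ioc_left ht.1.le
  have hcs := cs_int (a := t₀ - rr i ^ 2) (b := t₀) (by linarith)
    hS0 hS1 hS2'
  obtain ⟨hsi, hcs⟩ := hcs
  have h2r : √(t₀ - (t₀ - rr i ^ 2)) ≤ 2 * rr i := by
    rw [Real.sqrt_le_left (by positivity)]
    nlinarith
  have h3r : √(e / rr i ^ 2) = √e / rr i := by
    rw [Real.sqrt_div h.e0.le, Real.sqrt_sq hr.le]
  have h3 : ∫ t in Ioc (t₀ - rr i ^ 2) t₀, √(S t) ≤ 2 * √e := by
    rw [integral_Ioc_eq_integral_Ioo]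
    refine hcs.trans ?_
    rw [h3r]
    calc √(t₀ - (t₀ - rr i ^ 2)) * (√e / rr i) ≤ 2 * rr i * (√e / rr i) := by
          gcongr
      _ = 2 * √e := by field_simp
  have hsi' : IntegrableOn (fun t => √(S t)) (Ioc (t₀ - rr i ^ 2) t₀) := by
    rw [integrableOn_Ioc_iff_integrableOn_Ioo]
    exact hsi
  have g1 : IntegrableOn (fun _ : ℝ => √e / rr i) (Ioc (t₀ - rr i ^ 2) t₀) :=
    integrableOn_const (by rw [Real.volume_Ioc]; exact ENNReal.ofReal_ne_top)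
  have g2 : IntegrableOn (fun t => 2 * K₁ * rr i * √(S t)) (Ioc (t₀ - rr i ^ 2) t₀) :=
    hsi'.const_mul _
  have g3 : IntegrableOn (fun t => √e / rr i + 2 * K₁ * rr i * √(S t))
    (Ioc (t₀ - rr i ^ 2) t₀) := g1.add g2
  have hnn : ∀ τ, 0 ≤ √e / rr i + 2 * K₁ * rr i * √(S τ) := fun τ => by positivity
  have hae : ∀ᵐ τ ∂(volume.restrict (Ioc (t₀ - rr i ^ 2) t₀)),
      τ ∈ {τ | τ ∈ G ∧ Y7.FtG (16 * rr i) G u (τ, y) ≠ ⊤ ∧ τ ∈ Wb t₀ i} := by
    rw [← restrict_Ioo_eq_restrict_Ioc]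
    filter_upwards [hS3, ae_restrict_mem measurableSet_Ioo] with τ h1 h2
    exact ⟨h1.1, h1.2, h2⟩
  have hft := Pool.Agent.Y458.NS.first_time (X := X) (Y := Y)
    (N := fun τ => √e / rr i + 2 * K₁ * rr i * √(S τ))
    (G := {τ | τ ∈ G ∧ Y7.FtG (16 * rr i) G u (τ, y) ≠ ⊤ ∧ τ ∈ Wb t₀ i})
    (t₀ := t₀) (t := t) (r := rr (i + 8)) (L := |t - t₀|) (a := 0) (b := 1)
    hr8 le_rfl zero_le_one (fun τ hτ => hX.hd τ (hsubc hτ))
    (intervalIntegrable_iff.2 ((Pool.Agent.Y458.NS.FPath_Y_int hN hX).mono_set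
      (uIoc_subset_uIcc.trans hsubc))) le_rfl (by rw [hX0]; exact hcon)
    (ae_restrict_of_ae_restrict_of_subset hsubo hae) (g3.mono_set hsubo) hnn (by
      intro τ hτ hτI hle
      obtain ⟨hτG, hτf, hτW⟩ := hτ
      rw [hX.ev τ hτG, zero_add, one_mul]
      rw [hX0] at hle
      have hu := (hN.spv hτG).1
      have hF : Y7.Fx (16 * rr i) (u τ) y ≤ ENNReal.ofReal (S τ) := by
        rw [hS]
        simp only
        rw [ENNReal.ofReal_toReal hτf, Y7.FtG_eq (16 * rr i) u hτG]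
      have hdy := h.dy
      have b1 : ‖X τ - y‖ ≤ rr (i + 5) := by
        have e1 : X τ - y = (X τ - x₀) + (x₀ - y) := by abel
        rw [e1]
        refine (norm_add_le _ _).trans ?_
        rw [h50]
        rw [h60] at hdy
        rw [h80] at hle
        linarith
      have b2 : ‖x₀ - y‖ ≤ rr i := by linarith
      have c1 := hmo (u τ) hu i 5 (X τ) y (S τ) (hS0 τ) b1 hF
      have c2 : ‖mo (rr i) (u τ) x₀ - u τ y‖ ≤ K₁ * (rr i * √(S τ)) :=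
        hmo (u τ) hu i 0 x₀ y (S τ) (hS0 τ) b2 hF
      have c3 : ‖mo (rr i) (u τ) x₀‖ ≤ √e / rr i := by
        rw [le_div_iff₀ hr, mul_comm]
        exact ha τ ⟨hτW, hτG⟩
      have c4 : rr (i + 5) * √(S τ) ≤ rr i * √(S τ) :=
        mul_le_mul_of_nonneg_right (rr_anti (by omega)) (Real.sqrt_nonneg _)
      have c5 := mul_le_mul_of_nonneg_left c4 hK₁.le
      have h6 : mo (rr (i + 5)) (u τ) (X τ) = mo (rr i) (u τ) x₀
          + (mo (rr (i + 5)) (u τ) (X τ) - u τ y) - (mo (rr i) (u τ) x₀ - u τ y) := by abel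
      rw [h6]
      refine (norm_sub_le _ _).trans ((add_le_add_left (norm_add_le _ _) _).trans ?_)
      have c6 : 2 * K₁ * rr i * √(S τ) = K₁ * (rr i * √(S τ)) + K₁ * (rr i * √(S τ)) := by ring
      linarith)
  rw [zero_mul, zero_add, one_mul] at hft
  have h8 : ∫ τ in uIoc t₀ t, (√e / rr i + 2 * K₁ * rr i * √(S τ))
      ≤ ∫ τ in Ioc (t₀ - rr i ^ 2) t₀, (√e / rr i + 2 * K₁ * rr i * √(S τ)) :=
    setIntegral_mono_set g3 (Filter.Eventually.of_forall hnn) hsubo.eventuallyLE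
  rw [integral_add g1 g2, integral_const_mul, setIntegral_const] at h8
  have h9 : volume.real (Ioc (t₀ - rr i ^ 2) t₀) = rr i ^ 2 := by
    rw [Real.volume_real_Ioc_of_le (by linarith)]
    ring
  rw [h9, smul_eq_mul] at h8
  have h10 : 2 * K₁ * rr i * ∫ t in Ioc (t₀ - rr i ^ 2) t₀, √(S t)
      ≤ 2 * K₁ * rr i * (2 * √e) :=
    mul_le_mul_of_nonneg_left h3 (by positivity)
  have h11 : rr i ^ 2 * (√e / rr i) = rr i * √e := by field_simp
  rw [h11] at h8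
  have h13 : rr i * ((2 + 4 * K₁) * √e) < rr i * (1 / 256) := mul_lt_mul_of_pos_left hKe hr
  have h14 : rr i * ((2 + 4 * K₁) * √e) = 2 * (rr i * √e) + 2 * K₁ * rr i * (2 * √e) := by ring
  have h15 : 0 ≤ rr i * √e := by positivity
  rw [h80] at hft
  linarith

/-- Small scaled quantities bound the velocity. -/
theorem critB : ∃ θ C : ℝ, 0 < θ ∧ θ ≤ 1 ∧ 0 < C ∧
  ∀ (T E D : ℝ) (G : Set ℝ) (u : ℝ → V → V) (p : ℝ → V → ℝ), Turb 1 T E D G u p →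
  ∀ (t₀ : ℝ) (x₀ y : V) (i : ℕ), LvB T G u t₀ x₀ y i θ →
  (∀ t ∈ Wb t₀ i ∩ G, XX (u t) x₀ i ≤ θ) →
    ¬ SingPt G u t₀ x₀ ∧
    ∀ t ∈ Wb t₀ (i + 8) ∩ G, ∀ x ∈ ball x₀ (rr (i + 9)), ‖u t x‖ ≤ C * 2 ^ i := by
  obtain ⟨C, hC, hA2⟩ := lvlB
  obtain ⟨ε₃, hε₃, hcrit3⟩ := Pool.Agent.Y8.B.p_crit3
  obtain ⟨K, hK, hstay⟩ := stay6B
  obtain ⟨ε, C₁, hε, hC₁, hloc⟩ := Pool.Agent.Y8.B.p_wlocal
  obtain ⟨Kp, hKp, hpath⟩ := path_ex Pool.Agent.Y8.B.p_tcut Pool.Agent.Y8.B.p_acx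
  obtain ⟨Km, hKm, hmsq⟩ := mo_sq
  obtain ⟨θ, hθ, hθ1, hθ2, hθ3⟩ : ∃ θ : ℝ, 0 < θ ∧ K * √θ < 1 / 256 ∧ θ ≤ 1 ∧
      96 * (C * θ) < min ε ε₃ := by
    have hm3 : 0 < min ε ε₃ := lt_min hε hε₃
    obtain ⟨ε₀, hε₀⟩ : ∃ ε₀, ε₀ = min ε ε₃ := ⟨_, rfl⟩
    rw [← hε₀] at hm3 ⊢
    refine ⟨min ((1 / (257 * K)) ^ 2) (min 1 (ε₀ / (97 * C))), by positivity, ?_, ?_, ?_⟩
    · have h1 : √(min ((1 / (257 * K)) ^ 2) (min 1 (ε₀ / (97 * C)))) ≤ 1 / (257 * K) := by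
        refine (Real.sqrt_le_sqrt (min_le_left _ _)).trans (le_of_eq ?_)
        exact Real.sqrt_sq (by positivity)
      calc K * √(min ((1 / (257 * K)) ^ 2) (min 1 (ε₀ / (97 * C))))
          ≤ K * (1 / (257 * K)) := by gcongr
        _ = 1 / 257 := by field_simp
        _ < 1 / 256 := by norm_num
    · exact (min_le_right _ _).trans (min_le_left _ _)
    · calc 96 * (C * min ((1 / (257 * K)) ^ 2) (min 1 (ε₀ / (97 * C))))
          ≤ 96 * (C * (ε₀ / (97 * C))) := by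
            gcongr
            exact (min_le_right _ _).trans (min_le_right _ _)
        _ = 96 / 97 * ε₀ := by field_simp
        _ < ε₀ := by linarith
  -- the constants of the mean and of the energy in the frame
  obtain ⟨Q, hQ⟩ : ∃ Q : ℝ, Q = Km * 32 ^ 3 * 3074 := ⟨_, rfl⟩
  have hQ0 : 0 < Q := by rw [hQ]; positivity
  obtain ⟨Z, hZ⟩ : ∃ Z : ℝ, Z = 32 * (2 * 3074 + 6 * Q * (1 / 4) ^ 3) := ⟨_, rfl⟩
  have hZ0 : 0 < Z := by rw [hZ]; positivity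
  refine ⟨θ, 32 * (C₁ * (1 + √Z)) + √Q, hθ, hθ2, by positivity, ?_⟩
  intro T E D G u p hN t₀ x₀ y i h hXX
  have hr := rr0 i
  have hr2 : 0 < rr i ^ 2 := by positivity
  have hlo := h.lo
  have hhi := h.hi
  have h50 : rr (i + 5) = rr i / 32 := by
    unfold rr
    rw [pow_add]
    ring
  have h80 : rr (i + 8) = rr i / 256 := by
    unfold rr
    rw [pow_add]
    ring
  have h90 : rr (i + 9) = rr i / 512 := by
    unfold rr
    rw [pow_add]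
    ring
  have h10 : rr (i + 1) = rr i / 2 := rrS i
  have hr' := rr0 (i + 5)
  have hr'1 := rr1 (i + 5)
  have hr'2 : rr (i + 5) ^ 2 = rr i ^ 2 / 1024 := by rw [h50]; ring
  have hr12 : rr (i + 1) ^ 2 = rr i ^ 2 / 4 := by rw [h10]; ring
  have hmo : ∀ t ∈ Wb t₀ i ∩ G, rr i * ‖mo (rr i) (u t) x₀‖ ≤ √θ := by
    intro t ht
    apply Real.le_sqrt_of_sq_le
    have h1 := hXX t ht
    have h2 : 0 ≤ A2 0 4 (Y7.fr (rr i) (u t) x₀) := integral_nonneg fun z => nsq_nn _ z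
    unfold XX at h1
    linarith
  -- the gradient
  have hgr := (hA2 T E D G u p hN t₀ x₀ y i (√θ) θ h (Real.sqrt_nonneg _) hmo).1
  have hgr2 : ∫⁻ t in Wb t₀ (i + 1), ENNReal.ofReal (B2 x₀ (rr (i + 1)) (u t))
      ≤ ENNReal.ofReal (3 * (C * θ) * rr i) := by
    refine hgr.trans (ENNReal.ofReal_le_ofReal ?_)
    have h1 : √θ ≤ 1 := Real.sqrt_le_one.2 hθ2
    have h2 : (1 + √θ) * θ + θ ^ 2 ≤ 3 * θ := by nlinarith
    calc C * rr i * ((1 + √θ) * θ + θ ^ 2) ≤ C * rr i * (3 * θ) := by gcongr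
      _ = _ := by ring
  -- the path
  have ht0T : t₀ ∈ Ioo 0 T := ⟨by linarith, by linarith⟩
  obtain ⟨CY', hCY', hpY'⟩ := hpath E (rr (i + 5)) hr' hr'1
  obtain ⟨Y', Yd', hY0', hY'⟩ := hpY' T D G u p hN t₀ ht0T x₀
  have hst' := hstay T E D G u p hN t₀ x₀ y i θ h hmo hθ1 Y' Yd' _ _ hY' hY0'
  have hsub : Ioo (t₀ - rr (i + 5) ^ 2) t₀ ⊆ Wb t₀ (i + 1) := by
    unfold Wb
    rw [hr12, hr'2]
    exact Ioo_subset_Ioo (by linarith) le_rfl
  have hrs : rr (i + 5) ^ 2 < t₀ := by rw [hr'2]; linarith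
  obtain ⟨kf, hW⟩ := Pool.Agent.Y8.B.p_wfr2 T E D G u p hN (rr (i + 5)) t₀ hr' hrs hhi Y' Yd' _ _
    hY'
  -- the dissipation in the frame
  have hYc : ContinuousOn Y' G := hY'.sm.continuousOn
  have hI0 : IntegrableOn (fun τ => B2 (Y' τ) (rr (i + 5) * 8) (u τ))
      (Ioo (t₀ - rr (i + 5) ^ 2) t₀) := by
    have h1 := Pool.Agent.Y458.NS.B2_mov_int hN hYc (rr (i + 5) * 8)
    have h2 : IntegrableOn (fun τ => B2 (Y' τ) (rr (i + 5) * 8) (u τ))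
        (Ioo (t₀ - rr (i + 5) ^ 2) t₀ ∩ G) := h1.mono_set inter_subset_right
    refine h2.congr_set_ae ?_
    have h3 : ∀ᵐ τ ∂(volume.restrict (Ioo (t₀ - rr (i + 5) ^ 2) t₀)), τ ∈ G :=
      aeT hN (by linarith) hhi.le
    rw [ae_restrict_iff' measurableSet_Ioo] at h3
    filter_upwards [h3] with τ h4
    refine propext ⟨fun h5 => ⟨h5, h4 h5⟩, fun h5 => h5.1⟩
  have f2 : ∫⁻ τ in Ioo (t₀ - rr (i + 5) ^ 2) t₀,
        ENNReal.ofReal (B2 (Y' τ) (rr (i + 5) * 8) (u τ))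
      ≤ ENNReal.ofReal (3 * (C * θ) * rr i) := by
    refine le_trans ?_ hgr2
    refine le_trans ?_ (lintegral_mono_set hsub)
    apply lintegral_mono_ae
    filter_upwards [aeT hN (show 0 ≤ t₀ - rr (i + 5) ^ 2 by linarith) hhi.le,
      ae_restrict_mem measurableSet_Ioo] with τ h1 h2
    apply ENNReal.ofReal_le_ofReal
    apply Pool.Agent.Y458.NS.B2_mono (hN.spv h1).1
    apply ball_subset_ball'
    rw [dist_eq_norm, h50, h10]
    have h8 := hst' τ (Wb_mono (Nat.le_succ i) (hsub h2))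
    rw [h80] at h8
    linarith
  have f3 : ∫ τ in Ioo (t₀ - rr (i + 5) ^ 2) t₀, B2 (Y' τ) (rr (i + 5) * 8) (u τ)
      ≤ 3 * (C * θ) * rr i := by
    rw [← ENNReal.ofReal_le_ofReal_iff (by positivity),
      ofReal_integral_eq_lintegral_ofReal hI0
        (Filter.Eventually.of_forall fun τ => A6.B2nn _ _ _)]
    exact f2
  obtain ⟨w1, w2⟩ := Y7.wmass hN hr' hrs hhi Y' 8 (p₁ := -1) (q₁ := 0) le_rfl le_rfl
  have e1 : t₀ + rr (i + 5) ^ 2 * (-1) = t₀ - rr (i + 5) ^ 2 := by ring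
  have e2 : t₀ + rr (i + 5) ^ 2 * 0 = t₀ := by ring
  rw [e1, e2] at w1 w2
  have g1 := w1.2 hI0
  have g2 : ∫ t in Ioo (-1 : ℝ) 0, B2 0 8 (frv (rr (i + 5)) t₀ Y' u t) ≤ ε := by
    rw [w2, inv_mul_le_iff₀ hr', h50]
    rw [h50] at f3
    have f5 : 96 * (C * θ) * (rr i / 32) < ε * (rr i / 32) :=
      mul_lt_mul_of_pos_right (hθ3.trans_le (min_le_left _ _)) (by positivity)
    linarith
  refine ⟨?_, ?_⟩
  · -- the point is not singular
    intro hsing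
    obtain ⟨F, hF⟩ : ∃ F : ℝ → ℝ, F = G.indicator
      (fun τ => B2 (Y' τ) (rr (i + 5) * 8) (u τ)) := ⟨_, rfl⟩
    have hFi : Integrable F := by
      rw [hF]
      exact (integrable_indicator_iff hN.openG.measurableSet).2
        (Pool.Agent.Y458.NS.B2_mov_int hN hYc _)
    have hF0 : ∀ τ, 0 ≤ F τ := fun τ => by
      rw [hF]
      exact indicator_nonneg (fun _ _ => A6.B2nn _ _ _) τ
    have hcont : Continuous fun s => ∫ τ in t₀..s, F τ :=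
      intervalIntegral.continuous_primitive (fun a b => hFi.intervalIntegrable) t₀
    have hδ : 0 < ε₃ * (rr i / 32) - 3 * (C * θ) * rr i := by
      have f5 : 96 * (C * θ) * (rr i / 32) < ε₃ * (rr i / 32) :=
        mul_lt_mul_of_pos_right (hθ3.trans_le (min_le_right _ _)) (by positivity)
      linarith
    obtain ⟨d, hd, hdc⟩ := Metric.continuous_iff.1 hcont t₀ _ hδ
    obtain ⟨s, hs⟩ : ∃ s, s = t₀ + min (min (d / 2) ((T - t₀) / 2)) (rr (i + 5) ^ 2 / 32) :=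
      ⟨_, rfl⟩
    have hr5 : 0 < rr (i + 5) ^ 2 := by positivity
    have hm0 : 0 < min (min (d / 2) ((T - t₀) / 2)) (rr (i + 5) ^ 2 / 32) :=
      lt_min (lt_min (by positivity) (by linarith)) (by positivity)
    have hs0 : t₀ < s := by rw [hs]; linarith
    have hs1 : s ≤ t₀ + d / 2 := by
      rw [hs]
      linarith [(min_le_left (min (d / 2) ((T - t₀) / 2)) (rr (i + 5) ^ 2 / 32)).trans
        (min_le_left _ _)]
    have hs2 : s ≤ t₀ + (T - t₀) / 2 := by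
      rw [hs]
      linarith [(min_le_left (min (d / 2) ((T - t₀) / 2)) (rr (i + 5) ^ 2 / 32)).trans
        (min_le_right _ _)]
    have hs3 : s ≤ t₀ + rr (i + 5) ^ 2 / 32 := by
      rw [hs]
      linarith [min_le_right (min (d / 2) ((T - t₀) / 2)) (rr (i + 5) ^ 2 / 32)]
    have hsT : s < T := by linarith
    have hcr := hcrit3 T E D G u p hN (rr (i + 5)) s hr' hr'1 (by linarith) hsT Y' Yd' _ _
      hY' t₀ ⟨by linarith, hs0⟩ x₀
      (by rw [hY0', mem_ball, dist_self]; positivity) hsing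
    have e5 : 8 * rr (i + 5) = rr (i + 5) * 8 := by ring
    rw [e5] at hcr
    have e6 : ∫ τ in Ioo (s - rr (i + 5) ^ 2) s, B2 (Y' τ) (rr (i + 5) * 8) (u τ)
        = ∫ τ in Ioo (s - rr (i + 5) ^ 2) s, F τ := by
      apply integral_congr_ae
      filter_upwards [aeT hN (show 0 ≤ s - rr (i + 5) ^ 2 by linarith) hsT.le] with τ h1
      rw [hF, indicator_of_mem h1]
    have e7 : ∫ τ in Ioo (t₀ - rr (i + 5) ^ 2) t₀, B2 (Y' τ) (rr (i + 5) * 8) (u τ)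
        = ∫ τ in Ioo (t₀ - rr (i + 5) ^ 2) t₀, F τ := by
      apply integral_congr_ae
      filter_upwards [aeT hN (show 0 ≤ t₀ - rr (i + 5) ^ 2 by linarith) hhi.le] with τ h1
      rw [hF, indicator_of_mem h1]
    rw [e6] at hcr
    rw [e7] at f3
    have e8 : ∫ τ in Ioo (s - rr (i + 5) ^ 2) s, F τ
        ≤ (∫ τ in Ioo (t₀ - rr (i + 5) ^ 2) t₀, F τ) + ∫ τ in t₀..s, F τ := by
      have h1 : Ioo (s - rr (i + 5) ^ 2) s ⊆ Ioc (t₀ - rr (i + 5) ^ 2) t₀ ∪ Ioc t₀ s := by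
        rw [Ioc_union_Ioc_eq_Ioc (by linarith) hs0.le]
        exact fun x hx => ⟨by linarith [hx.1], hx.2.le⟩
      have h2 : ∫ τ in Ioo (s - rr (i + 5) ^ 2) s, F τ
          ≤ ∫ τ in Ioc (t₀ - rr (i + 5) ^ 2) t₀ ∪ Ioc t₀ s, F τ :=
        setIntegral_mono_set hFi.integrableOn (Filter.Eventually.of_forall hF0) h1.eventuallyLE
      rw [setIntegral_union (Ioc_disjoint_Ioc_of_le le_rfl) measurableSet_Ioc hFi.integrableOn
        hFi.integrableOn, integral_Ioc_eq_integral_Ioo,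
        ← intervalIntegral.integral_of_le hs0.le] at h2
      exact h2
    have e9 := hdc s (by
      rw [Real.dist_eq, abs_of_pos (by linarith)]
      linarith)
    rw [intervalIntegral.integral_same, dist_zero_right, Real.norm_eq_abs] at e9
    have e10 := (le_abs_self _).trans e9.le
    rw [h50] at hcr f3 e8
    have e11 := (le_abs_self (∫ τ in t₀..s, F τ)).trans_lt e9
    linarith
  intro t ht x hx
  have hbd := hloc _ _ _ _ hW g1 g2
  -- the point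
  have htW : t ∈ Wb t₀ i := Wb_mono (by omega) ht.1
  have hst := hst' t htW
  rw [h80] at hst
  obtain ⟨ϑ, hϑ⟩ : ∃ ϑ, ϑ = (t - t₀) / rr (i + 5) ^ 2 := ⟨_, rfl⟩
  have hϑt : t₀ + rr (i + 5) ^ 2 * ϑ = t := by
    rw [hϑ]
    field_simp
    ring
  have htb := ht.1
  unfold Wb at htb
  rw [h80] at htb
  have hr5p : 0 < rr (i + 5) ^ 2 := by positivity
  have hϑ0 : ϑ < 0 := by
    rw [hϑ]
    exact div_neg_of_neg_of_pos (by linarith [htb.2]) hr5p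
  have hϑ1 : -1 / 16 < ϑ := by
    rw [hϑ, lt_div_iff₀ hr5p, hr'2]
    have := htb.1
    have e3 : (rr i / 256) ^ 2 = rr i ^ 2 / 65536 := by ring
    rw [e3] at this
    linarith
  have hmem : ϑ ∈ {t | t ∈ Ioo (-1 : ℝ) 0 ∧ t₀ + rr (i + 5) ^ 2 * t ∈ G} :=
    ⟨⟨by linarith, hϑ0⟩, by rw [hϑt]; exact ht.2⟩
  obtain ⟨z, hz⟩ : ∃ z : V, z = (rr (i + 5))⁻¹ • (x - Y' t) := ⟨_, rfl⟩
  have hxz : Y' t + rr (i + 5) • z = x := by
    rw [hz, smul_smul, mul_inv_cancel₀ hr'.ne', one_smul]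
    abel
  have hzb : z ∈ ball (0 : V) (1 / 4) := by
    rw [mem_ball, dist_zero_right, hz, norm_smul, norm_inv, Real.norm_of_nonneg hr'.le,
      inv_mul_lt_iff₀ hr', h50]
    rw [mem_ball, dist_eq_norm, h90] at hx
    have e4 : x - Y' t = (x - x₀) - (Y' t - x₀) := by abel
    rw [e4]
    refine (norm_sub_le _ _).trans_lt ?_
    linarith
  have hus := (hN.spv ht.2).1
  -- the mean
  have hball : ball (Y' t) (rr (i + 5) * 4) ⊆ ball x₀ (rr i * 4) := by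
    apply ball_subset_ball'
    rw [dist_eq_norm, h50]
    linarith
  have hen5 : A2 (Y' t) (rr (i + 5) * 4) (u t) ≤ 3074 * rr i := by
    refine (A2_mono' hus hball).trans ?_
    have h1 := (EE_XX hus x₀ i).trans (mul_le_mul_of_nonneg_left
      ((hXX t ⟨htW, ht.2⟩).trans hθ2) (by norm_num))
    unfold EE at h1
    rw [mul_one, inv_mul_le_iff₀ hr] at h1
    linarith
  have hm2 : ‖mo (rr (i + 5)) (u t) (Y' t)‖ ^ 2 ≤ Q / rr i ^ 2 := by
    have h1 : ∀ j, mo (rr (i + 5)) (u t) (Y' t) j ^ 2 ≤ Q / rr i ^ 2 := by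
      intro j
      refine (hmsq (u t) hus.continuous (rr (i + 5)) (Y' t) j hr').trans ?_
      have h2 : ∫ z in ball (Y' t) (rr (i + 5)), u t z j ^ 2 ≤ A2 (Y' t) (rr (i + 5) * 4) (u t) := by
        refine (setIntegral_mono (ballint (((continuous_apply j).comp hus.continuous).pow 2) _ _)
          (ballint (nsq_sm hus).continuous _ _) fun z => comp_sq_le (u t) z j).trans ?_
        exact A2_mono' hus (ball_subset_ball (by linarith))
      have h3 := h2.trans hen5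
      calc Km * (rr (i + 5) ^ 3)⁻¹ * ∫ z in ball (Y' t) (rr (i + 5)), u t z j ^ 2
          ≤ Km * (rr (i + 5) ^ 3)⁻¹ * (3074 * rr i) :=
            mul_le_mul_of_nonneg_left h3 (by positivity)
        _ = Q / rr i ^ 2 := by
            rw [hQ, h50]
            field_simp
    have h4 : ‖mo (rr (i + 5)) (u t) (Y' t)‖ ≤ √(Q / rr i ^ 2) := by
      rw [pi_norm_le_iff_of_nonneg (Real.sqrt_nonneg _)]
      intro j
      rw [Real.norm_eq_abs]
      exact Real.abs_le_sqrt (h1 j)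
    calc ‖mo (rr (i + 5)) (u t) (Y' t)‖ ^ 2 ≤ √(Q / rr i ^ 2) ^ 2 :=
          pow_le_pow_left₀ (norm_nonneg _) h4 2
      _ = Q / rr i ^ 2 := Real.sq_sqrt (by positivity)
  have hm1 : ‖mo (rr (i + 5)) (u t) (Y' t)‖ ≤ √Q / rr i := by
    have h1 := Real.sqrt_le_sqrt hm2
    rw [Real.sqrt_sq (norm_nonneg _), Real.sqrt_div hQ0.le, Real.sqrt_sq hr.le] at h1
    exact h1
  -- the frame
  have hfr := Y7.turb_frv hN hY' hmem.2
  rw [hϑt] at hfr
  have hA4 : A2 0 4 (frv (rr (i + 5)) t₀ Y' u ϑ) ≤ Z := by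
    rw [hfr, A78.fr_eq]
    have h1 := A2_sub_le hus (mo (rr (i + 5)) (u t) (Y' t)) (Y' t) hr'
    have h2 : 6 * ‖mo (rr (i + 5)) (u t) (Y' t)‖ ^ 2 * (8 * rr (i + 5)) ^ 3
        ≤ 6 * (Q / rr i ^ 2) * (8 * rr (i + 5)) ^ 3 :=
      mul_le_mul_of_nonneg_right (by linarith) (by positivity)
    calc (rr (i + 5))⁻¹ * A2 (Y' t) (rr (i + 5) * 4)
          (fun z => u t z - mo (rr (i + 5)) (u t) (Y' t))
        ≤ (rr (i + 5))⁻¹ * (2 * (3074 * rr i) + 6 * (Q / rr i ^ 2) * (8 * rr (i + 5)) ^ 3) :=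
          mul_le_mul_of_nonneg_left (by linarith) (by positivity)
      _ = Z := by
          rw [hZ, h50]
          field_simp
          ring
  -- the velocity
  have hpt : ∀ j, |u t x j| ≤ (32 * (C₁ * (1 + √Z)) + √Q) * 2 ^ i := by
    intro j
    have h1 := hbd ϑ hmem hϑ1 z hzb j
    have h2 : frv (rr (i + 5)) t₀ Y' u ϑ z j
        = rr (i + 5) * (u t x j - mo (rr (i + 5)) (u t) (Y' t) j) := by
      rw [hfr]
      unfold Y7.fr
      rw [hxz]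
      rfl
    have h3 : |frv (rr (i + 5)) t₀ Y' u ϑ z j| ≤ C₁ * (1 + √Z) :=
      h1.trans (mul_le_mul_of_nonneg_left (by
        have := Real.sqrt_le_sqrt hA4
        linarith) hC₁.le)
    rw [h2, abs_mul, abs_of_pos hr', h50] at h3
    have h4 : |u t x j - mo (rr i / 32) (u t) (Y' t) j| ≤ 32 * (C₁ * (1 + √Z)) / rr i := by
      rw [le_div_iff₀ hr]
      linarith
    have h5 : |mo (rr i / 32) (u t) (Y' t) j| ≤ √Q / rr i := by
      rw [h50] at hm1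
      have h6 := norm_le_pi_norm (mo (rr i / 32) (u t) (Y' t)) j
      rw [Real.norm_eq_abs] at h6
      exact h6.trans hm1
    have h7 : u t x j = (u t x j - mo (rr i / 32) (u t) (Y' t) j)
        + mo (rr i / 32) (u t) (Y' t) j := by ring
    rw [h7]
    refine (abs_add_le _ _).trans ((add_le_add h4 h5).trans (le_of_eq ?_))
    have h8 : (2 : ℝ) ^ i = (rr i)⁻¹ := by
      unfold rr
      rw [one_div, inv_pow, inv_inv]
    rw [h8]
    field_simp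
  rw [pi_norm_le_iff_of_nonneg (by positivity)]
  intro j
  rw [Real.norm_eq_abs]
  exact hpt j

/-- Small scaled quantities bound the velocity, energy form. -/
theorem critE : ∃ θ C : ℝ, 0 < θ ∧ 0 < C ∧
  ∀ (T E D : ℝ) (G : Set ℝ) (u : ℝ → V → V) (p : ℝ → V → ℝ), Turb 1 T E D G u p →
  ∀ (t₀ : ℝ) (x₀ y : V) (i : ℕ), LvB T G u t₀ x₀ y i θ →
  (∀ t ∈ Wb t₀ i ∩ G, EE (u t) x₀ i ≤ θ) →
    ¬ SingPt G u t₀ x₀ ∧
    ∀ t ∈ Wb t₀ (i + 8) ∩ G, ∀ x ∈ ball x₀ (rr (i + 9)), ‖u t x‖ ≤ C * 2 ^ i := by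
  obtain ⟨θ, C, hθ, -, hC, h⟩ := critB
  obtain ⟨Q, hQ, hXE⟩ := XX_EE
  have hQ0 : 0 < Q := by linarith
  refine ⟨θ / Q, C, by positivity, hC, ?_⟩
  intro T E D G u p hN t₀ x₀ y i hL hE
  have h1 : θ / Q ≤ θ := div_le_self hθ.le hQ
  refine h T E D G u p hN t₀ x₀ y i ⟨hL.lo, hL.hi, hL.dy, hθ, hL.hF.trans
    (ENNReal.ofReal_le_ofReal (div_le_div_of_nonneg_right h1 (sq_nonneg _)))⟩ fun t ht => ?_
  have h2 := (hXE (u t) (hN.spv ht.2).1 x₀ i).trans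
    (mul_le_mul_of_nonneg_left (hE t ht) hQ0.le)
  rwa [mul_div_cancel₀ _ hQ0.ne'] at h2

end Pool.Agent.H45.NS
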