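import Pool.Agent.H45.NS.B6

/-!
Backward cylinders: the essential infimum, the dissipation at larger scales.
-/

set_option autoImplicit false

open MeasureTheory Set Metric
open scoped ContDiff ENNReal

namespace Pool.Agent.H45.NS

open H459R3.NS W221.NS Pool.Agent.Y8 Pool.Agent.N977.H Pool.Agent.N976.TL

/-- The backward cylinder. -/
def Cb (i : ℕ) (z : ℝ × V) : Set (ℝ × V) := Wb z.1 i ×ˢ ball z.2 (rr i)

theorem Cb_anti {i j : ℕ} (h : i ≤ j) (z : ℝ × V) : Cb j z ⊆ Cb i z :=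
  prod_mono (Wb_mono h) (ball_subset_ball (rr_anti h))

theorem Cb_Cy (i : ℕ) (z : ℝ × V) : Cb i z ⊆ Cy i z :=
  prod_mono (Ioo_subset_Ioo le_rfl (by linarith [sq_nonneg (rr i)])) subset_rfl

/-- Fewer scales. -/
theorem FtG_le (G : Set ℝ) (u : ℝ → V → V) (i : ℕ) (q : ℝ × V) :
    Y7.FtG (16 * rr i) G u q ≤ Y7.FtG 16 G u q := by
  unfold Y7.FtG
  refine ENNReal.rpow_le_rpow ?_ (by norm_num)
  unfold Y7.Hl.Mx
  refine iSup_le fun m => ?_
  have e : Y7.Hl.Rr (16 * rr i) m = Y7.Hl.Rr 16 (m + i) := by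
    unfold Y7.Hl.Rr rr
    rw [pow_add, one_div, inv_pow]
    field_simp
  rw [e]
  exact le_iSup (fun m : ℕ => (∫⁻ y in ball q.2 (Y7.Hl.Rr 16 m),
    (G ×ˢ (univ : Set V)).indicator (fun z => Y7.Sp.gw (u z.1) z.2) (q.1, y))
      / ENNReal.ofReal (Y7.Hl.Rr 16 m ^ 3)) (m + i)

theorem essB (T E D : ℝ) (G : Set ℝ) (u : ℝ → V → V) (p : ℝ → V → ℝ) (hN : Turb 1 T E D G u p)
    (t₀ : ℝ) (x₀ : V) (i : ℕ) : ∃ e : ℝ, 0 ≤ e ∧
    (∀ᵐ y ∂(volume.restrict (ball x₀ (rr (i + 6)))),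
      ENNReal.ofReal (e / rr i ^ 2) ≤ ∫⁻ τ in Wb t₀ i, Y7.FtG (16 * rr i) G u (τ, y)) ∧
    ∀ e' > e, ∃ y : V, ‖x₀ - y‖ ≤ rr (i + 6) ∧
      ∫⁻ τ in Wb t₀ i, Y7.FtG (16 * rr i) G u (τ, y) ≤ ENNReal.ofReal (e' / rr i ^ 2) := by
  have hr := rr0 i
  set f : V → ℝ≥0∞ := fun y => ∫⁻ τ in Wb t₀ i, Y7.FtG (16 * rr i) G u (τ, y) with hf
  set μ : Measure V := volume.restrict (ball x₀ (rr (i + 6))) with hμ
  have hμ0 : μ univ ≠ 0 := by
    rw [hμ, Measure.restrict_apply_univ]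
    exact (measure_ball_pos volume x₀ (rr0 (i + 6))).ne'
  set I := essInf f μ with hI
  have hIae : ∀ᵐ y ∂μ, I ≤ f y := ae_essInf_le
  have hfin : ∫⁻ y, f y ∂μ ≠ ⊤ := by
    have h1 := FtG_fin hN (‖x₀‖ + 1)
    refine ne_top_of_le_ne_top h1 ?_
    calc ∫⁻ y in ball x₀ (rr (i + 6)), f y ≤ ∫⁻ y in ball (0 : V) (‖x₀‖ + 1), f y := by
          apply lintegral_mono_set
          apply ball_subset_ball'
          rw [dist_zero_right]
          have := rr1 (i + 6)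
          linarith
      _ ≤ _ := lintegral_mono fun y => (setLIntegral_le_lintegral _ _).trans
        (lintegral_mono fun τ => FtG_le G u i (τ, y))
  have hItop : I ≠ ⊤ := by
    intro h
    apply hfin
    have h1 : ∫⁻ _y, I ∂μ ≤ ∫⁻ y, f y ∂μ := lintegral_mono_ae hIae
    rw [lintegral_const, h, ENNReal.top_mul hμ0] at h1
    exact top_le_iff.1 h1
  have he : rr i ^ 2 * I.toReal / rr i ^ 2 = I.toReal := by
    field_simp
  refine ⟨rr i ^ 2 * I.toReal, by positivity, ?_, ?_⟩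
  · rw [he, ENNReal.ofReal_toReal hItop]
    exact hIae
  · intro e' he'
    by_contra hcon
    push Not at hcon
    have h1 : ENNReal.ofReal (e' / rr i ^ 2) ≤ I := by
      refine le_essInf_of_ae_le _ ?_
      rw [Filter.EventuallyLE, hμ, ae_restrict_iff' measurableSet_ball]
      refine Filter.Eventually.of_forall fun y hy => ?_
      refine (hcon y ?_).le
      rw [mem_ball, dist_comm, dist_eq_norm] at hy
      exact hy.le
    have h2 : I.toReal < e' / rr i ^ 2 := by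
      rw [lt_div_iff₀ (by positivity)]
      linarith
    have h3 : I < ENNReal.ofReal (e' / rr i ^ 2) := by
      rw [← ENNReal.ofReal_toReal hItop]
      exact (ENNReal.ofReal_lt_ofReal_iff (lt_of_le_of_lt ENNReal.toReal_nonneg h2)).2 h2
    exact absurd h1 (not_le.2 h3)

theorem lint_Cb {F : ℝ × V → ℝ≥0∞} (hF : Measurable F) (i : ℕ) (z : ℝ × V) :
    ∫⁻ q in Cb i z, F q = ∫⁻ τ in Wb z.1 i, ∫⁻ y in ball z.2 (rr i), F (τ, y) := by
  unfold Cb
  rw [Measure.volume_eq_prod, ← Measure.prod_restrict, lintegral_prod _ hF.aemeasurable]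

/-- The lower bound for the integral over a cylinder. -/
theorem low_intB {F : ℝ × V → ℝ≥0∞} (hF : Measurable F) (z : ℝ × V) (i : ℕ) {e : ℝ} (he : 0 ≤ e)
    (h : ∀ᵐ y ∂(volume.restrict (ball z.2 (rr (i + 6)))),
      ENNReal.ofReal (e / rr i ^ 2) ≤ ∫⁻ τ in Wb z.1 i, F (τ, y)) :
    ENNReal.ofReal (rr i * e / 32768) ≤ ∫⁻ q in Cb i z, F q := by
  have h1 : ∫⁻ q in Cb i z, F q = ∫⁻ y in ball z.2 (rr i), ∫⁻ τ in Wb z.1 i, F (τ, y) := by
    unfold Cb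
    rw [Measure.volume_eq_prod, ← Measure.prod_restrict, lintegral_prod_symm' _ hF]
  rw [h1]
  have h2 : ∫⁻ y in ball z.2 (rr (i + 6)), ∫⁻ τ in Wb z.1 i, F (τ, y) ≤
      ∫⁻ y in ball z.2 (rr i), ∫⁻ τ in Wb z.1 i, F (τ, y) :=
    lintegral_mono_set (ball_subset_ball (rr_anti (by omega)))
  refine le_trans ?_ h2
  have h3 : ∫⁻ _ in ball z.2 (rr (i + 6)), ENNReal.ofReal (e / rr i ^ 2) ≤
      ∫⁻ y in ball z.2 (rr (i + 6)), ∫⁻ τ in Wb z.1 i, F (τ, y) := lintegral_mono_ae h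
  refine le_trans (le_of_eq ?_) h3
  rw [setLIntegral_const, B2.vball _ (rr0 _), ← ENNReal.ofReal_mul (by positivity)]
  congr 1
  have h4 : rr (i + 6) = rr i / 64 := by
    unfold rr; rw [pow_add]; norm_num; ring
  have h5 := (rr0 i).ne'
  rw [h4]
  field_simp
  ring

/-- The function of the gradient and the dissipation in a larger cylinder. -/
theorem d1L : ∃ C : ℝ, 0 < C ∧
    ∀ (T E D : ℝ) (G : Set ℝ) (u : ℝ → V → V) (p : ℝ → V → ℝ), Turb 1 T E D G u p →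
    ∀ (z : ℝ × V) (j : ℕ), ∫⁻ q in Cb (j + 5) z, Y7.FtG (16 * rr (j + 5)) G u q
      ≤ ENNReal.ofReal C * ∫⁻ q in Cb j z, gG G u q := by
  obtain ⟨C, hC, hFx⟩ := Y7.D.FxLoc
  refine ⟨C, hC, fun T E D G u p hN z j => ?_⟩
  obtain ⟨i, hi⟩ : ∃ i, i = j + 5 := ⟨_, rfl⟩
  have hrj : rr j = 32 * rr i := by
    rw [hi]
    unfold rr
    rw [pow_add]
    ring
  rw [← hi]
  have hr := rr0 i
  have hFm := Y7.FtG_meas (16 * rr i) hN
  have hgm := D1.gG_meas hN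
  have h0 : ∀ τ ∉ G, ∀ y, Y7.FtG (16 * rr i) G u (τ, y) = 0 := by
    intro τ hτ y
    unfold Y7.FtG Y7.Hl.Mx
    have e : ∀ z : V, (G ×ˢ (univ : Set V)).indicator
        (fun z : ℝ × V => Y7.Sp.gw (u z.1) z.2) (τ, z) = 0 := by
      intro z
      exact indicator_of_notMem (fun h => hτ h.1) _
    simp only [e]
    simp
  have h1 : ∀ τ, ∫⁻ y in ball z.2 (rr i), Y7.FtG (16 * rr i) G u (τ, y) ≤ ENNReal.ofReal C *
      ∫⁻ y in ball z.2 (rr j), gG G u (τ, y) := by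
    intro τ
    by_cases hτ : τ ∈ G
    · have h3 : ∫⁻ y in ball z.2 (rr i), Y7.FtG (16 * rr i) G u (τ, y)
          = ∫⁻ y in ball z.2 (rr i), Y7.Fx (16 * rr i) (u τ) y :=
        lintegral_congr fun y => Y7.FtG_eq (16 * rr i) u hτ y
      have h4 : ∀ y, gG G u (τ, y) = ENNReal.ofReal (gsq (u τ) y) := by
        intro y
        unfold gG
        exact indicator_of_mem (show (τ, y) ∈ G ×ˢ (univ : Set V) from ⟨hτ, mem_univ _⟩) _
      rw [h3]
      simp only [h4]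
      have hs := hN.spv hτ
      obtain ⟨M, hM⟩ := Y7.per_grad hs.1 hs.2
      exact hFx (16 * rr i) (rr16 i) (ball z.2 (rr j)) (ball z.2 (rr i)) measurableSet_ball
        measurableSet_ball (fun x hx => ball_subset_ball' (by
          rw [mem_ball] at hx
          rw [hrj]
          linarith)) (u τ) hs.1 M hM
    · simp only [h0 τ hτ, lintegral_zero]
      exact zero_le
  rw [lint_Cb hFm, lint_Cb hgm, ← lintegral_const_mul' _ _ ENNReal.ofReal_ne_top]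
  refine (lintegral_mono h1).trans (lintegral_mono_set (Wb_mono (by omega)))

/-- The dissipation in the backward cylinder. -/
noncomputable def mb (G : Set ℝ) (u : ℝ → V → V) (z : ℝ × V) (i : ℕ) : ℝ :=
  (∫⁻ q in Cb i z, gG G u q).toReal

/-- The scaled dissipation. -/
noncomputable def Th (G : Set ℝ) (u : ℝ → V → V) (z : ℝ × V) (i : ℕ) : ℝ := 2 ^ i * mb G u z i

theorem Th_nonneg (G : Set ℝ) (u : ℝ → V → V) (z : ℝ × V) (i : ℕ) : 0 ≤ Th G u z i := by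
  unfold Th mb
  positivity

section

variable {T E D : ℝ} {G : Set ℝ} {u : ℝ → V → V} {p : ℝ → V → ℝ}

theorem mb_bd : ∃ C : ℝ, 0 < C ∧ ∀ (T E D : ℝ) (G : Set ℝ) (u : ℝ → V → V) (p : ℝ → V → ℝ),
    Turb 1 T E D G u p → ∀ (z : ℝ × V) (j : ℕ),
      ∫⁻ q in Cb j z, gG G u q ≤ ENNReal.ofReal (C * |D|) := by
  obtain ⟨C, hC, h⟩ := D2.gG_bd
  exact ⟨C, hC, fun T E D G u p hN z j =>
    (lintegral_mono_set (Cb_Cy j z)).trans (h T E D G u p hN z j)⟩

theorem mb_fin (hN : Turb 1 T E D G u p) (z : ℝ × V) (j : ℕ) : ∫⁻ q in Cb j z, gG G u q ≠ ⊤ := by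
  obtain ⟨C, -, h⟩ := mb_bd
  exact ((h T E D G u p hN z j).trans_lt ENNReal.ofReal_lt_top).ne

theorem mb_anti (hN : Turb 1 T E D G u p) (z : ℝ × V) {i j : ℕ} (h : i ≤ j) :
    mb G u z j ≤ mb G u z i :=
  ENNReal.toReal_mono (mb_fin hN z i) (lintegral_mono_set (Cb_anti h z))

theorem Th_succ (hN : Turb 1 T E D G u p) (z : ℝ × V) (i : ℕ) :
    Th G u z (i + 1) ≤ 2 * Th G u z i := by
  have h1 := mb_anti hN z (Nat.le_succ i)
  unfold Th
  rw [pow_succ]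
  calc 2 ^ i * 2 * mb G u z (i + 1) ≤ 2 ^ i * 2 * mb G u z i :=
        mul_le_mul_of_nonneg_left h1 (by positivity)
    _ = _ := by ring

end

/-- The essential infimum is controlled by the scaled dissipation. -/
theorem eL : ∃ C : ℝ, 0 < C ∧
    ∀ (T E D : ℝ) (G : Set ℝ) (u : ℝ → V → V) (p : ℝ → V → ℝ), Turb 1 T E D G u p →
    ∀ (z : ℝ × V) (j : ℕ) (e : ℝ), 0 ≤ e →
    (∀ᵐ y ∂(volume.restrict (ball z.2 (rr (j + 5 + 6)))),
      ENNReal.ofReal (e / rr (j + 5) ^ 2)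
        ≤ ∫⁻ τ in Wb z.1 (j + 5), Y7.FtG (16 * rr (j + 5)) G u (τ, y)) →
      e ≤ C * Th G u z j := by
  obtain ⟨C, hC, hd⟩ := d1L
  refine ⟨32768 * C * 32, by positivity, fun T E D G u p hN z j e he hlow => ?_⟩
  have h1 := (low_intB (Y7.FtG_meas (16 * rr (j + 5)) hN) z (j + 5) he hlow).trans
    (hd T E D G u p hN z j)
  have hfin := mb_fin hN z j
  have h2 : ∫⁻ q in Cb j z, gG G u q = ENNReal.ofReal (mb G u z j) := by
    unfold mb
    rw [ENNReal.ofReal_toReal hfin]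
  have hmb0 : 0 ≤ mb G u z j := ENNReal.toReal_nonneg
  rw [h2, ← ENNReal.ofReal_mul hC.le, ENNReal.ofReal_le_ofReal_iff (by positivity)] at h1
  have hr := rr0 (j + 5)
  have h2r : (2 : ℝ) ^ j * 32 * rr (j + 5) = 1 := by
    have h3 : (2 : ℝ) ^ j * (1 / 2) ^ j = 1 := by
      rw [← mul_pow]
      norm_num
    unfold rr
    rw [pow_add]
    calc (2 : ℝ) ^ j * 32 * ((1 / 2) ^ j * (1 / 2) ^ 5) = (2 ^ j * (1 / 2) ^ j) * 1 := by ring
      _ = 1 := by rw [h3, one_mul]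
  unfold Th
  have h6 := mul_le_mul_of_nonneg_left h1 (show (0 : ℝ) ≤ 32768 * (2 ^ j * 32) by positivity)
  have e1 : 32768 * (2 ^ j * 32) * (rr (j + 5) * e / 32768) = (2 ^ j * 32 * rr (j + 5)) * e := by
    ring
  rw [e1, h2r, one_mul] at h6
  refine h6.trans (le_of_eq ?_)
  ring

end Pool.Agent.H45.NS
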