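import Mathlib

/-!
Sequences: the number of the bad scales (helper45).
-/

set_option autoImplicit false

open Finset

namespace Pool.Agent.H45.NS

/-- Growth by at most `κ` at each step and decay by at least `δ` at the good steps. -/
theorem log_growth {U : ℕ → ℝ} {bad : ℕ → Prop} [DecidablePred bad] {κ δ : ℝ} {k N : ℕ}
    (hκ : ∀ i, k ≤ i → i < N → Real.log (U (i + 1)) ≤ Real.log (U i) + κ)
    (hδ : ∀ i, k ≤ i → i < N → ¬ bad i → Real.log (U (i + 1)) ≤ Real.log (U i) - δ)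
    {n : ℕ} (hn : k ≤ n) (hnN : n ≤ N) :
    Real.log (U n) ≤ Real.log (U k) + (κ + δ) * (((Ico k n).filter bad).card : ℝ)
      - δ * ((n : ℝ) - k) := by
  induction n, hn using Nat.le_induction with
  | base => simp
  | succ n hn ih =>
    have ih := ih (by omega)
    have h1 : Ico k (n + 1) = insert n (Ico k n) := by
      ext i
      simp only [mem_Ico, mem_insert]
      omega
    have h2 : n ∉ (Ico k n).filter bad := by simp
    rw [h1, filter_insert]
    by_cases hb : bad n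
    · rw [if_pos hb, card_insert_of_notMem h2]
      have h3 := hκ n hn (by omega)
      push_cast
      linarith
    · rw [if_neg hb]
      have h3 := hδ n hn (by omega) hb
      push_cast
      linarith

section

variable {m : ℕ} {q : ℝ} {X : ℕ → ℝ}

/-- The weighted sum of `m` consecutive terms. -/
noncomputable def WS (m : ℕ) (q : ℝ) (X : ℕ → ℝ) (i : ℕ) : ℝ :=
  ∑ j ∈ range m, q⁻¹ ^ j * X (i + j)

theorem WS_step (hm : 1 ≤ m) (hq : 0 < q) (hq1 : q ≤ 1) {i : ℕ} {R : ℝ}
    (hR : 0 ≤ R) (h : X (i + m) ≤ q ^ m * X i + R) :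
    WS m q X (i + 1) ≤ q * WS m q X i + q⁻¹ ^ m * R := by
  obtain ⟨l, rfl⟩ : ∃ l, m = l + 1 := ⟨m - 1, by omega⟩
  unfold WS
  rw [sum_range_succ, mul_sum, sum_range_succ' _ l]
  have e1 : ∀ j ∈ range l, q⁻¹ ^ j * X (i + 1 + j) = q * (q⁻¹ ^ (j + 1) * X (i + (j + 1))) := by
    intro j _
    have e2 : i + 1 + j = i + (j + 1) := by ring
    rw [e2, pow_succ]
    field_simp
  rw [sum_congr rfl e1]
  have e3 : i + 1 + l = i + (l + 1) := by ring
  rw [e3]
  have h2 : q⁻¹ ^ l * X (i + (l + 1)) ≤ q⁻¹ ^ l * (q ^ (l + 1) * X i + R) :=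
    mul_le_mul_of_nonneg_left h (by positivity)
  have h3 : q⁻¹ ^ l * (q ^ (l + 1) * X i + R) = q * X i + q⁻¹ ^ l * R := by
    rw [mul_add, ← mul_assoc, pow_succ, ← mul_assoc, ← mul_pow, inv_mul_cancel₀ hq.ne', one_pow,
      one_mul]
  have h4 : q⁻¹ ^ l * R ≤ q⁻¹ ^ (l + 1) * R := by
    apply mul_le_mul_of_nonneg_right _ hR
    exact pow_le_pow_right₀ ((one_le_inv₀ hq).2 hq1) (Nat.le_succ l)
  simp only [pow_zero, one_mul, add_zero]
  linarith

theorem WS_grow (hq : 0 < q) {i : ℕ} (h : ∀ j, X (i + 1 + j) ≤ 2 * X (i + j)) :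
    WS m q X (i + 1) ≤ 2 * WS m q X i := by
  unfold WS
  rw [mul_sum]
  refine sum_le_sum fun j _ => ?_
  have h1 := mul_le_mul_of_nonneg_left (h j) (show (0 : ℝ) ≤ q⁻¹ ^ j by positivity)
  linarith

theorem WS_ge (hm : 1 ≤ m) (hq : 0 < q) (hX : ∀ i, 0 ≤ X i) (i : ℕ) : X i ≤ WS m q X i := by
  obtain ⟨l, rfl⟩ : ∃ l, m = l + 1 := ⟨m - 1, by omega⟩
  unfold WS
  rw [sum_range_succ' _ l]
  simp only [pow_zero, one_mul, add_zero]
  have : 0 ≤ ∑ j ∈ range l, q⁻¹ ^ (j + 1) * X (i + (j + 1)) :=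
    sum_nonneg fun j _ => mul_nonneg (by positivity) (hX _)
  linarith

theorem WS_le (hq : 0 < q) {i : ℕ} {B : ℝ} (h : ∀ j, X (i + j) ≤ 2 ^ j * B) :
    WS m q X i ≤ (∑ j ∈ range m, q⁻¹ ^ j * 2 ^ j) * B := by
  unfold WS
  rw [sum_mul]
  refine sum_le_sum fun j _ => ?_
  have h1 := mul_le_mul_of_nonneg_left (h j) (show (0 : ℝ) ≤ q⁻¹ ^ j by positivity)
  linarith

end

/-- The number of the bad scales. -/
theorem count_bad {m : ℕ} {q q' C Cs θ l : ℝ} (hm : 1 ≤ m) (hq : 0 < q) (hqq : q < q')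
    (hq' : q' < 1) (hC : 0 < C) (hCs : 0 < Cs) (hθ : 0 < θ) (hl : 0 < l) (hl1 : l < 1)
    (hlq : -Real.log q' = Real.log 2 * (1 - l) / l) :
    ∃ ε K : ℝ, 0 < ε ∧ 0 < K ∧
    ∀ (e X Θ : ℕ → ℝ) (k n : ℕ), (∀ i, 0 ≤ e i) → (∀ i, 0 ≤ X i) →
      (∀ i, k ≤ i → X (i + m) ≤ q ^ m * X i + C * (e i + e i ^ 2)) →
      (∀ i, k ≤ i → X (i + 1) ≤ 2 * X i) →
      (∀ i, k ≤ i → i ≤ n → θ < X i ∨ θ < e i) → (∀ i, k ≤ i → e i ≤ Cs * Θ i) →
      ∀ B : ℝ, 1 ≤ B → X k ≤ B → k ≤ n →
        (1 - l) * ((n : ℝ) - k) ≤ (((Ico k n).filter (fun i => ε < Θ i)).card : ℝ)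
          + l * (Real.log B / Real.log 2) + K := by
  obtain ⟨M, hM⟩ : ∃ M : ℝ, M = ∑ j ∈ range m, q⁻¹ ^ j * 2 ^ j := ⟨_, rfl⟩
  have hM0 : 0 < M := by
    rw [hM]
    exact sum_pos (fun j _ => by positivity) (by simpa using by omega)
  obtain ⟨A, hA⟩ : ∃ A : ℝ, A = q⁻¹ ^ m * C := ⟨_, rfl⟩
  have hA0 : 0 < A := by rw [hA]; positivity
  have hqd : 0 < q' - q := by linarith
  obtain ⟨ε, hε, hε1, hε2, hε3⟩ : ∃ ε : ℝ, 0 < ε ∧ Cs * ε ≤ 1 ∧ Cs * ε ≤ θ ∧
      A * (2 * (Cs * ε)) ≤ (q' - q) * θ := by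
    refine ⟨min (1 / Cs) (min (θ / Cs) ((q' - q) * θ / (2 * A * Cs))), by positivity, ?_, ?_, ?_⟩
    · calc Cs * min (1 / Cs) (min (θ / Cs) ((q' - q) * θ / (2 * A * Cs))) ≤ Cs * (1 / Cs) :=
            mul_le_mul_of_nonneg_left (min_le_left _ _) hCs.le
        _ = 1 := by field_simp
    · calc Cs * min (1 / Cs) (min (θ / Cs) ((q' - q) * θ / (2 * A * Cs))) ≤ Cs * (θ / Cs) :=
            mul_le_mul_of_nonneg_left ((min_le_right _ _).trans (min_le_left _ _)) hCs.le
        _ = θ := by field_simp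
    · calc A * (2 * (Cs * min (1 / Cs) (min (θ / Cs) ((q' - q) * θ / (2 * A * Cs)))))
          ≤ A * (2 * (Cs * ((q' - q) * θ / (2 * A * Cs)))) := by
            gcongr
            exact (min_le_right _ _).trans (min_le_right _ _)
        _ = (q' - q) * θ := by field_simp
  have hlog2 : 0 < Real.log 2 := Real.log_pos (by norm_num)
  obtain ⟨δ, hδ⟩ : ∃ δ, δ = -Real.log q' := ⟨_, rfl⟩
  have hδ0 : 0 < δ := by rw [hδ]; linarith [Real.log_neg (hq.trans hqq) hq']
  have hsum : (Real.log 2 + δ) * l = Real.log 2 := by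
    rw [hδ, hlq]
    field_simp
    ring
  have hδl : δ * l = Real.log 2 * (1 - l) := by
    rw [hδ, hlq]
    field_simp
  refine ⟨ε, 1 + l * ((|Real.log M| + |Real.log θ|) / Real.log 2), hε, by positivity, ?_⟩
  intro e X Θ k n he hX hrec hgr hcrit heΘ B hB hBX hkn
  have hlogB : 0 ≤ Real.log B := Real.log_nonneg hB
  have hcard : ∀ n' : ℕ, (((Ico k n').filter (fun i => ε < Θ i)).card : ℝ) ≥ 0 :=
    fun n' => Nat.cast_nonneg _
  have hK0 : 0 ≤ l * ((|Real.log M| + |Real.log θ|) / Real.log 2) := by positivity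
  have hLB : 0 ≤ l * (Real.log B / Real.log 2) := by positivity
  by_cases hS : ((Icc k n).filter (fun i => Θ i ≤ ε)).Nonempty
  swap
  · -- all levels are bad
    rw [not_nonempty_iff_eq_empty] at hS
    have h1 : (Ico k n).filter (fun i => ε < Θ i) = Ico k n := by
      rw [filter_eq_self]
      intro i hi
      by_contra hcon
      rw [not_lt] at hcon
      have h2 : i ∈ (Icc k n).filter (fun i => Θ i ≤ ε) := by
        rw [mem_Ico] at hi
        exact mem_filter.2 ⟨mem_Icc.2 ⟨hi.1, hi.2.le⟩, hcon⟩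
      rw [hS] at h2
      exact absurd h2 (notMem_empty i)
    rw [h1, Nat.card_Ico, Nat.cast_sub hkn]
    have h2 : (0 : ℝ) ≤ (n : ℝ) - k := by
      have : (k : ℝ) ≤ n := by exact_mod_cast hkn
      linarith
    nlinarith
  obtain ⟨n', hn'⟩ : ∃ n', n' = ((Icc k n).filter (fun i => Θ i ≤ ε)).max' hS := ⟨_, rfl⟩
  have hmem := max'_mem _ hS
  rw [← hn', mem_filter, mem_Icc] at hmem
  obtain ⟨⟨hkn', hnn'⟩, hgood⟩ := hmem
  have hlast : ∀ i, n' < i → i ≤ n → ε < Θ i := by
    intro i hi hin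
    by_contra hcon
    rw [not_lt] at hcon
    have h2 : i ∈ (Icc k n).filter (fun i => Θ i ≤ ε) :=
      mem_filter.2 ⟨mem_Icc.2 ⟨by omega, hin⟩, hcon⟩
    have h3 := le_max' _ i h2
    rw [← hn'] at h3
    omega
  -- the potential
  have hWlow : ∀ i, k ≤ i → i ≤ n → Θ i ≤ ε → θ < WS m q X i ∧ e i ≤ Cs * ε := by
    intro i hi hin hg
    have h1 : e i ≤ Cs * ε := (heΘ i hi).trans (mul_le_mul_of_nonneg_left hg hCs.le)
    refine ⟨?_, h1⟩
    rcases hcrit i hi hin with h | h
    · exact h.trans_le (WS_ge hm hq hX i)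
    · linarith
  have hgrow : ∀ i, k ≤ i → WS m q X (i + 1) ≤ 2 * WS m q X i := by
    intro i hi
    refine WS_grow hq fun j => ?_
    have := hgr (i + j) (by omega)
    rwa [show i + 1 + j = i + j + 1 by ring]
  have hpos : ∀ i, k ≤ i → i ≤ n' → 0 < WS m q X i := by
    have h1 : ∀ d, d ≤ n' - k → 0 < WS m q X (n' - d) := by
      intro d
      induction d with
      | zero =>
        intro _
        exact hθ.trans (hWlow n' hkn' hnn' hgood).1
      | succ d ih =>
        intro hd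
        have h2 := ih (by omega)
        have h3 := hgrow (n' - (d + 1)) (by omega)
        rw [show n' - (d + 1) + 1 = n' - d by omega] at h3
        linarith
    intro i hi hin
    have h2 := h1 (n' - i) (by omega)
    rwa [show n' - (n' - i) = i by omega] at h2
  have hκstep : ∀ i, k ≤ i → i < n' →
      Real.log (WS m q X (i + 1)) ≤ Real.log (WS m q X i) + Real.log 2 := by
    intro i hi hin
    have h1 := hpos i hi hin.le
    rw [← Real.log_mul h1.ne' (by norm_num)]
    apply Real.log_le_log (hpos (i + 1) (by omega) (by omega))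
    linarith [hgrow i hi]
  have hδstep : ∀ i, k ≤ i → i < n' → ¬ ε < Θ i →
      Real.log (WS m q X (i + 1)) ≤ Real.log (WS m q X i) - δ := by
    intro i hi hin hb
    rw [not_lt] at hb
    have h1 := hpos i hi hin.le
    obtain ⟨h2, h3⟩ := hWlow i hi (by omega) hb
    have h0 := he i
    have e1 : Real.log (WS m q X i) - δ = Real.log (WS m q X i * q') := by
      rw [Real.log_mul h1.ne' (hq.trans hqq).ne', hδ]
      ring
    rw [e1]
    apply Real.log_le_log (hpos (i + 1) (by omega) (by omega))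
    have h4 := WS_step hm hq (hqq.trans hq').le (by positivity) (hrec i hi)
    have h5 : e i + e i ^ 2 ≤ 2 * (Cs * ε) := by
      have h6 : e i ^ 2 ≤ e i := by nlinarith
      linarith
    have h7 : q⁻¹ ^ m * (C * (e i + e i ^ 2)) ≤ (q' - q) * θ := by
      refine le_trans ?_ hε3
      rw [hA, mul_assoc]
      gcongr
    have h8 : (q' - q) * θ ≤ (q' - q) * WS m q X i := mul_le_mul_of_nonneg_left h2.le hqd.le
    linarith
  have key := log_growth (U := WS m q X) (bad := fun i => ε < Θ i) hκstep hδstep hkn' le_rfl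
  have hlow : Real.log θ ≤ Real.log (WS m q X n') :=
    Real.log_le_log hθ (hWlow n' hkn' hnn' hgood).1.le
  have htop : Real.log (WS m q X k) ≤ Real.log M + Real.log B := by
    have hB0 : 0 < B := by linarith
    rw [← Real.log_mul hM0.ne' hB0.ne', hM]
    apply Real.log_le_log (hpos k le_rfl hkn')
    apply WS_le hq
    intro j
    induction j with
    | zero => simpa using hBX
    | succ j ih =>
      have h1 := hgr (k + j) (by omega)
      rw [← add_assoc, pow_succ]
      linarith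
  -- the number of the bad levels
  have hcount : (((Ico k n').filter (fun i => ε < Θ i)).card : ℝ) + ((n : ℝ) - n') - 1
      ≤ (((Ico k n).filter (fun i => ε < Θ i)).card : ℝ) := by
    have h1 : (Ico k n').filter (fun i => ε < Θ i) ∪ Ioo n' n
        ⊆ (Ico k n).filter (fun i => ε < Θ i) := by
      intro i hi
      rw [mem_union, mem_filter, mem_Ico, mem_Ioo] at hi
      rw [mem_filter, mem_Ico]
      rcases hi with hi | hi
      · exact ⟨⟨hi.1.1, by omega⟩, hi.2⟩
      · exact ⟨⟨by omega, hi.2⟩, hlast i hi.1 hi.2.le⟩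
    have h2 : Disjoint ((Ico k n').filter (fun i => ε < Θ i)) (Ioo n' n) := by
      rw [disjoint_left]
      intro i hi hi'
      rw [mem_filter, mem_Ico] at hi
      rw [mem_Ioo] at hi'
      omega
    have h3 := card_le_card h1
    rw [card_union_of_disjoint h2, Nat.card_Ioo] at h3
    have h4 : (n : ℝ) - n' - 1 ≤ ((n - n' - 1 : ℕ) : ℝ) := by
      rcases Nat.lt_or_ge n' n with h | h
      · rw [Nat.cast_sub (by omega), Nat.cast_sub (by omega)]
        push_cast
        linarith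
      · have h5 : (n : ℝ) ≤ n' := by exact_mod_cast h
        have h6 : (0 : ℝ) ≤ ((n - n' - 1 : ℕ) : ℝ) := Nat.cast_nonneg _
        linarith
    have h5 : (((Ico k n').filter (fun i => ε < Θ i)).card : ℝ) + ((n - n' - 1 : ℕ) : ℝ)
        ≤ (((Ico k n).filter (fun i => ε < Θ i)).card : ℝ) := by exact_mod_cast h3
    linarith
  -- the conclusion
  have hθ' := neg_abs_le (Real.log θ)
  have hM' := le_abs_self (Real.log M)
  have h1 : δ * ((n' : ℝ) - k) ≤ (Real.log 2 + δ) *
      (((Ico k n').filter (fun i => ε < Θ i)).card : ℝ)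
      + (|Real.log M| + |Real.log θ| + Real.log B) := by linarith
  have h2 := mul_le_mul_of_nonneg_right h1 hl.le
  have h3 : δ * ((n' : ℝ) - k) * l = Real.log 2 * ((1 - l) * ((n' : ℝ) - k)) := by
    have : δ * ((n' : ℝ) - k) * l = (δ * l) * ((n' : ℝ) - k) := by ring
    rw [this, hδl]
    ring
  have h4 : ((Real.log 2 + δ) * (((Ico k n').filter (fun i => ε < Θ i)).card : ℝ)
      + (|Real.log M| + |Real.log θ| + Real.log B)) * l
      = Real.log 2 * (((Ico k n').filter (fun i => ε < Θ i)).card : ℝ)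
      + l * (|Real.log M| + |Real.log θ| + Real.log B) := by
    have : ((Real.log 2 + δ) * (((Ico k n').filter (fun i => ε < Θ i)).card : ℝ)
      + (|Real.log M| + |Real.log θ| + Real.log B)) * l
      = ((Real.log 2 + δ) * l) * (((Ico k n').filter (fun i => ε < Θ i)).card : ℝ)
      + l * (|Real.log M| + |Real.log θ| + Real.log B) := by ring
    rw [this, hsum]
  rw [h3, h4] at h2
  have h5 : (1 - l) * ((n' : ℝ) - k) ≤ (((Ico k n').filter (fun i => ε < Θ i)).card : ℝ)
      + l * ((|Real.log M| + |Real.log θ| + Real.log B) / Real.log 2) := by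
    have h6 : Real.log 2 * ((1 - l) * ((n' : ℝ) - k)) ≤ Real.log 2 *
        ((((Ico k n').filter (fun i => ε < Θ i)).card : ℝ)
        + l * ((|Real.log M| + |Real.log θ| + Real.log B) / Real.log 2)) := by
      refine h2.trans (le_of_eq ?_)
      field_simp
    exact le_of_mul_le_mul_left h6 hlog2
  have h6 : l * ((|Real.log M| + |Real.log θ| + Real.log B) / Real.log 2)
      = l * ((|Real.log M| + |Real.log θ|) / Real.log 2) + l * (Real.log B / Real.log 2) := by
    ring
  have h7 : (1 - l) * ((n : ℝ) - n') ≤ (n : ℝ) - n' := by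
    have : (n' : ℝ) ≤ n := by exact_mod_cast hnn'
    nlinarith
  rw [h6] at h5
  have h8 : (1 - l) * ((n : ℝ) - k) = (1 - l) * ((n' : ℝ) - k) + (1 - l) * ((n : ℝ) - n') := by
    ring
  linarith

end Pool.Agent.H45.NS
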