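import Pool.Agent.H45.NS.B8
import Pool.Agent.H45.NS.Seq

/-!
The number of the bad scales, viscosity one.
-/

set_option autoImplicit false

open MeasureTheory Set Metric
open scoped ContDiff ENNReal

namespace Pool.Agent.H45.NS

open H459R3.NS W221.NS Pool.Agent.Y8 Pool.Agent.N977.H Pool.Agent.N976.TL

/-- The supremum of the scaled energy. -/
noncomputable def XsB (G : Set ℝ) (u : ℝ → V → V) (t₀ : ℝ) (x₀ : V) (i : ℕ) : ℝ :=
  sSup ((fun t => EE (u t) x₀ i) '' (Wb t₀ i ∩ G))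

theorem XsB_nonneg (G : Set ℝ) (u : ℝ → V → V) (t₀ : ℝ) (x₀ : V) (i : ℕ) :
    0 ≤ XsB G u t₀ x₀ i := by
  apply Real.sSup_nonneg
  rintro _ ⟨t, _, rfl⟩
  exact EE_nonneg _ _ _

theorem XsB_le {G : Set ℝ} {u : ℝ → V → V} {t₀ : ℝ} {x₀ : V} {i : ℕ} {M : ℝ} (hM : 0 ≤ M)
    (h : ∀ t ∈ Wb t₀ i ∩ G, EE (u t) x₀ i ≤ M) : XsB G u t₀ x₀ i ≤ M := by
  apply Real.sSup_le _ hM
  rintro _ ⟨t, ht, rfl⟩
  exact h t ht

theorem le_XsB {G : Set ℝ} {u : ℝ → V → V} {t₀ : ℝ} {x₀ : V} {i : ℕ} {M : ℝ}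
    (h : ∀ t ∈ Wb t₀ i ∩ G, EE (u t) x₀ i ≤ M) : ∀ t ∈ Wb t₀ i ∩ G,
    EE (u t) x₀ i ≤ XsB G u t₀ x₀ i := by
  intro t ht
  apply le_csSup
  · refine ⟨M, ?_⟩
    rintro _ ⟨s, hs, rfl⟩
    exact h s hs
  · exact ⟨t, ht, rfl⟩

/-- The bound by the energy. -/
theorem EE_bd : ∃ C : ℝ, 0 < C ∧ ∀ (w : V → V) (E : ℝ), SPV w → energy w ≤ E ^ 2 →
    ∀ (i : ℕ) (x : V), 2 ≤ i → EE w x i ≤ C * E ^ 2 * 2 ^ i := by
  obtain ⟨C, hC, hb⟩ := ball_le 1
  refine ⟨C, hC, fun w E hw hE i x hi => ?_⟩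
  have hr := rr0 i
  have hr4 : rr i * 4 ≤ 1 := by
    have h1 := rr_anti hi
    have h2 : rr 2 = 1 / 4 := by unfold rr; norm_num
    linarith
  have h2i : (2 : ℝ) ^ i = (rr i)⁻¹ := by
    unfold rr
    rw [one_div, inv_pow, inv_inv]
  have hc : Continuous (nsq w) := (nsq_sm hw.1).continuous
  have h4 : A2 x (rr i * 4) w ≤ C * E ^ 2 := by
    unfold A2
    calc ∫ z in ball x (rr i * 4), nsq w z ≤ ∫ z in ball x 1, nsq w z :=
          setIntegral_mono_set (ballint hc _ _)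
            (Filter.Eventually.of_forall fun z => nsq_nn _ z)
            (ball_subset_ball hr4).eventuallyLE
      _ ≤ C * ∫ y in cube, nsq w y := hb _ hc (nsq_per hw.2) (nsq_nn w) x
      _ ≤ _ := by
          rw [← energy_eq hw.1]
          exact mul_le_mul_of_nonneg_left hE hC.le
  unfold EE
  rw [h2i]
  calc (rr i)⁻¹ * A2 x (rr i * 4) w ≤ (rr i)⁻¹ * (C * E ^ 2) :=
        mul_le_mul_of_nonneg_left h4 (by positivity)
    _ = _ := by ring

/-- The number of the bad scales, viscosity one. -/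
theorem qsr1 (l : ℝ) (hl3 : 1 / 3 < l) (hl1 : l < 1) : ∃ ε K C : ℝ, 0 < ε ∧ 0 < K ∧ 0 < C ∧
    ∀ (T E D : ℝ) (G : Set ℝ) (u : ℝ → V → V) (p : ℝ → V → ℝ), Turb 1 T E D G u p →
    ∀ (t₀ : ℝ) (x₀ : V) (k n : ℕ), t₀ ∈ Ioo 0 T → k ≤ n → 2 * rr k ^ 2 < t₀ →
      (¬ SingPt G u t₀ x₀ ∧
        ∀ t ∈ Wb t₀ (n + 13) ∩ G, ∀ x ∈ ball x₀ (rr (n + 14)), ‖u t x‖ ≤ C * 2 ^ n) ∨
      (1 - l) * ((n : ℝ) - k)
        ≤ (((Finset.Ico k n).filter (fun i => ε < Th G u (t₀, x₀) i)).card : ℝ)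
          + l * k + K * (1 + Real.log (1 + |E|)) := by
  have hl : 0 < l := by linarith
  have hlog2 : 0 < Real.log 2 := Real.log_pos (by norm_num)
  obtain ⟨P, hP, hrec0⟩ := recB
  -- the rates
  obtain ⟨q', hq'⟩ : ∃ q', q' = Real.exp (-(Real.log 2 * (1 - l) / l)) := ⟨_, rfl⟩
  have hlq : -Real.log q' = Real.log 2 * (1 - l) / l := by
    rw [hq', Real.log_exp, neg_neg]
  have hq'4 : 1 / 4 < q' := by
    have h1 : (1 / 4 : ℝ) = Real.exp (-(2 * Real.log 2)) := by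
      rw [Real.exp_neg, mul_comm, Real.exp_mul, Real.exp_log (by norm_num)]
      norm_num
    rw [h1, hq']
    apply Real.exp_lt_exp.2
    apply neg_lt_neg
    rw [div_lt_iff₀ hl]
    nlinarith
  have hq'1 : q' < 1 := by
    have h0 : 0 < Real.log 2 * (1 - l) / l := div_pos (mul_pos hlog2 (by linarith)) hl
    have h1 := Real.exp_lt_exp.2 (show -(Real.log 2 * (1 - l) / l) < 0 by linarith)
    rwa [Real.exp_zero, ← hq'] at h1
  obtain ⟨q, hq⟩ : ∃ q, q = (1 / 4 + q') / 2 := ⟨_, rfl⟩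
  have hq4 : 1 < 4 * q := by linarith
  have hq0 : 0 < q := by linarith
  obtain ⟨m0, hm0⟩ := pow_unbounded_of_one_lt P hq4
  obtain ⟨m, hmm⟩ : ∃ m, m = max m0 3 := ⟨_, rfl⟩
  have hm3 : 3 ≤ m := hmm ▸ le_max_right _ _
  have hPm : P / 4 ^ m ≤ q ^ m := by
    have e1 : (4 * q) ^ m0 ≤ (4 * q) ^ m := pow_le_pow_right₀ hq4.le (hmm ▸ le_max_left _ _)
    rw [div_le_iff₀ (by positivity), ← mul_pow, mul_comm q 4]
    linarith
  obtain ⟨C₁, hC₁, hrec⟩ := hrec0 m hm3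
  obtain ⟨θ, C, hθ, hC, hcrit⟩ := critE
  obtain ⟨Cs, hCs, heS⟩ := eL
  obtain ⟨C₇, hC₇, h7⟩ := EE_bd
  obtain ⟨ε, K, hε, hK, hcount⟩ := count_bad (m := m) (q := q) (q' := q') (C := C₁) (Cs := Cs)
    (θ := θ / 2) (l := l) (by omega) hq0 (by linarith) hq'1 hC₁ hCs (by positivity) hl hl1 hlq
  obtain ⟨Mb, hMb⟩ : ∃ Mb : ℝ, Mb = 1 + C₇ * 2 ^ 5 := ⟨_, rfl⟩
  have hMb1 : 1 ≤ Mb := by
    have : 0 < C₇ * 2 ^ 5 := by positivity
    linarith
  have hlM : 0 ≤ Real.log Mb := Real.log_nonneg hMb1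
  refine ⟨ε, K + (Real.log Mb + 2) / Real.log 2, C * 2 ^ 5, hε, by positivity, by positivity, ?_⟩
  intro T E D G u p hN t₀ x₀ k n ht₀ hkn hkt
  have hE0 : 0 ≤ Real.log (1 + |E|) := Real.log_nonneg (by linarith [abs_nonneg E])
  -- the sequences
  have h8' := fun i => essB T E D G u p hN t₀ x₀ i
  choose e he0 helow heup using h8'
  have hspv : ∀ t ∈ G, SPV (u t) := fun t ht => hN.spv ht
  have hbd : ∀ i, 2 ≤ i → ∀ t ∈ Wb t₀ i ∩ G, EE (u t) x₀ i ≤ C₇ * E ^ 2 * 2 ^ i :=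
    fun i hi t ht => h7 (u t) E (hspv t ht.2) (hN.energy_le t ht.2) i x₀ hi
  obtain ⟨X, hX⟩ : ∃ X : ℕ → ℝ, X = fun i => XsB G u t₀ x₀ i := ⟨_, rfl⟩
  have hX0 : ∀ i, 0 ≤ X i := fun i => by rw [hX]; exact XsB_nonneg G u t₀ x₀ i
  have hXle : ∀ i, 2 ≤ i → ∀ t ∈ Wb t₀ i ∩ G, EE (u t) x₀ i ≤ X i :=
    fun i hi => by rw [hX]; exact le_XsB (hbd i hi)
  have hXmk : ∀ i (M : ℝ), 0 ≤ M → (∀ t ∈ Wb t₀ i ∩ G, EE (u t) x₀ i ≤ M) → X i ≤ M :=
    fun i M hM h => by rw [hX]; exact XsB_le hM h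
  have hLv : ∀ i, k ≤ i → ∀ e' > e i, ∃ y, LvB T G u t₀ x₀ y i e' := by
    intro i hi e' he'
    obtain ⟨y, hy1, hy2⟩ := heup i e' he'
    have h1 : rr i ^ 2 ≤ rr k ^ 2 := pow_le_pow_left₀ (rr0 i).le (rr_anti hi) 2
    exact ⟨y, ⟨by linarith, ht₀.2, hy1, lt_of_le_of_lt (he0 i) he', hy2⟩⟩
  have hrcs : ∀ i, k ≤ i → 2 ≤ i → X (i + m) ≤ q ^ m * X i + C₁ * (e i + e i ^ 2) := by
    intro i hi hi2
    apply hXmk _ _ (by have := hX0 i; have := he0 i; positivity)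
    intro t ht
    refine A9.lim_le (g := fun e' : ℝ => q ^ m * X i + C₁ * (e' + e' ^ 2)) (by fun_prop) ?_
    intro e' he'
    obtain ⟨y, hy⟩ := hLv i hi e' he'
    refine (hrec T E D G u p hN t₀ x₀ y i e' (X i) hy (hX0 i) (hXle i hi2) t ht).trans ?_
    have := mul_le_mul_of_nonneg_right hPm (hX0 i)
    linarith
  have hgr : ∀ i, 2 ≤ i → X (i + 1) ≤ 2 * X i := by
    intro i hi2
    apply hXmk _ _ (by have := hX0 i; positivity)
    intro t ht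
    refine (EE_succ (hspv t ht.2).1 x₀ i).trans ?_
    have := hXle i hi2 t ⟨Wb_mono (Nat.le_succ i) ht.1, ht.2⟩
    linarith
  by_cases hex : ∃ i, k + 5 ≤ i ∧ i ≤ n + 5 ∧ X i ≤ θ / 2 ∧ e i ≤ θ / 2
  · left
    obtain ⟨i, hki, hin, hXi, hei⟩ := hex
    obtain ⟨y, hy⟩ := hLv i (by omega) θ (by linarith)
    obtain ⟨h1, h2⟩ := hcrit T E D G u p hN t₀ x₀ y i hy
      (fun t ht => (hXle i (by omega) t ht).trans (by linarith))
    refine ⟨h1, fun t ht x hx => ?_⟩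
    refine (h2 t ⟨Wb_mono (by omega) ht.1, ht.2⟩ x (ball_subset_ball (rr_anti (by omega)) hx)).trans
      ?_
    have h3 : (2 : ℝ) ^ i ≤ 2 ^ (n + 5) := pow_le_pow_right₀ (by norm_num) hin
    calc C * 2 ^ i ≤ C * 2 ^ (n + 5) := mul_le_mul_of_nonneg_left h3 hC.le
      _ = C * 2 ^ 5 * 2 ^ n := by ring
  · right
    push Not at hex
    obtain ⟨B, hB⟩ : ∃ B : ℝ, B = Mb * (1 + |E|) ^ 2 * 2 ^ k := ⟨_, rfl⟩
    have hE1 : 1 ≤ (1 + |E|) ^ 2 := one_le_pow₀ (by linarith [abs_nonneg E])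
    have h2k : (1 : ℝ) ≤ 2 ^ k := one_le_pow₀ (by norm_num)
    have hE2 : E ^ 2 ≤ (1 + |E|) ^ 2 := by
      rw [← sq_abs]
      exact pow_le_pow_left₀ (abs_nonneg E) (by linarith) 2
    have hB1 : 1 ≤ B := by
      rw [hB]
      have h1 : 1 ≤ Mb * (1 + |E|) ^ 2 := one_le_mul_of_one_le_of_one_le hMb1 hE1
      exact one_le_mul_of_one_le_of_one_le h1 h2k
    have key := hcount (fun j => e (j + 5)) (fun j => X (j + 5)) (Th G u (t₀, x₀)) k n
      (fun j => he0 _) (fun j => hX0 _) (fun j hj => by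
        have := hrcs (j + 5) (by omega) (by omega)
        rwa [show j + 5 + m = j + m + 5 by ring] at this)
      (fun j hj => by
        have := hgr (j + 5) (by omega)
        rwa [show j + 5 + 1 = j + 1 + 5 by ring] at this)
      (fun j hj hjn => by
        by_contra hcon
        push Not at hcon
        exact absurd (hex (j + 5) (by omega) (by omega) hcon.1) (not_lt.2 hcon.2))
      (fun j _ => heS T E D G u p hN (t₀, x₀) j (e (j + 5)) (he0 _) (helow (j + 5)))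
      B hB1 (by
        refine (hXmk (k + 5) _ (by positivity) (hbd (k + 5) (by omega))).trans ?_
        calc C₇ * E ^ 2 * 2 ^ (k + 5) = (C₇ * 2 ^ 5) * E ^ 2 * 2 ^ k := by ring
          _ ≤ Mb * (1 + |E|) ^ 2 * 2 ^ k := by
              gcongr
              rw [hMb]
              linarith
          _ = B := hB.symm) hkn
    have hlB : Real.log B / Real.log 2
        = k + (Real.log Mb + 2 * Real.log (1 + |E|)) / Real.log 2 := by
      have hE1' : (0 : ℝ) < 1 + |E| := by positivity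
      have hMb0 : 0 < Mb := by linarith
      rw [hB, Real.log_mul (by positivity) (by positivity), Real.log_mul (by positivity)
        (by positivity), Real.log_pow, Real.log_pow]
      push_cast
      field_simp
      ring
    rw [hlB] at key
    refine key.trans ?_
    have h1 : l * ((Real.log Mb + 2 * Real.log (1 + |E|)) / Real.log 2)
        ≤ (Real.log Mb + 2 * Real.log (1 + |E|)) / Real.log 2 := by
      have : 0 ≤ (Real.log Mb + 2 * Real.log (1 + |E|)) / Real.log 2 := by positivity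
      nlinarith
    have h2 : (Real.log Mb + 2 * Real.log (1 + |E|)) / Real.log 2
        ≤ (Real.log Mb + 2) / Real.log 2 * (1 + Real.log (1 + |E|)) := by
      rw [div_mul_eq_mul_div]
      apply div_le_div_of_nonneg_right _ hlog2.le
      nlinarith [mul_nonneg hlM hE0]
    have h3 : K ≤ K * (1 + Real.log (1 + |E|)) := le_mul_of_one_le_right hK.le (by linarith)
    nlinarith

end Pool.Agent.H45.NS
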